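import Pool.Agent.LagRig.Trans

open MeasureTheory Set Filter Topology
open scoped Real ENNReal BoundedContinuousFunction

noncomputable section

namespace Pool.Agent.LagRig

variable {q : ℝ}

lemma integrable_prod_kernel {P G : E3 → ℝ} (hP : Integrable P) (τ : Measure E3) [SFinite τ]
    (hG : Integrable G τ) :
    Integrable (fun p : E3 × E3 => P (p.1 - p.2) * G p.2) ((volume : Measure E3).prod τ) := by
  have := Integrable.convolution_integrand (μ := (volume : Measure E3)) (ν := τ)
    (ContinuousLinearMap.mul ℝ ℝ) hG hP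
  simpa [mul_comm] using this

/-- Local integrability of powers of the norm on three-space. -/
theorem integrableOn_norm_rpow {p : ℝ} (hp : -3 < p) (R : ℝ) :
    IntegrableOn (fun z : E3 => ‖z‖ ^ p) (Metric.ball (0 : E3) R) := by
  rw [integrableOn_fun_norm_addHaar (volume : Measure E3) (f := fun y : ℝ => y ^ p)]
  rcases le_or_gt R 0 with hR | hR
  · rw [Ioo_eq_empty (by linarith)]; exact integrableOn_empty
  have h1 : IntegrableOn (fun y : ℝ => y ^ (p + 2)) (Ioo 0 R) := by
    have := intervalIntegral.intervalIntegrable_rpow' (a := 0) (b := R) (r := p + 2)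
      (by linarith)
    rw [intervalIntegrable_iff_integrableOn_Ioo_of_le hR.le] at this
    exact this
  refine h1.congr_fun (fun y hy => ?_) measurableSet_Ioo
  have hfr : Module.finrank ℝ E3 = 3 := by simp
  simp only [hfr, smul_eq_mul]
  rw [Real.rpow_add hy.1]
  norm_num
  ring

theorem integrableOn_rk {q : ℝ} (hq0 : 0 < q) (_hq1 : q < 1) (R : ℝ) :
    IntegrableOn (rk q) (Metric.ball (0 : E3) R) :=
  integrableOn_norm_rpow (by linarith) R

/-- The truncated kernel. -/
def rkt (q R : ℝ) : E3 → ℝ := (Metric.ball (0 : E3) R).indicator (rk q)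

lemma rkt_nonneg (q R : ℝ) (z : E3) : 0 ≤ rkt q R z :=
  indicator_nonneg (fun z _ => rk_nonneg q z) z

lemma measurable_rkt (q R : ℝ) : Measurable (rkt q R) :=
  (measurable_rk q).indicator measurableSet_ball

lemma integrable_rkt (hq0 : 0 < q) (hq1 : q < 1) (R : ℝ) : Integrable (rkt q R) :=
  (integrable_indicator_iff measurableSet_ball).mpr (integrableOn_rk hq0 hq1 R)

lemma rk_le_rkt (hq1 : q < 1) {R : ℝ} (hR : 0 < R) (z : E3) :
    rk q z ≤ rkt q R z + R ^ (q - 2) := by
  unfold rkt
  by_cases h : z ∈ Metric.ball (0 : E3) R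
  · rw [indicator_of_mem h]
    have := Real.rpow_nonneg hR.le (q - 2)
    linarith
  · rw [indicator_of_notMem h, zero_add]
    have h1 : R ≤ ‖z‖ := by simpa using h
    exact Real.rpow_le_rpow_of_nonpos hR h1 (by linarith)

theorem ae_integrable_rk {q : ℝ} (hq0 : 0 < q) (hq1 : q < 1) (τ : Measure E3)
    [IsFiniteMeasure τ] : ∀ᵐ x : E3, Integrable (fun z => rk q (x - z)) τ := by
  have h := (integrable_prod_kernel (integrable_rkt hq0 hq1 1) τ
    (integrable_const (1 : ℝ))).prod_right_ae
  have hrk := measurable_rk q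
  filter_upwards [h] with x hx
  simp only [mul_one] at hx
  refine Integrable.mono' (hx.add (integrable_const (1 : ℝ)))
    (Measurable.aestronglyMeasurable (by fun_prop)) (Eventually.of_forall fun z => ?_)
  rw [Real.norm_of_nonneg (rk_nonneg _ _)]
  have := rk_le_rkt hq1 one_pos (x - z)
  rw [Real.one_rpow] at this
  exact this

theorem measurable_pot (q : ℝ) (τ : Measure E3) [IsFiniteMeasure τ] :
    Measurable (pot q τ) := by
  have hrk := measurable_rk q
  have hm : StronglyMeasurable (Function.uncurry fun (x z : E3) => rk q (x - z)) := by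
    refine Measurable.stronglyMeasurable ?_
    have : Measurable fun p : E3 × E3 => rk q (p.1 - p.2) := by fun_prop
    exact this
  exact (StronglyMeasurable.integral_prod_right hm).measurable

theorem pot_nonneg (q : ℝ) (τ : Measure E3) (x : E3) : 0 ≤ pot q τ x :=
  integral_nonneg fun _ => rk_nonneg _ _

/-- `pot q τ ∈ L¹ + ε L^∞` -/
theorem exists_split {q : ℝ} (hq0 : 0 < q) (hq1 : q < 1) (τ : Measure E3)
    [IsFiniteMeasure τ] {ε : ℝ} (hε : 0 < ε) :
    ∃ F : E3 → ℝ, Measurable F ∧ Integrable F ∧ (∀ x, 0 ≤ F x) ∧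
      ∀ᵐ x : E3, pot q τ x ≤ F x + ε := by
  obtain ⟨R, hR, hRε⟩ : ∃ R : ℝ, 0 < R ∧ R ^ (q - 2) * τ.real univ ≤ ε := by
    have h1 : Tendsto (fun R : ℝ => R ^ (-(2 - q)) * τ.real univ) atTop
        (𝓝 (0 * τ.real univ)) :=
      (tendsto_rpow_neg_atTop (by linarith)).mul_const _
    rw [zero_mul] at h1
    obtain ⟨R, hR1, hR2⟩ := ((h1.eventually (gt_mem_nhds hε)).and
      (eventually_gt_atTop (0 : ℝ))).exists
    refine ⟨R, hR2, ?_⟩
    rw [show q - 2 = -(2 - q) by ring]
    exact hR1.le
  have hm := measurable_rkt q R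
  have hP := integrable_prod_kernel (integrable_rkt hq0 hq1 R) τ (integrable_const (1 : ℝ))
  refine ⟨fun x => ∫ z, rkt q R (x - z) ∂τ, ?_, ?_, ?_, ?_⟩
  · have hm2 : StronglyMeasurable (Function.uncurry fun (x z : E3) => rkt q R (x - z)) := by
      refine Measurable.stronglyMeasurable ?_
      have : Measurable fun p : E3 × E3 => rkt q R (p.1 - p.2) := by fun_prop
      exact this
    exact (StronglyMeasurable.integral_prod_right hm2).measurable
  · simpa using hP.integral_prod_left
  · exact fun x => integral_nonneg fun z => rkt_nonneg _ _ _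
  · filter_upwards [ae_integrable_rk hq0 hq1 τ, hP.prod_right_ae] with x hx hx2
    simp only [mul_one] at hx2
    unfold pot
    calc ∫ z, rk q (x - z) ∂τ ≤ ∫ z, (rkt q R (x - z) + R ^ (q - 2)) ∂τ :=
          integral_mono hx (hx2.add (integrable_const _)) fun z => rk_le_rkt hq1 hR _
      _ = (∫ z, rkt q R (x - z) ∂τ) + R ^ (q - 2) * τ.real univ := by
          rw [integral_add hx2 (integrable_const _), integral_const, smul_eq_mul, mul_comm]
      _ ≤ _ := by linarith

lemma integrable_rkt_sub (hq0 : 0 < q) (hq1 : q < 1) (R : ℝ) (x : E3) :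
    Integrable (fun z => rkt q R (x - z)) :=
  (integrable_rkt hq0 hq1 R).comp_sub_left x

lemma integral_rkt_sub (q R : ℝ) (x : E3) :
    ∫ z, rkt q R (x - z) = ∫ z, rkt q R z :=
  integral_sub_left_eq_self (rkt q R) volume x

theorem exists_setIntegral_bound {q : ℝ} (hq0 : 0 < q) (hq1 : q < 1) {E : Set E3}
    (hE : MeasurableSet E) (hEb : Bornology.IsBounded E) :
    ∃ M : ℝ, 0 < M ∧ ∀ x : E3, IntegrableOn (fun z => rk q (x - z)) E ∧
      ∫ z in E, rk q (x - z) ≤ M := by
  have hfin : volume E < ∞ := hEb.measure_lt_top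
  have hrk := measurable_rk q
  have hc : IntegrableOn (fun _ : E3 => (1 : ℝ)) E := integrableOn_const hfin.ne
  have hint : ∀ x : E3, IntegrableOn (fun z => rk q (x - z)) E := by
    intro x
    refine Integrable.mono' (((integrable_rkt_sub hq0 hq1 1 x).integrableOn).add hc)
      (Measurable.aestronglyMeasurable (by fun_prop)) (Eventually.of_forall fun z => ?_)
    rw [Real.norm_of_nonneg (rk_nonneg _ _)]
    have := rk_le_rkt hq1 one_pos (x - z)
    rw [Real.one_rpow] at this
    exact this
  refine ⟨(∫ z, rkt q 1 z) + volume.real E + 1, ?_, fun x => ⟨hint x, ?_⟩⟩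
  · have h1 : 0 ≤ ∫ z, rkt q 1 z := integral_nonneg fun z => rkt_nonneg _ _ _
    have h2 : 0 ≤ volume.real E := measureReal_nonneg
    linarith
  · calc ∫ z in E, rk q (x - z) ≤ ∫ z in E, (rkt q 1 (x - z) + 1) := by
          refine integral_mono (hint x) (((integrable_rkt_sub hq0 hq1 1 x).integrableOn).add hc)
            fun z => ?_
          have := rk_le_rkt hq1 one_pos (x - z)
          rw [Real.one_rpow] at this
          exact this
      _ = (∫ z in E, rkt q 1 (x - z)) + volume.real E := by
          rw [integral_add ((integrable_rkt_sub hq0 hq1 1 x).integrableOn) hc]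
          simp
      _ ≤ (∫ z, rkt q 1 (x - z)) + volume.real E :=
          add_le_add (setIntegral_le_integral (integrable_rkt_sub hq0 hq1 1 x)
            (Eventually.of_forall fun z => rkt_nonneg _ _ _)) le_rfl
      _ ≤ _ := by rw [integral_rkt_sub]; linarith

lemma integrableOn_rk_mul (hq0 : 0 < q) (hq1 : q < 1) {E : Set E3}
    (hE : MeasurableSet E) (hEb : Bornology.IsBounded E) {f : E3 → ℝ} (hf : Measurable f)
    {B : ℝ} (hB : ∀ z ∈ E, |f z| ≤ B) (x : E3) :
    IntegrableOn (fun z => rk q (x - z) * f z) E := by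
  obtain ⟨M, hM, h⟩ := exists_setIntegral_bound hq0 hq1 hE hEb
  have hrk := measurable_rk q
  refine Integrable.mono' ((h x).1.mul_const B)
    (Measurable.aestronglyMeasurable (by fun_prop)) ?_
  rw [ae_restrict_iff' hE]
  refine Eventually.of_forall fun z hz => ?_
  rw [norm_mul, Real.norm_of_nonneg (rk_nonneg _ _), Real.norm_eq_abs]
  exact mul_le_mul_of_nonneg_left (hB z hz) (rk_nonneg _ _)

theorem continuous_dpot {q : ℝ} (hq0 : 0 < q) (hq1 : q < 1) {E : Set E3}
    (hE : MeasurableSet E) (hEb : Bornology.IsBounded E) {f : E3 → ℝ} (hf : Measurable f)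
    {B : ℝ} (hB : ∀ z ∈ E, |f z| ≤ B) : Continuous (dpot q E f) := by
  rw [continuous_iff_continuousAt]
  intro x
  obtain ⟨R, hR⟩ := hEb.subset_ball x
  have hrk := measurable_rk q
  set B' := max B 0 with hB'
  have hB0 : 0 ≤ B' := le_max_right _ _
  -- the truncated kernel at radius `R + 1`
  set Kt := rkt q (R + 1) with hKt
  have hKi := integrable_rkt hq0 hq1 (R + 1)
  have hKm := measurable_rkt q (R + 1)
  have ht := tendsto_translation hKi
  have ht2 : Tendsto (fun x' : E3 => B' * ∫ u, |Kt (u + (x' - x)) - Kt u|) (𝓝 x) (𝓝 0) := by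
    have h1 : Tendsto (fun x' : E3 => x' - x) (𝓝 x) (𝓝 0) := by
      have : Continuous fun x' : E3 => x' - x := by fun_prop
      simpa using this.tendsto x
    simpa using (ht.comp h1).const_mul B'
  have hev : ∀ᶠ x' in 𝓝 x, ‖dpot q E f x' - dpot q E f x‖ ≤
      B' * ∫ u, |Kt (u + (x' - x)) - Kt u| := by
    filter_upwards [Metric.ball_mem_nhds x one_pos] with x' hx'
    have e1 : ∀ y ∈ Metric.ball x 1, ∀ z ∈ E, rk q (y - z) = Kt (y - z) := by
      intro y hy z hz
      have h1 : y - z ∈ Metric.ball (0 : E3) (R + 1) := by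
        rw [mem_ball_zero_iff]
        have h2 : dist z x < R := hR hz
        have h3 : dist y x < 1 := hy
        calc ‖y - z‖ = ‖(y - x) + (x - z)‖ := by congr 1; abel
          _ ≤ ‖y - x‖ + ‖x - z‖ := norm_add_le _ _
          _ = dist y x + dist z x := by rw [dist_eq_norm, dist_comm z x, dist_eq_norm]
          _ < R + 1 := by linarith
      rw [hKt, rkt, indicator_of_mem h1]
    have hxx : x ∈ Metric.ball x 1 := Metric.mem_ball_self one_pos
    have i1 := integrableOn_rk_mul hq0 hq1 hE hEb hf hB x'
    have i2 := integrableOn_rk_mul hq0 hq1 hE hEb hf hB x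
    have i3 : Integrable (fun z => |Kt (x' - z) - Kt (x - z)|) :=
      ((integrable_rkt_sub hq0 hq1 (R + 1) x').sub
        (integrable_rkt_sub hq0 hq1 (R + 1) x)).abs
    unfold dpot
    rw [← integral_sub i1 i2]
    calc ‖∫ z in E, (rk q (x' - z) * f z - rk q (x - z) * f z)‖
        ≤ ∫ z in E, ‖rk q (x' - z) * f z - rk q (x - z) * f z‖ :=
          norm_integral_le_integral_norm _
      _ ≤ ∫ z in E, B' * |Kt (x' - z) - Kt (x - z)| := by
          refine setIntegral_mono_on (i1.sub i2).norm (i3.const_mul B').integrableOn hE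
            fun z hz => ?_
          rw [← sub_mul, norm_mul, mul_comm, e1 x' hx' z hz, e1 x hxx z hz]
          gcongr
          · exact (hB z hz).trans (le_max_left _ _)
          · exact le_rfl
      _ ≤ ∫ z, B' * |Kt (x' - z) - Kt (x - z)| :=
          setIntegral_le_integral (i3.const_mul B')
            (Eventually.of_forall fun z => mul_nonneg hB0 (abs_nonneg _))
      _ = B' * ∫ z, |Kt (x' - z) - Kt (x - z)| := integral_const_mul _ _
      _ = B' * ∫ u, |Kt (u + (x' - x)) - Kt u| := by
          congr 1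
          rw [← integral_sub_left_eq_self (fun u => |Kt (u + (x' - x)) - Kt u|) volume x]
          refine integral_congr_ae (Eventually.of_forall fun z => ?_)
          simp only
          rw [show x - z + (x' - x) = x' - z by abel]
  rw [ContinuousAt, tendsto_iff_norm_sub_tendsto_zero]
  exact squeeze_zero' (Eventually.of_forall fun _ => norm_nonneg _) hev ht2

end Pool.Agent.LagRig
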