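import Mathlib

open MeasureTheory Set Filter Topology
open scoped Real ENNReal BoundedContinuousFunction

noncomputable section

namespace Pool.Agent.LagRig

/-- Euclidean three-space. -/
abbrev E3 := EuclideanSpace ℝ (Fin 3)

/-- The Riesz kernel `|z|^{q-2}` (with value `0` at `z = 0`). -/
def rk (q : ℝ) (z : E3) : ℝ := ‖z‖ ^ (q - 2)

/-- The heat kernel. -/
def hk (s : ℝ) (z : E3) : ℝ :=
  (4 * π * s) ^ (-(3 / 2) : ℝ) * Real.exp (-(‖z‖ ^ 2) / (4 * s))

/-- The Riesz potential of a measure. -/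
def pot (q : ℝ) (τ : Measure E3) (x : E3) : ℝ := ∫ z, rk q (x - z) ∂τ

/-- The vector potential `∫ |x-z|^{q-2} (x-z) dτ(z)`. -/
def vpot (q : ℝ) (τ : Measure E3) (x : E3) : E3 := ∫ z, rk q (x - z) • (x - z) ∂τ

/-- The potential `∫ |x-z|^q dτ(z)`. -/
def qpot (q : ℝ) (τ : Measure E3) (x : E3) : ℝ := ∫ z, ‖x - z‖ ^ q ∂τ

/-- The potential of a density `f` on the set `E`. -/
def dpot (q : ℝ) (E : Set E3) (f : E3 → ℝ) (x : E3) : ℝ := ∫ z in E, rk q (x - z) * f z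

lemma rk_nonneg (q : ℝ) (z : E3) : 0 ≤ rk q z := Real.rpow_nonneg (norm_nonneg _) _

lemma rk_neg (q : ℝ) (z : E3) : rk q (-z) = rk q z := by simp [rk]

lemma rk_sub_comm (q : ℝ) (x z : E3) : rk q (x - z) = rk q (z - x) := by
  rw [← neg_sub, rk_neg]

lemma measurable_rk (q : ℝ) : Measurable (rk q) := by
  unfold rk; fun_prop

lemma rk_zero {q : ℝ} (hq : q ≠ 2) : rk q 0 = 0 := by
  simp [rk, Real.zero_rpow (sub_ne_zero.mpr hq)]

lemma rk_pos (q : ℝ) {z : E3} (hz : z ≠ 0) : 0 < rk q z :=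
  Real.rpow_pos_of_pos (norm_pos_iff.mpr hz) _

lemma hk_pos {s : ℝ} (hs : 0 < s) (z : E3) : 0 < hk s z := by
  unfold hk; positivity

lemma hk_neg (s : ℝ) (z : E3) : hk s (-z) = hk s z := by simp [hk]

lemma hk_sub_comm (s : ℝ) (x z : E3) : hk s (x - z) = hk s (z - x) := by
  rw [← neg_sub, hk_neg]

lemma measurable_hk : Measurable (fun p : ℝ × E3 => hk p.1 p.2) := by
  unfold hk; fun_prop

end Pool.Agent.LagRig
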