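import Pool.Agent.LagRig.Defs

open MeasureTheory Set Filter Topology
open scoped Real ENNReal BoundedContinuousFunction

noncomputable section

namespace Pool.Agent.LagRig

/-- The translation by `h` as a continuous map. -/
def trMap : C(E3, C(E3, E3)) :=
  (ContinuousMap.mk (fun p : E3 × E3 => p.2 + p.1) (by fun_prop)).curry

lemma trMap_apply (h x : E3) : trMap h x = x + h := rfl

/-- Continuity of translations in `L¹`. -/
theorem tendsto_translation {f : E3 → ℝ} (hf : Integrable f) :
    Tendsto (fun h : E3 => ∫ x, |f (x + h) - f x|) (𝓝 0) (𝓝 0) := by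
  have hmp : ∀ h : E3, MeasurePreserving (trMap h) (volume : Measure E3) volume := fun h =>
    measurePreserving_add_right volume h
  have : Fact ((1 : ℝ≥0∞) ≤ 1) := ⟨le_rfl⟩
  have hcont : Continuous (fun h : E3 =>
      Lp.compMeasurePreserving (trMap h) (hmp h) (hf.toL1 f)) :=
    Continuous.compMeasurePreservingLp (p := 1) continuous_const trMap.continuous hmp
      ENNReal.one_ne_top
  have ht : Tendsto (fun h : E3 => ‖Lp.compMeasurePreserving (trMap h) (hmp h) (hf.toL1 f)
      - Lp.compMeasurePreserving (trMap 0) (hmp 0) (hf.toL1 f)‖) (𝓝 0) (𝓝 0) := by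
    have h1 := (hcont.sub (continuous_const (y :=
      Lp.compMeasurePreserving (trMap 0) (hmp 0) (hf.toL1 f)))).norm.tendsto (0 : E3)
    simpa using h1
  refine ht.congr fun h => ?_
  rw [L1.norm_eq_integral_norm]
  refine integral_congr_ae ?_
  have e1 := Lp.coeFn_compMeasurePreserving (hf.toL1 f) (hmp h)
  have e2 := Lp.coeFn_compMeasurePreserving (hf.toL1 f) (hmp 0)
  have e3 := Integrable.coeFn_toL1 hf
  have e4 := (hmp h).quasiMeasurePreserving.ae_eq_comp e3
  have e5 := (hmp 0).quasiMeasurePreserving.ae_eq_comp e3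
  filter_upwards [Lp.coeFn_sub (Lp.compMeasurePreserving (trMap h) (hmp h) (hf.toL1 f))
    (Lp.compMeasurePreserving (trMap 0) (hmp 0) (hf.toL1 f)), e1, e2, e4, e5]
    with x h0 h1 h2 h4 h5
  rw [h0, Pi.sub_apply, h1, h2, h4, h5]
  simp [trMap_apply, Real.norm_eq_abs]

end Pool.Agent.LagRig
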