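import Pool.Agent.LagRig.Pack
import Pool.Agent.LagRig.Trans
import Pool.Agent.LagRig.Basic

open MeasureTheory Set Filter Topology
open scoped Real ENNReal BoundedContinuousFunction

noncomputable section

namespace Pool.Agent.LagRig

variable {q : ℝ}

lemma lintegral_rk_eq {τ : Measure E3} {x : E3}
    (h : Integrable (fun z => rk q (x - z)) τ) :
    ∫⁻ z, ENNReal.ofReal (rk q (x - z)) ∂τ = ENNReal.ofReal (pot q τ x) := by
  unfold pot
  rw [ofReal_integral_eq_lintegral_ofReal h (Eventually.of_forall fun z => rk_nonneg _ _)]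

lemma ae_ae_ne (τ : Measure E3) [SFinite τ] : ∀ᵐ x : E3, ∀ᵐ z ∂τ, x - z ≠ 0 := by
  have hm : MeasurableSet {p : E3 × E3 | p.1 - p.2 ≠ 0} :=
    (measurable_fst.sub measurable_snd) (measurableSet_singleton (0 : E3)).compl
  rw [Measure.ae_ae_comm (p := fun x z => x - z ≠ 0) hm]
  refine Eventually.of_forall fun z => ?_
  have : ∀ᵐ x : E3, x ≠ z := Measure.ae_ne volume z
  exact this.mono fun x hx => sub_ne_zero.mpr hx

lemma pack_identity (K : Pack q) (hq0 : 0 < q) (hq1 : q < 1) (n : ℕ) (τ : Measure E3)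
    [IsFiniteMeasure τ] :
    ∀ᵐ x : E3, Integrable (fun y => K.P n (x - y) * pot q τ y) ∧
      Integrable (fun z => K.J n (x - z)) τ ∧
      pot q τ x = (∫ y, K.P n (x - y) * pot q τ y) + K.m n * ∫ z, K.J n (x - z) ∂τ := by
  have h1 := ae_integrable_rk hq0 hq1 τ
  have hPm := K.hPm n
  have hJm := K.hJm n
  have hrk := measurable_rk q
  have hpot := measurable_pot q τ
  filter_upwards [h1, ae_ae_ne τ] with x hx hne
  have key : ENNReal.ofReal (pot q τ x) =
      (∫⁻ y, ENNReal.ofReal (K.P n (x - y) * pot q τ y)) +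
        ∫⁻ z, ENNReal.ofReal (K.m n * K.J n (x - z)) ∂τ := by
    rw [← lintegral_rk_eq hx]
    calc ∫⁻ z, ENNReal.ofReal (rk q (x - z)) ∂τ
        = ∫⁻ z, ((∫⁻ y, ENNReal.ofReal (K.P n (x - z - y)) * ENNReal.ofReal (rk q y)) +
            ENNReal.ofReal (K.m n * K.J n (x - z))) ∂τ :=
          lintegral_congr_ae (hne.mono fun z hz => (K.hPk n _ hz).symm)
      _ = (∫⁻ z, (∫⁻ y, ENNReal.ofReal (K.P n (x - z - y)) * ENNReal.ofReal (rk q y)) ∂τ) +
            ∫⁻ z, ENNReal.ofReal (K.m n * K.J n (x - z)) ∂τ :=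
          lintegral_add_right _ (by fun_prop)
      _ = (∫⁻ z, (∫⁻ y, ENNReal.ofReal (K.P n (x - y)) * ENNReal.ofReal (rk q (y - z))) ∂τ) +
            ∫⁻ z, ENNReal.ofReal (K.m n * K.J n (x - z)) ∂τ := by
          congr 1
          refine lintegral_congr fun z => ?_
          rw [← lintegral_sub_right_eq_self (fun y => ENNReal.ofReal (K.P n (x - z - y)) *
            ENNReal.ofReal (rk q y)) z]
          refine lintegral_congr fun y => ?_
          rw [sub_sub_sub_cancel_right]
      _ = (∫⁻ y, (∫⁻ z, ENNReal.ofReal (K.P n (x - y)) * ENNReal.ofReal (rk q (y - z)) ∂τ)) +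
            ∫⁻ z, ENNReal.ofReal (K.m n * K.J n (x - z)) ∂τ := by
          congr 1
          rw [lintegral_lintegral_swap]
          have : Measurable (fun p : E3 × E3 => ENNReal.ofReal (K.P n (x - p.2)) *
            ENNReal.ofReal (rk q (p.2 - p.1))) := by fun_prop
          exact this.aemeasurable
      _ = (∫⁻ y, ENNReal.ofReal (K.P n (x - y) * pot q τ y)) +
            ∫⁻ z, ENNReal.ofReal (K.m n * K.J n (x - z)) ∂τ := by
          congr 1
          refine lintegral_congr_ae (h1.mono fun y hy => ?_)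
          simp only
          rw [lintegral_const_mul _ (by fun_prop), lintegral_rk_eq hy,
            ENNReal.ofReal_mul (K.hP0 n _)]
  have hfin : (∫⁻ y, ENNReal.ofReal (K.P n (x - y) * pot q τ y)) ≠ ∞ := by
    intro h; rw [h, top_add] at key; exact ENNReal.ofReal_ne_top key
  have hfin2 : (∫⁻ z, ENNReal.ofReal (K.m n * K.J n (x - z)) ∂τ) ≠ ∞ := by
    intro h; rw [h, add_top] at key; exact ENNReal.ofReal_ne_top key
  have hi1 : Integrable (fun y => K.P n (x - y) * pot q τ y) := by
    refine (lintegral_ofReal_ne_top_iff_integrable ?_ ?_).mp hfin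
    · exact Measurable.aestronglyMeasurable (by fun_prop)
    · exact Eventually.of_forall fun y => mul_nonneg (K.hP0 n _) (pot_nonneg _ _ _)
  have hi2 : Integrable (fun z => K.m n * K.J n (x - z)) τ := by
    refine (lintegral_ofReal_ne_top_iff_integrable ?_ ?_).mp hfin2
    · exact Measurable.aestronglyMeasurable (by fun_prop)
    · exact Eventually.of_forall fun y => mul_nonneg (K.hm n).le (K.hJ0 n _)
  have hi3 : Integrable (fun z => K.J n (x - z)) τ := by
    have := hi2.const_mul (K.m n)⁻¹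
    refine this.congr (Eventually.of_forall fun z => ?_)
    simp only
    rw [← mul_assoc, inv_mul_cancel₀ (K.hm n).ne', one_mul]
  refine ⟨hi1, hi3, ?_⟩
  rw [← ofReal_integral_eq_lintegral_ofReal hi1
      (Eventually.of_forall fun y => mul_nonneg (K.hP0 n _) (pot_nonneg _ _ _)),
    ← ofReal_integral_eq_lintegral_ofReal hi2
      (Eventually.of_forall fun y => mul_nonneg (K.hm n).le (K.hJ0 n _)),
    ← ENNReal.ofReal_add (integral_nonneg fun y => mul_nonneg (K.hP0 n _) (pot_nonneg _ _ _))
      (integral_nonneg fun y => mul_nonneg (K.hm n).le (K.hJ0 n _)),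
    ENNReal.ofReal_eq_ofReal_iff (pot_nonneg _ _ _)
      (add_nonneg (integral_nonneg fun y => mul_nonneg (K.hP0 n _) (pot_nonneg _ _ _))
        (integral_nonneg fun y => mul_nonneg (K.hm n).le (K.hJ0 n _)))] at key
  rw [key, integral_const_mul]

/-- The truncation `min (max (-s - ε) 0) 1`. -/
def tr (ε s : ℝ) : ℝ := min (max (-s - ε) 0) 1

lemma tr_nonneg (ε s : ℝ) : 0 ≤ tr ε s := le_min (le_max_right _ _) zero_le_one

lemma tr_le_one (ε s : ℝ) : tr ε s ≤ 1 := min_le_right _ _

lemma measurable_tr (ε : ℝ) : Measurable (tr ε) := by unfold tr; fun_prop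

lemma tr_eq_zero {ε s : ℝ} (h : -ε ≤ s) : tr ε s = 0 := by
  unfold tr
  rw [max_eq_right (by linarith), min_eq_left zero_le_one]

lemma lt_of_tr_pos {ε s : ℝ} (h : 0 < tr ε s) : s < -ε := by
  by_contra hc
  rw [tr_eq_zero (not_lt.mp hc)] at h
  exact lt_irrefl _ h

lemma tr_antitone (ε : ℝ) {s t : ℝ} (h : s ≤ t) : tr ε t ≤ tr ε s := by
  unfold tr
  exact min_le_min (max_le_max (by linarith) le_rfl) le_rfl

lemma tr_lip (ε : ℝ) {s t : ℝ} (h : s ≤ t) : tr ε s - tr ε t ≤ t - s := by
  unfold tr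
  have h1 : max (-s - ε) 0 ≤ max (-t - ε) 0 + (t - s) := by
    refine max_le ?_ ?_
    · have := le_max_left (-t - ε) 0; linarith
    · have := le_max_right (-t - ε) 0; linarith
  have h2 : min (max (-s - ε) 0) 1 ≤ min (max (-t - ε) 0) 1 + (t - s) := by
    rw [← min_add_add_right]
    refine le_min ((min_le_left _ _).trans h1) ((min_le_right _ _).trans (by linarith))
  linarith

lemma tr_ineq (ε s t : ℝ) : (tr ε s - tr ε t) * (s - t) ≤ -(tr ε s - tr ε t) ^ 2 := by
  rcases le_total s t with h | h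
  · have h1 := tr_antitone ε h
    have h2 := tr_lip ε h
    nlinarith
  · have h1 := tr_antitone ε h
    have h2 := tr_lip ε h
    nlinarith

/-- The basic energy inequality behind the domination principle. -/
lemma main_ineq (K : Pack q) (hq0 : 0 < q) (hq1 : q < 1) (n : ℕ) (τ₁ τ₂ : Measure E3)
    [IsFiniteMeasure τ₁] [IsFiniteMeasure τ₂] {ε : ℝ} (hε : 0 < ε) (f : E3 → ℝ)
    (hf : f = fun x => tr ε (pot q τ₁ x - pot q τ₂ x)) :
    Integrable f ∧
    Integrable (fun p : E3 × E3 => K.Q (p.1 - p.2) * (f p.1 - f p.2) ^ 2)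
      ((volume : Measure E3).prod volume) ∧
    (1 / 2 : ℝ) * ∫ p : E3 × E3, K.Q (p.1 - p.2) * (f p.1 - f p.2) ^ 2
      ∂((volume : Measure E3).prod volume) ≤ ∫ x, f x * ∫ z, K.J n (x - z) ∂τ₂ := by
  have hm1 := measurable_pot q τ₁
  have hm2 := measurable_pot q τ₂
  have hPm := K.hPm n
  have hJm := K.hJm n
  have hQm := K.hQm
  have hmn := K.hm n
  set u : E3 → ℝ := fun x => pot q τ₁ x - pot q τ₂ x with hu
  have hum : Measurable u := hm1.sub hm2
  have hfm : Measurable f := by rw [hf]; exact (measurable_tr ε).comp hum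
  have hf0 : ∀ x, 0 ≤ f x := fun x => by rw [hf]; exact tr_nonneg _ _
  have hf1 : ∀ x, f x ≤ 1 := fun x => by rw [hf]; exact tr_le_one _ _
  obtain ⟨F₁, hF₁m, hF₁i, hF₁0, hF₁⟩ := exists_split hq0 hq1 τ₁ (half_pos hε)
  obtain ⟨F₂, hF₂m, hF₂i, hF₂0, hF₂⟩ := exists_split hq0 hq1 τ₂ (half_pos hε)
  -- integrability of `f`
  have hfi : Integrable f := by
    refine Integrable.mono' (hF₂i.const_mul (2 / ε)) hfm.aestronglyMeasurable ?_
    filter_upwards [hF₂] with x hx
    rw [Real.norm_of_nonneg (hf0 x)]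
    rcases (hf0 x).eq_or_lt with h0 | h0
    · rw [← h0]; have := hF₂0 x; positivity
    · have h1 : u x < -ε := by rw [hf] at h0; exact lt_of_tr_pos h0
      have h2 : 0 ≤ pot q τ₁ x := pot_nonneg _ _ _
      have h3 : ε / 2 ≤ F₂ x := by simp only [hu] at h1; linarith
      calc f x ≤ 1 := hf1 x
        _ = 2 / ε * (ε / 2) := by field_simp
        _ ≤ 2 / ε * F₂ x := by gcongr
  have hub : ∀ᵐ x : E3, |u x| ≤ F₁ x + F₂ x + ε := by
    filter_upwards [hF₁, hF₂] with x h1 h2
    have h3 : 0 ≤ pot q τ₁ x := pot_nonneg _ _ _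
    have h4 : 0 ≤ pot q τ₂ x := pot_nonneg _ _ _
    have h5 := hF₁0 x
    have h6 := hF₂0 x
    rw [abs_le]
    constructor <;> simp only [hu] <;> linarith
  have hfui : Integrable (fun x => f x * u x) := by
    refine Integrable.mono' ((hF₁i.add hF₂i).add (hfi.const_mul ε))
      (hfm.mul hum).aestronglyMeasurable ?_
    filter_upwards [hub] with x hx
    rw [norm_mul, Real.norm_of_nonneg (hf0 x), Real.norm_eq_abs]
    have h1 := hf0 x
    have h2 := hf1 x
    have h5 := hF₁0 x
    have h6 := hF₂0 x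
    simp only [Pi.add_apply]
    nlinarith [mul_le_mul_of_nonneg_left hx h1]
  -- product integrability
  have hPi := K.hPi n
  have sw : ∀ {g : E3 → ℝ}, Integrable g →
      Integrable (fun p : E3 × E3 => K.P n (p.1 - p.2) * g p.1)
        ((volume : Measure E3).prod volume) := by
    intro g hg
    have := (integrable_prod_kernel hPi volume hg).swap
    refine this.congr (Eventually.of_forall fun p => ?_)
    simp only [Function.comp, Prod.fst_swap, Prod.snd_swap]
    rw [← neg_sub p.1 p.2, K.hPs]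
  have i11 : Integrable (fun p : E3 × E3 => K.P n (p.1 - p.2) * (f p.1 * u p.1))
      ((volume : Measure E3).prod volume) := sw hfui
  have i22 : Integrable (fun p : E3 × E3 => K.P n (p.1 - p.2) * (f p.2 * u p.2))
      ((volume : Measure E3).prod volume) := integrable_prod_kernel hPi volume hfui
  have i12 : Integrable (fun p : E3 × E3 => K.P n (p.1 - p.2) * (f p.1 * u p.2))
      ((volume : Measure E3).prod volume) := by
    refine Integrable.mono' ((integrable_prod_kernel hPi volume (hF₁i.add hF₂i)).add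
      ((sw hfi).const_mul ε)) ?_ ?_
    · exact Measurable.aestronglyMeasurable (by fun_prop)
    · have : ∀ᵐ p : E3 × E3 ∂((volume : Measure E3).prod volume),
          |u p.2| ≤ F₁ p.2 + F₂ p.2 + ε := Measure.quasiMeasurePreserving_snd.ae hub
      filter_upwards [this] with p hp
      rw [norm_mul, norm_mul, Real.norm_of_nonneg (hf0 _), Real.norm_of_nonneg (K.hP0 n _),
        Real.norm_eq_abs]
      simp only [Pi.add_apply]
      have h0 := K.hP0 n (p.1 - p.2)
      have h1 := hf0 p.1
      have h2 := hf1 p.1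
      have h5 := hF₁0 p.2
      have h6 := hF₂0 p.2
      have : f p.1 * |u p.2| ≤ (F₁ p.2 + F₂ p.2) + ε * f p.1 := by
        nlinarith [mul_le_mul_of_nonneg_left hp h1]
      calc K.P n (p.1 - p.2) * (f p.1 * |u p.2|)
          ≤ K.P n (p.1 - p.2) * ((F₁ p.2 + F₂ p.2) + ε * f p.1) := by gcongr
        _ = _ := by ring
  have i21 : Integrable (fun p : E3 × E3 => K.P n (p.1 - p.2) * (f p.2 * u p.1))
      ((volume : Measure E3).prod volume) := by
    refine i12.swap.congr (Eventually.of_forall fun p => ?_)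
    simp only [Function.comp, Prod.fst_swap, Prod.snd_swap]
    rw [← neg_sub p.1 p.2, K.hPs]
  have hP1 := K.hP1 n
  have hPx : ∀ x : E3, ∫ y, K.P n (x - y) = 1 := by
    intro x
    have h := integral_sub_left_eq_self (fun y => K.P n y) volume x
    rw [h, hP1]
  -- the four integrals
  have S11 : ∫ p : E3 × E3, K.P n (p.1 - p.2) * (f p.1 * u p.1)
      ∂((volume : Measure E3).prod volume) = ∫ x, f x * u x := by
    rw [integral_prod _ i11]
    refine integral_congr_ae (Eventually.of_forall fun x => ?_)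
    simp only
    rw [integral_mul_const, hPx, one_mul]
  have S12 : ∫ p : E3 × E3, K.P n (p.1 - p.2) * (f p.1 * u p.2)
      ∂((volume : Measure E3).prod volume) = ∫ x, f x * ∫ y, K.P n (x - y) * u y := by
    rw [integral_prod _ i12]
    refine integral_congr_ae (Eventually.of_forall fun x => ?_)
    simp only
    rw [← integral_const_mul]
    refine integral_congr_ae (Eventually.of_forall fun y => ?_)
    simp only; ring
  have S22 : ∫ p : E3 × E3, K.P n (p.1 - p.2) * (f p.2 * u p.2)
      ∂((volume : Measure E3).prod volume) = ∫ x, f x * u x := by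
    rw [← S11, ← integral_prod_swap]
    refine integral_congr_ae (Eventually.of_forall fun p => ?_)
    simp only [Prod.fst_swap, Prod.snd_swap]
    rw [← neg_sub p.1 p.2, K.hPs]
  have S21 : ∫ p : E3 × E3, K.P n (p.1 - p.2) * (f p.2 * u p.1)
      ∂((volume : Measure E3).prod volume) = ∫ x, f x * ∫ y, K.P n (x - y) * u y := by
    rw [← S12, ← integral_prod_swap]
    refine integral_congr_ae (Eventually.of_forall fun p => ?_)
    simp only [Prod.fst_swap, Prod.snd_swap]
    rw [← neg_sub p.1 p.2, K.hPs]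
  have iPu : Integrable (fun x => f x * ∫ y, K.P n (x - y) * u y) := by
    refine i12.integral_prod_left.congr (Eventually.of_forall fun x => ?_)
    simp only
    rw [← integral_const_mul]
    refine integral_congr_ae (Eventually.of_forall fun y => ?_)
    simp only; ring
  have iJ : Integrable (fun x => ∫ z, K.J n (x - z) ∂τ₂) := by
    have h := (integrable_prod_kernel (K.hJi n) τ₂ (integrable_const (1 : ℝ))).integral_prod_left
    simpa using h
  have ifJ : Integrable (fun x => f x * ∫ z, K.J n (x - z) ∂τ₂) := by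
    refine Integrable.mono' iJ.norm (hfm.aestronglyMeasurable.mul iJ.aestronglyMeasurable) ?_
    refine Eventually.of_forall fun x => ?_
    rw [norm_mul, Real.norm_of_nonneg (hf0 x)]
    calc f x * ‖∫ z, K.J n (x - z) ∂τ₂‖ ≤ 1 * ‖∫ z, K.J n (x - z) ∂τ₂‖ := by
          gcongr; exact hf1 x
      _ = _ := one_mul _
  -- the defect of `u`
  have hdef : -(K.m n * ∫ x, f x * ∫ z, K.J n (x - z) ∂τ₂) ≤
      (∫ x, f x * u x) - ∫ x, f x * ∫ y, K.P n (x - y) * u y := by
    rw [← integral_sub hfui iPu, ← integral_const_mul, ← integral_neg]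
    refine integral_mono_ae (ifJ.const_mul _).neg (hfui.sub iPu) ?_
    filter_upwards [pack_identity K hq0 hq1 n τ₁, pack_identity K hq0 hq1 n τ₂]
      with x ⟨ha1, hb1, hc1⟩ ⟨ha2, hb2, hc2⟩
    have e1 : ∫ y, K.P n (x - y) * u y =
        (∫ y, K.P n (x - y) * pot q τ₁ y) - ∫ y, K.P n (x - y) * pot q τ₂ y := by
      rw [← integral_sub ha1 ha2]
      refine integral_congr_ae (Eventually.of_forall fun y => ?_)
      simp only [hu]; ring
    have e2 : u x - ∫ y, K.P n (x - y) * u y =
        K.m n * (∫ z, K.J n (x - z) ∂τ₁) - K.m n * ∫ z, K.J n (x - z) ∂τ₂ := by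
      rw [e1]; simp only [hu]; linarith
    have e3 : 0 ≤ ∫ z, K.J n (x - z) ∂τ₁ := integral_nonneg fun z => K.hJ0 n _
    have e4 : f x * u x - f x * ∫ y, K.P n (x - y) * u y =
        f x * (K.m n * (∫ z, K.J n (x - z) ∂τ₁)) - K.m n * (f x * ∫ z, K.J n (x - z) ∂τ₂) := by
      rw [← mul_sub, e2]; ring
    have e5 : 0 ≤ f x * (K.m n * (∫ z, K.J n (x - z) ∂τ₁)) :=
      mul_nonneg (hf0 x) (mul_nonneg hmn.le e3)
    linarith
  -- integrability of the `Q` term
  have iQ : Integrable (fun p : E3 × E3 => K.Q (p.1 - p.2) * (f p.1 - f p.2) ^ 2)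
      ((volume : Measure E3).prod volume) := by
    refine Integrable.mono' (((sw hfi).add (integrable_prod_kernel hPi volume hfi)).const_mul
      (K.m n)⁻¹) (Measurable.aestronglyMeasurable (by fun_prop)) ?_
    refine Eventually.of_forall fun p => ?_
    have h0 := (K.hQ0 (p.1 - p.2)).le
    have h1 := K.hQP n (p.1 - p.2)
    have h2 : K.Q (p.1 - p.2) ≤ (K.m n)⁻¹ * K.P n (p.1 - p.2) := by
      rw [le_inv_mul_iff₀ hmn]; exact h1
    have h3 : (f p.1 - f p.2) ^ 2 ≤ f p.1 + f p.2 := by
      have a1 := hf0 p.1; have a2 := hf0 p.2; have b1 := hf1 p.1; have b2 := hf1 p.2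
      nlinarith
    rw [Real.norm_of_nonneg (by positivity)]
    simp only [Pi.add_apply]
    calc K.Q (p.1 - p.2) * (f p.1 - f p.2) ^ 2
        ≤ ((K.m n)⁻¹ * K.P n (p.1 - p.2)) * (f p.1 + f p.2) := by
          have a1 := hf0 p.1
          have a2 := hf0 p.2
          have a3 := K.hP0 n (p.1 - p.2)
          have a4 : 0 ≤ (K.m n)⁻¹ * K.P n (p.1 - p.2) := by positivity
          exact mul_le_mul h2 h3 (by positivity) a4
      _ = _ := by ring
  refine ⟨hfi, iQ, ?_⟩
  have big : K.m n * ∫ p : E3 × E3, K.Q (p.1 - p.2) * (f p.1 - f p.2) ^ 2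
      ∂((volume : Measure E3).prod volume) ≤
      -(2 * ((∫ x, f x * u x) - ∫ x, f x * ∫ y, K.P n (x - y) * u y)) := by
    have hS : ∫ p : E3 × E3, (K.P n (p.1 - p.2) * (f p.1 * u p.1)
        - K.P n (p.1 - p.2) * (f p.1 * u p.2) - K.P n (p.1 - p.2) * (f p.2 * u p.1)
        + K.P n (p.1 - p.2) * (f p.2 * u p.2)) ∂((volume : Measure E3).prod volume)
        = 2 * ((∫ x, f x * u x) - ∫ x, f x * ∫ y, K.P n (x - y) * u y) := by
      have e1 : ∫ p : E3 × E3, (K.P n (p.1 - p.2) * (f p.1 * u p.1)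
          - K.P n (p.1 - p.2) * (f p.1 * u p.2)) ∂((volume : Measure E3).prod volume)
          = (∫ x, f x * u x) - ∫ x, f x * ∫ y, K.P n (x - y) * u y := by
        rw [integral_sub i11 i12, S11, S12]
      have e2 : ∫ p : E3 × E3, (K.P n (p.1 - p.2) * (f p.1 * u p.1)
          - K.P n (p.1 - p.2) * (f p.1 * u p.2) - K.P n (p.1 - p.2) * (f p.2 * u p.1))
            ∂((volume : Measure E3).prod volume)
          = (∫ x, f x * u x) - (∫ x, f x * ∫ y, K.P n (x - y) * u y)
            - ∫ x, f x * ∫ y, K.P n (x - y) * u y := by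
        rw [← e1, ← S21]
        exact integral_sub (i11.sub i12) i21
      refine (integral_add ((i11.sub i12).sub i21) i22).trans ?_
      rw [S22]
      have e3 : ∫ p : E3 × E3, ((((fun p : E3 × E3 => K.P n (p.1 - p.2) * (f p.1 * u p.1))
          - fun p : E3 × E3 => K.P n (p.1 - p.2) * (f p.1 * u p.2))
          - fun p : E3 × E3 => K.P n (p.1 - p.2) * (f p.2 * u p.1)) p)
            ∂((volume : Measure E3).prod volume)
          = (∫ x, f x * u x) - (∫ x, f x * ∫ y, K.P n (x - y) * u y)
            - ∫ x, f x * ∫ y, K.P n (x - y) * u y := e2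
      rw [e3]
      ring
    rw [← hS, ← integral_const_mul, ← integral_neg]
    refine integral_mono_ae (iQ.const_mul _) (((i11.sub i12).sub i21).add i22).neg ?_
    refine Eventually.of_forall fun p => ?_
    have h1 := K.hQP n (p.1 - p.2)
    have h2 := K.hP0 n (p.1 - p.2)
    have h3 : (f p.1 - f p.2) * (u p.1 - u p.2) ≤ -(f p.1 - f p.2) ^ 2 := by
      rw [hf]; exact tr_ineq ε _ _
    have h4 : K.m n * (K.Q (p.1 - p.2) * (f p.1 - f p.2) ^ 2) ≤
        K.P n (p.1 - p.2) * (f p.1 - f p.2) ^ 2 := by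
      rw [← mul_assoc]; gcongr
    have h5 := mul_le_mul_of_nonneg_left h3 h2
    calc K.m n * (K.Q (p.1 - p.2) * (f p.1 - f p.2) ^ 2)
        ≤ K.P n (p.1 - p.2) * (f p.1 - f p.2) ^ 2 := h4
      _ ≤ -(K.P n (p.1 - p.2) * ((f p.1 - f p.2) * (u p.1 - u p.2))) := by linarith
      _ = _ := by ring
  have h6 : K.m n * ∫ p : E3 × E3, K.Q (p.1 - p.2) * (f p.1 - f p.2) ^ 2
      ∂((volume : Measure E3).prod volume) ≤
      K.m n * (2 * ∫ x, f x * ∫ z, K.J n (x - z) ∂τ₂) := by linarith
  have h7 := le_of_mul_le_mul_left h6 hmn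
  linarith

/-- `⟨J_n * τ, f⟩ → 0` if `f` is bounded and vanishes `τ`-a.e. -/
lemma tendsto_pair (K : Pack q) (τ : Measure E3) [IsFiniteMeasure τ] (hac : τ ≪ volume)
    {f : E3 → ℝ} (hfm : Measurable f) (hf0 : ∀ x, 0 ≤ f x) (hf1 : ∀ x, f x ≤ 1)
    (_hfi : Integrable f) (hfτ : ∀ᵐ x ∂τ, f x = 0) :
    Tendsto (fun n => ∫ x, f x * ∫ z, K.J n (x - z) ∂τ) atTop (𝓝 0) := by
  set t : E3 → ℝ := fun x => (τ.rnDeriv volume x).toReal with ht
  have htm : Measurable t := (Measure.measurable_rnDeriv τ volume).ennreal_toReal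
  have hti : Integrable t := Measure.integrable_toReal_rnDeriv
  have hconv : ∀ φ : E3 → ℝ, ∫ z, φ z ∂τ = ∫ z, t z * φ z := fun φ => by
    have := integral_rnDeriv_smul (f := φ) hac
    simpa [ht, smul_eq_mul] using this.symm
  -- `∫ f t = 0`
  have hft : ∫ x, t x * f x = 0 := by
    rw [← hconv f, integral_congr_ae hfτ]; simp
  set ω : E3 → ℝ := fun v => ∫ x, |t (x - v) - t x| with hω
  have hωm : Measurable ω := by
    have hm : StronglyMeasurable (Function.uncurry fun (v x : E3) => |t (x - v) - t x|) := by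
      refine Measurable.stronglyMeasurable ?_
      have : Measurable fun p : E3 × E3 => |t (p.2 - p.1) - t p.2| := by fun_prop
      exact this
    exact (StronglyMeasurable.integral_prod_right hm).measurable
  have hωb : ∃ B, ∀ z, |ω z| ≤ B := by
    refine ⟨2 * ∫ x, |t x|, fun v => ?_⟩
    have h1 : Integrable (fun x => t (x - v)) := hti.comp_sub_right v
    have h0 : 0 ≤ ω v := integral_nonneg fun x => abs_nonneg _
    rw [abs_of_nonneg h0]
    calc ω v ≤ ∫ x, (|t (x - v)| + |t x|) := by
          refine integral_mono (h1.sub hti).abs (h1.abs.add hti.abs) fun x => ?_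
          exact abs_sub _ _
      _ = (∫ x, |t (x - v)|) + ∫ x, |t x| := integral_add h1.abs hti.abs
      _ = 2 * ∫ x, |t x| := by
          rw [integral_sub_right_eq_self (fun x => |t x|) v]; ring
  have hωt : Tendsto ω (𝓝 0) (𝓝 0) := by
    have h := (tendsto_translation hti).comp
      (continuous_neg.tendsto' (0 : E3) 0 (by simp))
    refine h.congr fun v => ?_
    simp only [Function.comp, hω, sub_eq_add_neg]
  have hlim := K.hJδ ω hωm hωb hωt
  -- the estimate
  have hest : ∀ n, (∫ x, f x * ∫ z, K.J n (x - z) ∂τ) ≤ ∫ v, K.J n v * ω v := by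
    intro n
    have hJi := K.hJi n
    have hJm := K.hJm n
    have iA : Integrable (fun p : E3 × E3 => K.J n p.2 * t (p.1 - p.2))
        ((volume : Measure E3).prod volume) := by
      have := Integrable.convolution_integrand (μ := (volume : Measure E3))
        (ν := (volume : Measure E3)) (ContinuousLinearMap.mul ℝ ℝ) hJi hti
      simpa using this
    have iB : Integrable (fun p : E3 × E3 => K.J n p.2 * t p.1)
        ((volume : Measure E3).prod volume) := by
      have := hti.mul_prod hJi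
      refine this.congr (Eventually.of_forall fun p => ?_)
      simp only; ring
    have iD : Integrable (fun p : E3 × E3 => K.J n p.2 * |t (p.1 - p.2) - t p.1|)
        ((volume : Measure E3).prod volume) := by
      refine (iA.sub iB).norm.congr (Eventually.of_forall fun p => ?_)
      simp only [Pi.sub_apply]
      rw [← mul_sub, norm_mul, Real.norm_of_nonneg (K.hJ0 n _), Real.norm_eq_abs]
    have e1 : ∀ x, ∫ z, K.J n (x - z) ∂τ = ∫ v, K.J n v * t (x - v) := by
      intro x
      rw [hconv, ← integral_sub_left_eq_self (fun v => K.J n v * t (x - v)) volume x]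
      refine integral_congr_ae (Eventually.of_forall fun z => ?_)
      simp only [sub_sub_cancel]; ring
    have e2 : ∀ x, ∫ v, K.J n v * t x = t x := by
      intro x; rw [integral_mul_const, K.hJ1, one_mul]
    have i3 : Integrable (fun x => f x * ∫ v, K.J n v * t (x - v)) := by
      refine Integrable.mono' iA.integral_prod_left.norm
        (hfm.aestronglyMeasurable.mul iA.integral_prod_left.aestronglyMeasurable) ?_
      refine Eventually.of_forall fun x => ?_
      rw [norm_mul, Real.norm_of_nonneg (hf0 x)]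
      calc f x * ‖∫ v, K.J n v * t (x - v)‖ ≤ 1 * ‖∫ v, K.J n v * t (x - v)‖ := by
            gcongr; exact hf1 x
        _ = _ := one_mul _
    have i4 : Integrable (fun x => f x * t x) := by
      refine Integrable.mono' hti.norm (hfm.mul htm).aestronglyMeasurable ?_
      refine Eventually.of_forall fun x => ?_
      rw [norm_mul, Real.norm_of_nonneg (hf0 x)]
      calc f x * ‖t x‖ ≤ 1 * ‖t x‖ := by gcongr; exact hf1 x
        _ = _ := one_mul _
    calc (∫ x, f x * ∫ z, K.J n (x - z) ∂τ)
        = (∫ x, f x * ∫ v, K.J n v * t (x - v)) - ∫ x, f x * t x := by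
          simp_rw [e1]
          rw [show ∫ x, f x * t x = 0 by rw [← hft]; congr 1; ext x; ring, sub_zero]
      _ = ∫ x, (f x * (∫ v, K.J n v * t (x - v)) - f x * t x) := (integral_sub i3 i4).symm
      _ ≤ ∫ x, ∫ v, K.J n v * |t (x - v) - t x| := by
          refine integral_mono_ae (i3.sub i4) iD.integral_prod_left ?_
          filter_upwards [iA.prod_right_ae, iB.prod_right_ae, iD.prod_right_ae] with x a1 a2 a3
          have e3 : (∫ v, K.J n v * t (x - v)) - t x = ∫ v, K.J n v * (t (x - v) - t x) := by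
            rw [← e2 x]
            rw [← integral_sub a1 a2]
            simp_rw [e2 x]
            refine integral_congr_ae (Eventually.of_forall fun v => ?_)
            simp only; ring
          have e4 : |∫ v, K.J n v * (t (x - v) - t x)| ≤ ∫ v, K.J n v * |t (x - v) - t x| := by
            refine (abs_integral_le_integral_abs).trans (le_of_eq ?_)
            refine integral_congr_ae (Eventually.of_forall fun v => ?_)
            simp only
            rw [abs_mul, abs_of_nonneg (K.hJ0 n v)]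
          calc f x * (∫ v, K.J n v * t (x - v)) - f x * t x
              = f x * ∫ v, K.J n v * (t (x - v) - t x) := by rw [← e3]; ring
            _ ≤ f x * ∫ v, K.J n v * |t (x - v) - t x| :=
                mul_le_mul_of_nonneg_left ((le_abs_self _).trans e4) (hf0 x)
            _ ≤ 1 * ∫ v, K.J n v * |t (x - v) - t x| :=
                mul_le_mul_of_nonneg_right (hf1 x)
                  (integral_nonneg fun v => mul_nonneg (K.hJ0 n v) (abs_nonneg _))
            _ = _ := one_mul _
      _ = ∫ v, ∫ x, K.J n v * |t (x - v) - t x| := integral_integral_swap iD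
      _ = ∫ v, K.J n v * ω v := by
          refine integral_congr_ae (Eventually.of_forall fun v => ?_)
          simp only
          rw [integral_const_mul]
  refine tendsto_of_tendsto_of_tendsto_of_le_of_le tendsto_const_nhds hlim (fun n => ?_) hest
  exact integral_nonneg fun x => mul_nonneg (hf0 x) (integral_nonneg fun z => K.hJ0 n _)

/-- Domination principle for the Riesz kernel. -/
theorem domination {q : ℝ} (hq0 : 0 < q) (hq1 : q < 1) (τ₁ τ₂ : Measure E3)
    [IsFiniteMeasure τ₁] [IsFiniteMeasure τ₂] (hac : τ₂ ≪ volume)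
    (h : ∀ᵐ x ∂τ₂, pot q τ₂ x ≤ pot q τ₁ x) :
    ∀ᵐ x : E3, pot q τ₂ x ≤ pot q τ₁ x := by
  obtain ⟨K⟩ := nonempty_pack hq0 hq1
  have hm1 := measurable_pot q τ₁
  have hm2 := measurable_pot q τ₂
  have key : ∀ ε : ℝ, 0 < ε → ∀ᵐ x : E3, pot q τ₂ x ≤ pot q τ₁ x + ε := by
    intro ε hε
    set f : E3 → ℝ := fun x => tr ε (pot q τ₁ x - pot q τ₂ x) with hf
    have hfm : Measurable f := (measurable_tr ε).comp (hm1.sub hm2)
    have hf0 : ∀ x, 0 ≤ f x := fun x => tr_nonneg _ _
    have hf1 : ∀ x, f x ≤ 1 := fun x => tr_le_one _ _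
    have hfτ : ∀ᵐ x ∂τ₂, f x = 0 := h.mono fun x hx => tr_eq_zero (by linarith)
    obtain ⟨hfi, iQ, -⟩ := main_ineq K hq0 hq1 0 τ₁ τ₂ hε f hf
    have hlim := tendsto_pair K τ₂ hac hfm hf0 hf1 hfi hfτ
    have hle : ∀ n, (1 / 2 : ℝ) * ∫ p : E3 × E3, K.Q (p.1 - p.2) * (f p.1 - f p.2) ^ 2
        ∂((volume : Measure E3).prod volume) ≤ ∫ x, f x * ∫ z, K.J n (x - z) ∂τ₂ :=
      fun n => (main_ineq K hq0 hq1 n τ₁ τ₂ hε f hf).2.2
    have h0 : (1 / 2 : ℝ) * ∫ p : E3 × E3, K.Q (p.1 - p.2) * (f p.1 - f p.2) ^ 2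
        ∂((volume : Measure E3).prod volume) ≤ 0 := ge_of_tendsto' hlim hle
    have hnn : ∀ p : E3 × E3, 0 ≤ K.Q (p.1 - p.2) * (f p.1 - f p.2) ^ 2 := fun p =>
      mul_nonneg (K.hQ0 _).le (sq_nonneg _)
    have h1 : ∫ p : E3 × E3, K.Q (p.1 - p.2) * (f p.1 - f p.2) ^ 2
        ∂((volume : Measure E3).prod volume) = 0 := by
      have h11 : 0 ≤ ∫ p : E3 × E3, K.Q (p.1 - p.2) * (f p.1 - f p.2) ^ 2
        ∂((volume : Measure E3).prod volume) := integral_nonneg fun p => hnn p
      linarith
    rw [integral_eq_zero_iff_of_nonneg (fun p => hnn p) iQ] at h1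
    have h2 : ∀ᵐ p : E3 × E3 ∂((volume : Measure E3).prod volume), f p.1 = f p.2 := by
      filter_upwards [h1] with p hp
      simp only [Pi.zero_apply] at hp
      rcases mul_eq_zero.mp hp with h3 | h3
      · exact absurd h3 (K.hQ0 _).ne'
      · exact sub_eq_zero.mp (pow_eq_zero_iff (two_ne_zero) |>.mp h3)
    have h3 := Measure.ae_ae_of_ae_prod h2
    obtain ⟨x₀, hx₀⟩ := h3.exists
    have h4 : Integrable (fun _ : E3 => f x₀) :=
      hfi.congr (hx₀.mono fun y hy => hy.symm)
    have h5 : f x₀ = 0 := by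
      rcases integrable_const_iff.mp h4 with h6 | h6
      · exact h6
      · exfalso
        have := h6
        have h7 : (volume : Measure E3) univ < ∞ := measure_lt_top _ _
        simp at h7
    filter_upwards [hx₀] with y hy
    by_contra hc
    have h8 : pot q τ₁ y - pot q τ₂ y < -ε := by linarith
    have h9 : 0 < f y := by
      simp only [hf, tr]
      refine lt_min (lt_max_of_lt_left (by linarith)) one_pos
    rw [← hy, h5] at h9
    exact lt_irrefl _ h9
  have key2 : ∀ᵐ x : E3, ∀ n : ℕ, pot q τ₂ x ≤ pot q τ₁ x + 1 / ((n : ℝ) + 1) :=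
    ae_all_iff.mpr fun n => key _ (by positivity)
  filter_upwards [key2] with x hx
  have hl : Tendsto (fun n : ℕ => pot q τ₁ x + 1 / ((n : ℝ) + 1)) atTop
      (𝓝 (pot q τ₁ x + 0)) := tendsto_const_nhds.add tendsto_one_div_add_atTop_nhds_zero_nat
  rw [add_zero] at hl
  exact ge_of_tendsto' hl hx

end Pool.Agent.LagRig
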