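import Pool.Agent.LagRig.Trans
import Pool.Agent.LagRig.Basic

open MeasureTheory Set Filter Topology
open scoped Real ENNReal

noncomputable section

namespace Pool.Agent.LagRig

namespace GradAux

/-- `L¹` modulus in `ENNReal` form. -/
lemma lintegral_translation {f : E3 → ℝ} (hf : Integrable f) {ε : ℝ} (hε : 0 < ε) :
    ∃ r : ℝ, 0 < r ∧ ∀ h : E3, ‖h‖ < r →
      ∫⁻ x, ‖f (x + h) - f x‖ₑ ≤ ENNReal.ofReal ε := by
  have h1 := tendsto_translation hf
  rw [Metric.tendsto_nhds_nhds] at h1
  obtain ⟨r, hr, h2⟩ := h1 ε hε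
  refine ⟨r, hr, fun h hh => ?_⟩
  have h3 := h2 (x := h) (by simpa using hh)
  have hint : Integrable (fun x => f (x + h) - f x) := (hf.comp_add_right h).sub hf
  have h4 : ∫⁻ x, ‖f (x + h) - f x‖ₑ = ENNReal.ofReal (∫ x, |f (x + h) - f x|) := by
    rw [ofReal_integral_eq_lintegral_ofReal hint.abs (Eventually.of_forall fun x => abs_nonneg _)]
    refine lintegral_congr fun x => ?_
    rw [← ofReal_norm, Real.norm_eq_abs]
  rw [h4]
  refine ENNReal.ofReal_le_ofReal ?_
  rw [Real.dist_0_eq_abs] at h3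
  exact ((le_abs_self _).trans_lt h3).le

lemma stamp {G W : E3 → ℝ} (hWm : Measurable W)
    (hWloc : ∀ R : ℝ, IntegrableOn W (Metric.ball (0 : E3) R)) {e : E3} (he : ‖e‖ ≤ 1)
    (h : ∀ t : ℝ, 0 < t → ∀ᵐ x : E3, IntervalIntegrable (fun s => W (x + s • e)) volume 0 t ∧
      G (x + t • e) - G x = ∫ s in (0)..t, W (x + s • e))
    {A : Set E3} (hA : MeasurableSet A) (hG : ∀ᵐ x ∂(volume.restrict A), G x = 0) :
    ∀ᵐ x ∂(volume.restrict A), W x = 0 := by
  have key : ∀ n : ℕ, ∀ᵐ x ∂(volume.restrict (A ∩ Metric.ball (0 : E3) n)), W x = 0 := by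
    intro n
    set S : Set E3 := A ∩ Metric.ball (0 : E3) n with hS
    have hSm : MeasurableSet S := hA.inter measurableSet_ball
    set F : E3 → ℝ := (Metric.ball (0 : E3) (n + 1)).indicator W with hF
    have hFm : Measurable F := hWm.indicator measurableSet_ball
    have hFi : Integrable F := (integrable_indicator_iff measurableSet_ball).2 (hWloc _)
    set K : E3 → ℝ := A.indicator F with hK
    have hKi : Integrable K := hFi.indicator hA
    have hbound : ∀ ε : ℝ, 0 < ε → ∫⁻ x in S, ‖W x‖ₑ ≤ ENNReal.ofReal (2 * ε) := by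
      intro ε hε
      obtain ⟨r1, hr1, h1⟩ := lintegral_translation hFi hε
      obtain ⟨r2, hr2, h2⟩ := lintegral_translation hKi hε
      set t : ℝ := min 1 (min r1 r2 / 2) with ht
      have hr : 0 < min r1 r2 := lt_min hr1 hr2
      have ht0 : 0 < t := lt_min one_pos (by positivity)
      have ht1 : t ≤ 1 := min_le_left _ _
      have htr : t < min r1 r2 := (min_le_right _ _).trans_lt (by linarith)
      have hsmall : ∀ s : ℝ, 0 ≤ s → s ≤ t → ‖s • e‖ ≤ t := by
        intro s hs0 hs
        rw [norm_smul, Real.norm_eq_abs, abs_of_nonneg hs0]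
        nlinarith [norm_nonneg e]
      -- pointwise inequality
      have hG1 : ∀ᵐ x : E3, x ∈ A → G x = 0 := (ae_restrict_iff' hA).1 hG
      have hG2 : ∀ᵐ x : E3, x + t • e ∈ A → G (x + t • e) = 0 :=
        (measurePreserving_add_right (volume : Measure E3) (t • e)).quasiMeasurePreserving.ae hG1
      have hpt : ∀ᵐ x ∂(volume.restrict S), ‖W x‖ₑ ≤ ‖K (x + t • e) - K x‖ₑ
          + (ENNReal.ofReal t)⁻¹ * ∫⁻ s in Ioc (0 : ℝ) t, ‖F (x + s • e) - F x‖ₑ := by
        filter_upwards [ae_restrict_mem hSm, ae_restrict_of_ae (h t ht0), ae_restrict_of_ae hG1,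
          ae_restrict_of_ae hG2] with x hxS hx hx1 hx2
        obtain ⟨hxi, hxe⟩ := hx
        have hxA : x ∈ A := hxS.1
        have hxn : ‖x‖ < n := by simpa using hxS.2
        have hball : ∀ s : ℝ, 0 ≤ s → s ≤ t → F (x + s • e) = W (x + s • e) := by
          intro s hs0 hs
          refine indicator_of_mem ?_ W
          rw [mem_ball_zero_iff]
          calc ‖x + s • e‖ ≤ ‖x‖ + ‖s • e‖ := norm_add_le _ _
            _ < n + 1 := by linarith [hsmall s hs0 hs]
        have hFx : F x = W x := by simpa using hball 0 le_rfl ht0.le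
        by_cases hxt : x + t • e ∈ A
        · refine le_add_left ?_
          rw [hx1 hxA, hx2 hxt, sub_zero] at hxe
          have h5 : ∫ s in (0 : ℝ)..t, (F (x + s • e) - F x) = -(t * W x) := by
            have h6 : ∫ s in (0 : ℝ)..t, (F (x + s • e) - F x)
                = ∫ s in (0 : ℝ)..t, (W (x + s • e) - W x) := by
              refine intervalIntegral.integral_congr fun s hs => ?_
              rw [uIcc_of_le ht0.le] at hs
              rw [hball s hs.1 hs.2, hFx]
            rw [h6, intervalIntegral.integral_sub hxi intervalIntegrable_const, ← hxe]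
            simp
          have h7 : ‖-(t * W x)‖ₑ ≤ ∫⁻ s in Ioc (0 : ℝ) t, ‖F (x + s • e) - F x‖ₑ := by
            rw [← h5, intervalIntegral.integral_of_le ht0.le]
            exact enorm_integral_le_lintegral_enorm _
          rw [enorm_neg, enorm_mul, Real.enorm_of_nonneg ht0.le] at h7
          calc ‖W x‖ₑ = (ENNReal.ofReal t)⁻¹ * (ENNReal.ofReal t * ‖W x‖ₑ) := by
                rw [← mul_assoc, ENNReal.inv_mul_cancel (by simpa using ht0) ENNReal.ofReal_ne_top,
                  one_mul]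
            _ ≤ _ := by gcongr
        · refine le_add_right ?_
          have h8 : K (x + t • e) = 0 := indicator_of_notMem hxt F
          have h9 : K x = W x := by
            rw [hK, indicator_of_mem hxA, hFx]
          rw [h8, h9, zero_sub, enorm_neg]
      have hm2 : Measurable (fun p : E3 × ℝ => ‖F (p.1 + p.2 • e) - F p.1‖ₑ) := by
        have ha : Measurable (fun p : E3 × ℝ => F (p.1 + p.2 • e)) :=
          hFm.comp (by fun_prop)
        exact (ha.sub (hFm.comp measurable_fst)).enorm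
      calc ∫⁻ x in S, ‖W x‖ₑ
          ≤ ∫⁻ x in S, (‖K (x + t • e) - K x‖ₑ
            + (ENNReal.ofReal t)⁻¹ * ∫⁻ s in Ioc (0 : ℝ) t, ‖F (x + s • e) - F x‖ₑ) :=
            lintegral_mono_ae hpt
        _ ≤ ∫⁻ x, (‖K (x + t • e) - K x‖ₑ
            + (ENNReal.ofReal t)⁻¹ * ∫⁻ s in Ioc (0 : ℝ) t, ‖F (x + s • e) - F x‖ₑ) :=
            setLIntegral_le_lintegral _ _
        _ = (∫⁻ x, ‖K (x + t • e) - K x‖ₑ) + (ENNReal.ofReal t)⁻¹ *
            ∫⁻ x, ∫⁻ s in Ioc (0 : ℝ) t, ‖F (x + s • e) - F x‖ₑ := by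
            rw [lintegral_add_right, lintegral_const_mul]
            · exact hm2.lintegral_prod_right'
            · exact hm2.lintegral_prod_right'.const_mul _
        _ = (∫⁻ x, ‖K (x + t • e) - K x‖ₑ) + (ENNReal.ofReal t)⁻¹ *
            ∫⁻ s in Ioc (0 : ℝ) t, ∫⁻ x, ‖F (x + s • e) - F x‖ₑ := by
            rw [lintegral_lintegral_swap hm2.aemeasurable]
        _ ≤ ENNReal.ofReal ε + (ENNReal.ofReal t)⁻¹ *
            ∫⁻ s in Ioc (0 : ℝ) t, ENNReal.ofReal ε := by
            refine add_le_add ?_ ?_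
            · refine h2 _ ((hsmall t ht0.le le_rfl).trans_lt (htr.trans_le (min_le_right _ _)))
            · gcongr 1
              refine setLIntegral_mono' measurableSet_Ioc fun s hs => ?_
              exact h1 _ ((hsmall s hs.1.le hs.2).trans_lt (htr.trans_le (min_le_left _ _)))
        _ = ENNReal.ofReal (2 * ε) := by
            rw [setLIntegral_const, Real.volume_Ioc, sub_zero, mul_comm (ENNReal.ofReal ε),
              ← mul_assoc, ENNReal.inv_mul_cancel (by simpa using ht0) ENNReal.ofReal_ne_top,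
              one_mul, ← ENNReal.ofReal_add hε.le hε.le, two_mul]
    have hzero : ∫⁻ x in S, ‖W x‖ₑ = 0 := by
      have htop : ∫⁻ x in S, ‖W x‖ₑ ≠ ⊤ := ne_top_of_le_ne_top ENNReal.ofReal_ne_top
        (hbound 1 one_pos)
      have h3 : (∫⁻ x in S, ‖W x‖ₑ).toReal ≤ 0 := by
        refine le_of_forall_pos_le_add fun ε hε => ?_
        have h4 := ENNReal.toReal_mono ENNReal.ofReal_ne_top (hbound (ε / 2) (by positivity))
        rw [ENNReal.toReal_ofReal (by positivity)] at h4
        linarith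
      have h5 : (∫⁻ x in S, ‖W x‖ₑ).toReal = 0 := le_antisymm h3 ENNReal.toReal_nonneg
      rcases (ENNReal.toReal_eq_zero_iff _).1 h5 with h6 | h6
      · exact h6
      · exact absurd h6 htop
    rw [lintegral_eq_zero_iff hWm.enorm] at hzero
    filter_upwards [hzero] with x hx
    simpa using hx
  have hU : A = ⋃ n : ℕ, A ∩ Metric.ball (0 : E3) n := by
    rw [← inter_iUnion, Metric.iUnion_ball_nat, inter_univ]
  rw [hU, ae_restrict_iUnion_iff]
  exact key

/-- component of the vector kernel -/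
def ve (q : ℝ) (e z : E3) : ℝ := rk q z * inner ℝ e z

/-- directional derivative of `ve` -/
def De (q : ℝ) (e z : E3) : ℝ := rk q z * (1 + (q - 2) * ((inner ℝ e z) ^ 2 / ‖z‖ ^ 2))

lemma measurable_ve (q : ℝ) (e : E3) : Measurable (ve q e) := by
  unfold ve
  have := measurable_rk q
  fun_prop

lemma measurable_De (q : ℝ) (e : E3) : Measurable (De q e) := by
  unfold De
  have := measurable_rk q
  fun_prop

lemma abs_De_le {q : ℝ} (hq0 : 0 < q) (hq1 : q < 1) {e : E3} (he : ‖e‖ = 1) (z : E3) :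
    |De q e z| ≤ rk q z := by
  unfold De
  rw [abs_mul, abs_of_nonneg (rk_nonneg q z)]
  have h1 : (inner ℝ e z) ^ 2 ≤ ‖z‖ ^ 2 := by
    have := abs_real_inner_le_norm e z
    rw [he, one_mul] at this
    calc (inner ℝ e z) ^ 2 = |inner ℝ e z| ^ 2 := (sq_abs _).symm
      _ ≤ ‖z‖ ^ 2 := by gcongr
  have h2 : 0 ≤ (inner ℝ e z) ^ 2 / ‖z‖ ^ 2 := by positivity
  have h3 : (inner ℝ e z) ^ 2 / ‖z‖ ^ 2 ≤ 1 := div_le_one_of_le₀ h1 (by positivity)
  have h4 : |1 + (q - 2) * ((inner ℝ e z) ^ 2 / ‖z‖ ^ 2)| ≤ 1 := by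
    rw [abs_le]
    constructor <;> nlinarith
  calc rk q z * |1 + (q - 2) * ((inner ℝ e z) ^ 2 / ‖z‖ ^ 2)| ≤ rk q z * 1 :=
        mul_le_mul_of_nonneg_left h4 (rk_nonneg q z)
    _ = rk q z := mul_one _

lemma abs_ve_le {q : ℝ} (hq0 : 0 < q) (hq1 : q < 1) {e : E3} (he : ‖e‖ = 1) (z : E3) :
    |ve q e z| ≤ rk q z + 1 := by
  unfold ve
  rw [abs_mul, abs_of_nonneg (rk_nonneg q z)]
  have h1 : |inner ℝ e z| ≤ ‖z‖ := by
    have := abs_real_inner_le_norm e z
    rwa [he, one_mul] at this
  have h0 := rk_nonneg q z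
  have h2 : rk q z * |inner ℝ e z| ≤ rk q z * ‖z‖ := mul_le_mul_of_nonneg_left h1 h0
  refine h2.trans ?_
  rcases le_total ‖z‖ 1 with h3 | h3
  · nlinarith
  · have h4 : 0 < ‖z‖ := lt_of_lt_of_le one_pos h3
    have h5 : rk q z * ‖z‖ ≤ 1 := by
      unfold rk
      rw [← Real.rpow_add_one h4.ne']
      exact Real.rpow_le_one_of_one_le_of_nonpos h3 (by linarith)
    linarith

/-- fundamental theorem of calculus along a segment avoiding the origin. -/
lemma ftc {q : ℝ} {e : E3} (he : ‖e‖ = 1) {z : E3} (hz : ∀ s : ℝ, z + s • e ≠ 0) (t : ℝ) :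
    Continuous (fun s : ℝ => De q e (z + s • e)) ∧
    ve q e (z + t • e) - ve q e z = ∫ s in (0)..t, De q e (z + s • e) := by
  have hin : ∀ s : ℝ, inner ℝ e (z + s • e) = inner ℝ e z + s := by
    intro s
    rw [inner_add_right, inner_smul_right, real_inner_self_eq_norm_sq, he]
    ring
  have hnorm : ∀ s : ℝ, ‖z + s • e‖ ^ 2 = ‖z‖ ^ 2 + 2 * s * inner ℝ e z + s ^ 2 := by
    intro s
    rw [norm_add_sq_real, inner_smul_right, norm_smul, he, real_inner_comm, mul_one,
      Real.norm_eq_abs, sq_abs]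
    ring
  have hpos : ∀ s : ℝ, 0 < ‖z‖ ^ 2 + 2 * s * inner ℝ e z + s ^ 2 := by
    intro s
    rw [← hnorm]
    have := norm_pos_iff.mpr (hz s)
    positivity
  have hrk : ∀ s : ℝ, rk q (z + s • e)
      = (‖z‖ ^ 2 + 2 * s * inner ℝ e z + s ^ 2) ^ ((q - 2) / 2) := by
    intro s
    unfold rk
    rw [← hnorm, ← Real.rpow_natCast _ 2, ← Real.rpow_mul (norm_nonneg _)]
    congr 1
    push_cast
    ring
  have hDe : ∀ s : ℝ, De q e (z + s • e)
      = (‖z‖ ^ 2 + 2 * s * inner ℝ e z + s ^ 2) ^ ((q - 2) / 2)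
        * (1 + (q - 2) * ((inner ℝ e z + s) ^ 2 / (‖z‖ ^ 2 + 2 * s * inner ℝ e z + s ^ 2))) := by
    intro s
    unfold De
    rw [hrk, hin, hnorm]
  have hve : ∀ s : ℝ, ve q e (z + s • e)
      = (‖z‖ ^ 2 + 2 * s * inner ℝ e z + s ^ 2) ^ ((q - 2) / 2) * (inner ℝ e z + s) := by
    intro s
    unfold ve
    rw [hrk, hin]
  have hcont : Continuous (fun s : ℝ => De q e (z + s • e)) := by
    simp_rw [hDe]
    refine Continuous.mul ?_ ?_
    · exact Continuous.rpow_const (by fun_prop) fun s => Or.inl (hpos s).ne'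
    · refine continuous_const.add (continuous_const.mul ?_)
      exact Continuous.div (by fun_prop) (by fun_prop) fun s => (hpos s).ne'
  refine ⟨hcont, ?_⟩
  have hder : ∀ s : ℝ, HasDerivAt (fun s : ℝ => ve q e (z + s • e)) (De q e (z + s • e)) s := by
    intro s
    have h1 : HasDerivAt (fun s : ℝ => ‖z‖ ^ 2 + 2 * s * inner ℝ e z + s ^ 2)
        (2 * inner ℝ e z + 2 * s) s := by
      have ha := (((hasDerivAt_id s).const_mul 2).mul_const (inner ℝ e z)).const_add (‖z‖ ^ 2)
      have hb := hasDerivAt_pow 2 s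
      refine (ha.add hb).congr_deriv ?_
      simp
    have h2 := h1.rpow_const (p := (q - 2) / 2) (Or.inl (hpos s).ne')
    have h3 : HasDerivAt (fun s : ℝ => inner ℝ e z + s) 1 s := (hasDerivAt_id s).const_add _
    have h4 := h2.mul h3
    have h5 : (fun s : ℝ => ve q e (z + s • e)) = (fun s : ℝ =>
        (‖z‖ ^ 2 + 2 * s * inner ℝ e z + s ^ 2) ^ ((q - 2) / 2) * (inner ℝ e z + s)) :=
      funext hve
    rw [h5]
    refine h4.congr_deriv ?_
    rw [hDe, Real.rpow_sub_one (hpos s).ne']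
    have := (hpos s).ne'
    field_simp
    ring
  have h6 := intervalIntegral.integral_eq_sub_of_hasDerivAt (fun s _ => hder s)
    (hcont.intervalIntegrable 0 t)
  rw [h6]
  simp

/-- local integrability of the extended potential -/
lemma lintegral_pot_ball {q : ℝ} (hq0 : 0 < q) (hq1 : q < 1) (τ : Measure E3)
    [IsFiniteMeasure τ] (R : ℝ) :
    ∫⁻ x in Metric.ball (0 : E3) R, ∫⁻ z, ENNReal.ofReal (rk q (x - z)) ∂τ ≠ ⊤ := by
  obtain ⟨M, hM0, hM⟩ := exists_setIntegral_bound hq0 hq1
    (measurableSet_ball (x := (0 : E3)) (ε := R)) Metric.isBounded_ball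
  have hm : Measurable (fun p : E3 × E3 => ENNReal.ofReal (rk q (p.1 - p.2))) :=
    ((measurable_rk q).comp (measurable_fst.sub measurable_snd)).ennreal_ofReal
  rw [lintegral_lintegral_swap hm.aemeasurable]
  have h1 : ∀ z : E3, ∫⁻ x in Metric.ball (0 : E3) R, ENNReal.ofReal (rk q (x - z))
      ≤ ENNReal.ofReal M := by
    intro z
    have h2 := (hM z).1
    rw [← funext (fun x : E3 => congrArg ENNReal.ofReal (rk_sub_comm q z x)),
      ← ofReal_integral_eq_lintegral_ofReal h2 (Eventually.of_forall fun x => rk_nonneg _ _)]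
    exact ENNReal.ofReal_le_ofReal (hM z).2
  refine ne_top_of_le_ne_top ?_ (lintegral_mono h1)
  rw [lintegral_const]
  exact ENNReal.mul_ne_top ENNReal.ofReal_ne_top (measure_ne_top τ univ)

/-- for a.e. `x` the line through `x` in direction `e` misses `τ`-almost every point. -/
lemma ae_line {e : E3} (τ : Measure E3) [IsFiniteMeasure τ] :
    ∀ᵐ x : E3, ∀ᵐ z ∂τ, ∀ s : ℝ, x - z + s • e ≠ 0 := by
  set L : Submodule ℝ E3 := Submodule.span ℝ {e} with hL
  have hLtop : L ≠ ⊤ := by
    intro h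
    have h1 : Module.finrank ℝ L ≤ 1 := by
      have := finrank_span_le_card (R := ℝ) ({e} : Set E3)
      simpa using this
    rw [h, finrank_top] at h1
    simp at h1
  have hL0 : (volume : Measure E3) (L : Set E3) = 0 := Measure.addHaar_submodule _ L hLtop
  have hLc : IsClosed (L : Set E3) := L.closed_of_finiteDimensional
  have hmeas : MeasurableSet {p : E3 × E3 | p.1 - p.2 ∉ L} :=
    ((hLc.measurableSet).compl.preimage (measurable_fst.sub measurable_snd))
  have h2 : ∀ᵐ x : E3, ∀ᵐ z ∂τ, x - z ∉ L := by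
    rw [Measure.ae_ae_comm hmeas]
    refine Eventually.of_forall fun z => ?_
    rw [ae_iff]
    have h3 : {x : E3 | ¬ (x - z ∉ L)} = (fun x => x - z) ⁻¹' (L : Set E3) := by
      ext x; simp
    rw [h3]
    have h4 := (measurePreserving_sub_right (volume : Measure E3) z).measure_preimage
      hLc.measurableSet.nullMeasurableSet
    rw [h4, hL0]
  filter_upwards [h2] with x hx
  filter_upwards [hx] with z hz s hs
  apply hz
  have : x - z = (-s) • e := by
    rw [neg_smul]
    exact eq_neg_of_add_eq_zero_left hs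
  rw [this]
  exact Submodule.smul_mem _ _ (Submodule.mem_span_singleton_self e)

/-- the scalar component of the vector potential -/
def gv (q : ℝ) (e : E3) (τ : Measure E3) (x : E3) : ℝ := ∫ z, ve q e (x - z) ∂τ

/-- its derivative -/
def gw (q : ℝ) (e : E3) (τ : Measure E3) (x : E3) : ℝ := ∫ z, De q e (x - z) ∂τ

lemma measurable_gw (q : ℝ) (e : E3) (τ : Measure E3) [IsFiniteMeasure τ] :
    Measurable (gw q e τ) := by
  have h : Measurable (fun p : E3 × E3 => De q e (p.1 - p.2)) :=
    (measurable_De q e).comp (measurable_fst.sub measurable_snd)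
  exact (h.stronglyMeasurable.integral_prod_right').measurable

lemma enorm_gw_le {q : ℝ} (hq0 : 0 < q) (hq1 : q < 1) {e : E3} (he : ‖e‖ = 1)
    (τ : Measure E3) (x : E3) :
    ‖gw q e τ x‖ₑ ≤ ∫⁻ z, ENNReal.ofReal (rk q (x - z)) ∂τ := by
  refine (enorm_integral_le_lintegral_enorm _).trans (lintegral_mono fun z => ?_)
  rw [← ofReal_norm]
  exact ENNReal.ofReal_le_ofReal (abs_De_le hq0 hq1 he _)

lemma integrableOn_gw {q : ℝ} (hq0 : 0 < q) (hq1 : q < 1) {e : E3} (he : ‖e‖ = 1)
    (τ : Measure E3) [IsFiniteMeasure τ] (R : ℝ) :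
    IntegrableOn (gw q e τ) (Metric.ball (0 : E3) R) := by
  refine ⟨(measurable_gw q e τ).aestronglyMeasurable, ?_⟩
  rw [HasFiniteIntegral]
  exact (lintegral_mono fun x => enorm_gw_le hq0 hq1 he τ x).trans_lt
    (lintegral_pot_ball hq0 hq1 τ R).lt_top

/-- finiteness of the potential on segments -/
lemma ae_segment {q : ℝ} (hq0 : 0 < q) (hq1 : q < 1) {e : E3} (he : ‖e‖ = 1)
    (τ : Measure E3) [IsFiniteMeasure τ] {t : ℝ} (ht : 0 < t) :
    ∀ᵐ x : E3, ∫⁻ s in Ioc (0 : ℝ) t, ∫⁻ z, ENNReal.ofReal (rk q (x + s • e - z)) ∂τ ≠ ⊤ := by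
  set p : E3 → ℝ≥0∞ := fun x => ∫⁻ z, ENNReal.ofReal (rk q (x - z)) ∂τ with hp
  have hpm : Measurable p := by
    have hm : Measurable (fun p : E3 × E3 => ENNReal.ofReal (rk q (p.1 - p.2))) :=
      ((measurable_rk q).comp (measurable_fst.sub measurable_snd)).ennreal_ofReal
    exact hm.lintegral_prod_right'
  have hm2 : Measurable (fun y : E3 × ℝ => p (y.1 + y.2 • e)) := hpm.comp (by fun_prop)
  have key : ∀ n : ℕ, ∀ᵐ x ∂(volume.restrict (Metric.ball (0 : E3) n)),
      ∫⁻ s in Ioc (0 : ℝ) t, p (x + s • e) < ⊤ := by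
    intro n
    refine ae_lt_top hm2.lintegral_prod_right' ?_
    rw [lintegral_lintegral_swap hm2.aemeasurable]
    have h1 : ∀ s ∈ Ioc (0 : ℝ) t, ∫⁻ x in Metric.ball (0 : E3) n, p (x + s • e)
        ≤ ∫⁻ x in Metric.ball (0 : E3) (n + t), p x := by
      intro s hs
      have h2 := (measurePreserving_add_right (volume : Measure E3) (s • e)).setLIntegral_comp_preimage
        (measurableSet_ball (x := (0 : E3)) (ε := (n : ℝ) + t)) hpm
      rw [← h2]
      refine lintegral_mono_set fun x hx => ?_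
      rw [mem_ball_zero_iff] at hx
      rw [mem_preimage, mem_ball_zero_iff]
      calc ‖x + s • e‖ ≤ ‖x‖ + ‖s • e‖ := norm_add_le _ _
        _ < n + t := by
          rw [norm_smul, he, mul_one, Real.norm_eq_abs, abs_of_pos hs.1]
          linarith [hs.2]
    refine ne_top_of_le_ne_top ?_ (setLIntegral_mono' measurableSet_Ioc h1)
    rw [setLIntegral_const]
    exact ENNReal.mul_ne_top (lintegral_pot_ball hq0 hq1 τ _) (by simp)
  have h3 : ∀ᵐ x ∂(volume.restrict (⋃ n : ℕ, Metric.ball (0 : E3) n)),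
      ∫⁻ s in Ioc (0 : ℝ) t, p (x + s • e) < ⊤ := by
    rw [ae_restrict_iUnion_iff]
    exact key
  rw [Metric.iUnion_ball_nat, Measure.restrict_univ] at h3
  filter_upwards [h3] with x hx
  exact hx.ne

lemma integrable_ve {q : ℝ} (hq0 : 0 < q) (hq1 : q < 1) {e : E3} (he : ‖e‖ = 1)
    {τ : Measure E3} [IsFiniteMeasure τ] {x : E3}
    (h : Integrable (fun z => rk q (x - z)) τ) : Integrable (fun z => ve q e (x - z)) τ := by
  refine Integrable.mono' (h.add (integrable_const 1))
    ((measurable_ve q e).comp (measurable_const.sub measurable_id)).aestronglyMeasurable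
    (Eventually.of_forall fun z => ?_)
  exact abs_ve_le hq0 hq1 he _

lemma integrable_De {q : ℝ} (hq0 : 0 < q) (hq1 : q < 1) {e : E3} (he : ‖e‖ = 1)
    {τ : Measure E3} {x : E3}
    (h : Integrable (fun z => rk q (x - z)) τ) : Integrable (fun z => De q e (x - z)) τ := by
  refine Integrable.mono' h
    ((measurable_De q e).comp (measurable_const.sub measurable_id)).aestronglyMeasurable
    (Eventually.of_forall fun z => ?_)
  exact abs_De_le hq0 hq1 he _

/-- the segment identity for a single measure -/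
lemma segment {q : ℝ} (hq0 : 0 < q) (hq1 : q < 1) {e : E3} (he : ‖e‖ = 1)
    (τ : Measure E3) [IsFiniteMeasure τ] {t : ℝ} (ht : 0 < t) :
    ∀ᵐ x : E3, IntervalIntegrable (fun s => gw q e τ (x + s • e)) volume 0 t ∧
      gv q e τ (x + t • e) - gv q e τ x = ∫ s in (0)..t, gw q e τ (x + s • e) := by
  have h1 := ae_integrable_rk hq0 hq1 τ
  have h2 : ∀ᵐ x : E3, Integrable (fun z => rk q (x + t • e - z)) τ :=
    (measurePreserving_add_right (volume : Measure E3) (t • e)).quasiMeasurePreserving.ae h1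
  filter_upwards [h1, h2, ae_line (e := e) τ, ae_segment hq0 hq1 he τ ht] with x hx1 hx2 hx3 hx4
  have hmD : Measurable (fun p : ℝ × E3 => De q e (x + p.1 • e - p.2)) :=
    (measurable_De q e).comp (by fun_prop)
  -- product integrability
  have hprod : Integrable (fun p : ℝ × E3 => De q e (x + p.1 • e - p.2))
      ((volume.restrict (Ioc (0 : ℝ) t)).prod τ) := by
    refine ⟨hmD.aestronglyMeasurable, ?_⟩
    rw [HasFiniteIntegral, lintegral_prod _ hmD.enorm.aemeasurable]
    refine lt_of_le_of_lt (lintegral_mono fun s => lintegral_mono fun z => ?_) hx4.lt_top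
    rw [← ofReal_norm]
    exact ENNReal.ofReal_le_ofReal (abs_De_le hq0 hq1 he _)
  have hgwi : IntegrableOn (fun s => gw q e τ (x + s • e)) (Ioc 0 t) := hprod.integral_prod_left
  refine ⟨(intervalIntegrable_iff_integrableOn_Ioc_of_le ht.le).2 hgwi, ?_⟩
  rw [intervalIntegral.integral_of_le ht.le]
  have h5 : ∫ s in Ioc (0 : ℝ) t, gw q e τ (x + s • e)
      = ∫ z, (∫ s in Ioc (0 : ℝ) t, De q e (x + s • e - z)) ∂τ := by
    unfold gw
    exact integral_integral_swap (f := fun (s : ℝ) (z : E3) => De q e (x + s • e - z)) hprod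
  rw [h5]
  unfold gv
  rw [← integral_sub (integrable_ve hq0 hq1 he hx2) (integrable_ve hq0 hq1 he hx1)]
  refine integral_congr_ae ?_
  filter_upwards [hx3] with z hz
  have h6 := (ftc (q := q) he hz t).2
  rw [intervalIntegral.integral_of_le ht.le] at h6
  have h7 : x + t • e - z = x - z + t • e := by abel
  rw [h7, h6]
  refine setIntegral_congr_fun measurableSet_Ioc fun s _ => ?_
  congr 1
  abel

lemma sum_De {q : ℝ} (hq : q ≠ 2) (z : E3) :
    ∑ j : Fin 3, De q (EuclideanSpace.single j 1) z = (q + 1) * rk q z := by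
  by_cases hz : z = 0
  · subst hz
    simp [De, rk_zero hq]
  · have h : 0 < ‖z‖ := norm_pos_iff.mpr hz
    have h1 : ‖z‖ ^ 2 = z 0 ^ 2 + z 1 ^ 2 + z 2 ^ 2 := by
      rw [EuclideanSpace.norm_sq_eq]
      simp [Fin.sum_univ_three]
    have h2 : ∀ j : Fin 3, inner ℝ (EuclideanSpace.single j (1 : ℝ)) z = z j := by
      intro j
      simp [EuclideanSpace.inner_single_left]
    unfold De
    simp only [h2, Fin.sum_univ_three]
    have h3 : ‖z‖ ^ 2 ≠ 0 := by positivity
    have h4 : z 0 ^ 2 / ‖z‖ ^ 2 + z 1 ^ 2 / ‖z‖ ^ 2 + z 2 ^ 2 / ‖z‖ ^ 2 = 1 := by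
      rw [← add_div, ← add_div, ← h1, div_self h3]
    linear_combination rk q z * (q - 2) * h4

end GradAux

open GradAux

/-- `∇V = 0` a.e. on `A` implies `ΔV = 0` a.e. on `A`. -/
theorem pot_eq_of_vpot_eq {q : ℝ} (hq0 : 0 < q) (hq1 : q < 1) (μ ρ : Measure E3)
    [IsFiniteMeasure μ] [IsFiniteMeasure ρ] {A : Set E3} (hA : MeasurableSet A)
    (h : ∀ᵐ x ∂(volume.restrict A), vpot q μ x = vpot q ρ x) :
    ∀ᵐ x ∂(volume.restrict A), pot q μ x = pot q ρ x := by
  have hgv : ∀ (e : E3), ‖e‖ = 1 → ∀ (τ : Measure E3) [IsFiniteMeasure τ],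
      ∀ᵐ x : E3, gv q e τ x = inner ℝ e (vpot q τ x) := by
    intro e he τ _
    filter_upwards [ae_integrable_rk hq0 hq1 τ] with x hx
    have hm : Measurable (fun z : E3 => rk q (x - z) • (x - z)) :=
      ((measurable_rk q).comp (measurable_const.sub measurable_id)).smul
        (measurable_const.sub measurable_id)
    have hint : Integrable (fun z => rk q (x - z) • (x - z)) τ := by
      refine Integrable.mono' (hx.add (integrable_const 1)) hm.aestronglyMeasurable
        (Eventually.of_forall fun z => ?_)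
      rw [norm_smul, Real.norm_eq_abs, abs_of_nonneg (rk_nonneg _ _)]
      simp only [Pi.add_apply]
      have h0 := rk_nonneg q (x - z)
      rcases le_total ‖x - z‖ 1 with h3 | h3
      · nlinarith
      · have h4 : 0 < ‖x - z‖ := lt_of_lt_of_le one_pos h3
        have h5 : rk q (x - z) * ‖x - z‖ ≤ 1 := by
          unfold rk
          rw [← Real.rpow_add_one h4.ne']
          exact Real.rpow_le_one_of_one_le_of_nonpos h3 (by linarith)
        linarith
    unfold gv vpot
    rw [← integral_inner hint]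
    refine integral_congr_ae (Eventually.of_forall fun z => ?_)
    simp only [ve]
    rw [inner_smul_right]
  have hW : ∀ j : Fin 3, ∀ᵐ x ∂(volume.restrict A),
      gw q (EuclideanSpace.single j 1) μ x - gw q (EuclideanSpace.single j 1) ρ x = 0 := by
    intro j
    set e : E3 := EuclideanSpace.single j 1 with he'
    have he : ‖e‖ = 1 := by simp [he']
    refine stamp (G := fun x => gv q e μ x - gv q e ρ x)
      (W := fun x => gw q e μ x - gw q e ρ x) (e := e)
      ((measurable_gw q e μ).sub (measurable_gw q e ρ))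
      (fun R => (integrableOn_gw hq0 hq1 he μ R).sub (integrableOn_gw hq0 hq1 he ρ R))
      he.le ?_ hA ?_
    · intro t ht
      filter_upwards [segment hq0 hq1 he μ ht, segment hq0 hq1 he ρ ht] with x h1 h2
      refine ⟨h1.1.sub h2.1, ?_⟩
      rw [intervalIntegral.integral_sub h1.1 h2.1, ← h1.2, ← h2.2]
      ring
    · filter_upwards [h, ae_restrict_of_ae (hgv e he μ), ae_restrict_of_ae (hgv e he ρ)]
        with x h1 h2 h3
      rw [h2, h3, h1, sub_self]
  have hsum : ∀ (τ : Measure E3) [IsFiniteMeasure τ], ∀ᵐ x : E3,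
      ∑ j : Fin 3, gw q (EuclideanSpace.single j 1) τ x = (q + 1) * pot q τ x := by
    intro τ _
    filter_upwards [ae_integrable_rk hq0 hq1 τ] with x hx
    unfold gw pot
    rw [← integral_finsetSum]
    · rw [← integral_const_mul]
      refine integral_congr_ae (Eventually.of_forall fun z => ?_)
      exact sum_De (by linarith) _
    · intro j _
      exact integrable_De hq0 hq1 (by simp) hx
  have hall := ae_all_iff.2 hW
  filter_upwards [hall, ae_restrict_of_ae (hsum μ), ae_restrict_of_ae (hsum ρ)] with x h1 h2 h3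
  have h4 : (q + 1) * pot q μ x = (q + 1) * pot q ρ x := by
    rw [← h2, ← h3]
    exact Finset.sum_congr rfl fun j _ => sub_eq_zero.1 (h1 j)
  exact mul_left_cancel₀ (by linarith) h4

end Pool.Agent.LagRig
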