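import Pool.Agent.LagRig.Basic

open MeasureTheory Set Filter Topology
open scoped Real ENNReal

noncomputable section

namespace Pool.Agent.LagRig

namespace IdentAux

lemma measurable_rk_prod (q : ℝ) : Measurable (fun p : E3 × E3 => rk q (p.1 - p.2)) :=
  (measurable_rk q).comp (measurable_fst.sub measurable_snd)

lemma rk_mul_sq {q : ℝ} (hq : 0 < q) (v : E3) : ‖v‖ ^ 2 * rk q v = ‖v‖ ^ q := by
  by_cases hv : v = 0
  · subst hv
    simp [Real.zero_rpow hq.ne']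
  · have h : 0 < ‖v‖ := norm_pos_iff.mpr hv
    unfold rk
    rw [← Real.rpow_natCast ‖v‖ 2, ← Real.rpow_add h]
    congr 1
    push_cast
    ring

lemma sub_rpow_le {q : ℝ} (hq0 : 0 < q) (hq1 : q < 1) (x z : E3) :
    ‖x - z‖ ^ q ≤ ‖x‖ ^ q + ‖z‖ ^ q := by
  calc ‖x - z‖ ^ q ≤ (‖x‖ + ‖z‖) ^ q :=
        Real.rpow_le_rpow (norm_nonneg _) (norm_sub_le _ _) hq0.le
    _ ≤ ‖x‖ ^ q + ‖z‖ ^ q :=
        Real.rpow_add_le_add_rpow (norm_nonneg _) (norm_nonneg _) hq0.le hq1.le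

lemma measurable_qn (q : ℝ) : Measurable (fun p : E3 × E3 => ‖p.1 - p.2‖ ^ q) := by fun_prop

lemma integrable_qn {q : ℝ} (hq0 : 0 < q) (hq1 : q < 1) {τ : Measure E3} [IsFiniteMeasure τ]
    (hτ : Integrable (fun x => ‖x‖ ^ q) τ) (z : E3) : Integrable (fun x => ‖z - x‖ ^ q) τ := by
  refine Integrable.mono' (hτ.add (integrable_const (‖z‖ ^ q))) ?_ ?_
  · exact (by fun_prop : Measurable fun x : E3 => ‖z - x‖ ^ q).aestronglyMeasurable
  · refine Eventually.of_forall fun x => ?_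
    rw [Real.norm_eq_abs, abs_of_nonneg (by positivity)]
    have := sub_rpow_le hq0 hq1 z x
    simp only [Pi.add_apply]
    linarith

lemma integrable_qn_prod {q : ℝ} (hq0 : 0 < q) (hq1 : q < 1) {τ : Measure E3} [IsFiniteMeasure τ]
    (hτ : Integrable (fun x => ‖x‖ ^ q) τ) {E : Set E3} (hE : MeasurableSet E)
    {R : ℝ} (hR : ∀ z ∈ E, ‖z‖ ≤ R) (hEf : volume E < ⊤) :
    Integrable (fun p : E3 × E3 => ‖p.1 - p.2‖ ^ q) (τ.prod (volume.restrict E)) := by
  have : IsFiniteMeasure (volume.restrict E) := ⟨by simpa using hEf⟩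
  have h1 : Integrable (fun p : E3 × E3 => ‖p.1‖ ^ q) (τ.prod (volume.restrict E)) :=
    hτ.comp_fst _
  refine Integrable.mono' (h1.add (integrable_const (R ^ q)))
    (measurable_qn q).aestronglyMeasurable ?_
  have h2 : ∀ᵐ p ∂(τ.prod (volume.restrict E)), p.2 ∈ E := by
    have h3 : ∀ᵐ z ∂(volume.restrict E), z ∈ E := ae_restrict_mem hE
    exact Measure.quasiMeasurePreserving_snd.ae h3
  filter_upwards [h2] with p hp
  rw [Real.norm_eq_abs, abs_of_nonneg (by positivity)]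
  have h4 := sub_rpow_le hq0 hq1 p.1 p.2
  have h5 : ‖p.2‖ ^ q ≤ R ^ q := Real.rpow_le_rpow (norm_nonneg _) (hR _ hp) hq0.le
  simp only [Pi.add_apply]
  linarith

lemma integrable_rk_prod {q : ℝ} (hq0 : 0 < q) (hq1 : q < 1) {τ : Measure E3}
    [IsFiniteMeasure τ] {E : Set E3} (hE : MeasurableSet E) (hEb : Bornology.IsBounded E) :
    Integrable (fun p : E3 × E3 => rk q (p.1 - p.2)) (τ.prod (volume.restrict E)) := by
  obtain ⟨M, hM0, hM⟩ := exists_setIntegral_bound hq0 hq1 hE hEb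
  have hm := (measurable_rk_prod q)
  rw [integrable_prod_iff hm.aestronglyMeasurable]
  refine ⟨Eventually.of_forall fun x => (hM x).1, ?_⟩
  have h1 : ∀ x : E3, ∫ z in E, ‖rk q (x - z)‖ = ∫ z in E, rk q (x - z) := by
    intro x
    refine integral_congr_ae (Eventually.of_forall fun z => ?_)
    simp only
    rw [Real.norm_eq_abs, abs_of_nonneg (rk_nonneg _ _)]
  simp only [h1]
  refine Integrable.mono' (integrable_const M) ?_ (Eventually.of_forall fun x => ?_)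
  · exact (hm.stronglyMeasurable.integral_prod_right').aestronglyMeasurable
  · rw [Real.norm_eq_abs, abs_of_nonneg (integral_nonneg fun z => rk_nonneg _ _)]
    exact (hM x).2

lemma sq_bound {q : ℝ} (hq0 : 0 < q) {D : ℝ} {x y z : E3} (hD : ‖z - y‖ ≤ D) :
    ‖x - y‖ ^ 2 * rk q (x - z) ≤ 2 * ‖x - z‖ ^ q + 2 * D ^ 2 * rk q (x - z) := by
  have h1 : ‖x - y‖ ^ 2 ≤ 2 * ‖x - z‖ ^ 2 + 2 * D ^ 2 := by
    have h2 : ‖x - y‖ ≤ ‖x - z‖ + D := by
      calc ‖x - y‖ = ‖(x - z) + (z - y)‖ := by congr 1; abel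
        _ ≤ ‖x - z‖ + ‖z - y‖ := norm_add_le _ _
        _ ≤ _ := by linarith
    have h3 := norm_nonneg (x - y)
    nlinarith [sq_nonneg (‖x - z‖ - D), norm_nonneg (x - z)]
  calc ‖x - y‖ ^ 2 * rk q (x - z) ≤ (2 * ‖x - z‖ ^ 2 + 2 * D ^ 2) * rk q (x - z) :=
        mul_le_mul_of_nonneg_right h1 (rk_nonneg _ _)
    _ = 2 * (‖x - z‖ ^ 2 * rk q (x - z)) + 2 * D ^ 2 * rk q (x - z) := by ring
    _ = _ := by rw [rk_mul_sq hq0]

/-- Setup data for a bounded measurable set. -/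
lemma exists_R {E : Set E3} (hEb : Bornology.IsBounded E) : ∃ R : ℝ, ∀ z ∈ E, ‖z‖ ≤ R :=
  hEb.exists_norm_le

lemma integrable_H {q : ℝ} (hq0 : 0 < q) (hq1 : q < 1) {τ : Measure E3} [IsFiniteMeasure τ]
    (hτ : Integrable (fun x => ‖x‖ ^ q) τ) {E : Set E3} (hE : MeasurableSet E)
    (hEb : Bornology.IsBounded E) {g : E3 → ℝ} (hgm : Measurable g) {B : ℝ}
    (hgB : ∀ z ∈ E, |g z| ≤ B) (y : E3) :
    Integrable (fun p : E3 × E3 => ‖p.1 - y‖ ^ 2 * (rk q (p.1 - p.2) * g p.2))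
      (τ.prod (volume.restrict E)) := by
  obtain ⟨R, hR⟩ := exists_R hEb
  have hEf : volume E < ⊤ := hEb.measure_lt_top
  have h1 := integrable_qn_prod hq0 hq1 hτ hE hR hEf
  have h2 := integrable_rk_prod hq0 hq1 (τ := τ) hE hEb
  have hmeas : Measurable (fun p : E3 × E3 => ‖p.1 - y‖ ^ 2 * (rk q (p.1 - p.2) * g p.2)) := by
    have ha : Measurable (fun p : E3 × E3 => ‖p.1 - y‖ ^ 2) := by fun_prop
    exact ha.mul ((measurable_rk_prod q).mul (hgm.comp measurable_snd))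
  refine Integrable.mono' (((h1.const_mul 2).add (h2.const_mul (2 * (R + ‖y‖) ^ 2))).const_mul B)
    hmeas.aestronglyMeasurable ?_
  have h3 : ∀ᵐ p ∂(τ.prod (volume.restrict E)), p.2 ∈ E := by
    have h3 : ∀ᵐ z ∂(volume.restrict E), z ∈ E := ae_restrict_mem hE
    exact Measure.quasiMeasurePreserving_snd.ae h3
  filter_upwards [h3] with p hp
  have h4 := rk_nonneg q (p.1 - p.2)
  have h5 : ‖p.2 - y‖ ≤ R + ‖y‖ := (norm_sub_le _ _).trans (by linarith [hR _ hp])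
  have h6 := sq_bound hq0 (x := p.1) h5
  have hB0 : 0 ≤ B := (abs_nonneg _).trans (hgB _ hp)
  rw [Real.norm_eq_abs, abs_mul, abs_mul, abs_of_nonneg h4, abs_of_nonneg (sq_nonneg _)]
  simp only [Pi.add_apply]
  calc ‖p.1 - y‖ ^ 2 * (rk q (p.1 - p.2) * |g p.2|)
      = |g p.2| * (‖p.1 - y‖ ^ 2 * rk q (p.1 - p.2)) := by ring
    _ ≤ B * (‖p.1 - y‖ ^ 2 * rk q (p.1 - p.2)) :=
        mul_le_mul_of_nonneg_right (hgB _ hp) (by positivity)
    _ ≤ _ := mul_le_mul_of_nonneg_left h6 hB0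

lemma sq_mul_dpot (q : ℝ) (E : Set E3) (g : E3 → ℝ) (x y : E3) :
    ‖x - y‖ ^ 2 * dpot q E g x = ∫ z in E, ‖x - y‖ ^ 2 * (rk q (x - z) * g z) := by
  unfold dpot
  rw [integral_const_mul]

lemma pointwise {q : ℝ} (hq0 : 0 < q) (x y z : E3) :
    ‖x - y‖ ^ 2 * rk q (x - z)
      = ‖z - x‖ ^ q - 2 * inner ℝ (z - y) (rk q (z - x) • (z - x))
        + ‖z - y‖ ^ 2 * rk q (z - x) := by
  have h1 : ‖x - y‖ ^ 2 = ‖z - x‖ ^ 2 - 2 * inner ℝ (z - y) (z - x) + ‖z - y‖ ^ 2 := by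
    have h2 : x - y = (z - y) - (z - x) := by abel
    rw [h2, norm_sub_sq_real]
    ring
  rw [rk_sub_comm q x z, h1, inner_smul_right, ← rk_mul_sq hq0 (z - x)]
  ring

lemma integrable_vec {q : ℝ} {τ : Measure E3} {z : E3}
    (h1 : Integrable (fun x => rk q (z - x)) τ) (h2 : Integrable (fun x => ‖z - x‖ ^ q) τ) :
    Integrable (fun x => rk q (z - x) • (z - x)) τ := by
  have hm : Measurable (fun x : E3 => rk q (z - x) • (z - x)) :=
    ((measurable_rk q).comp (measurable_const.sub measurable_id)).smul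
      (measurable_const.sub measurable_id)
  refine Integrable.mono' (h1.add h2) hm.aestronglyMeasurable (Eventually.of_forall fun x => ?_)
  rw [norm_smul, Real.norm_eq_abs, abs_of_nonneg (rk_nonneg _ _)]
  simp only [Pi.add_apply]
  by_cases hx : z - x = 0
  · rw [hx, norm_zero, mul_zero]
    have := rk_nonneg q (0 : E3)
    positivity
  · have h : 0 < ‖z - x‖ := norm_pos_iff.mpr hx
    have h3 : ‖z - x‖ ^ q = ‖z - x‖ ^ 2 * rk q (z - x) := by
      unfold rk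
      rw [← Real.rpow_natCast ‖z - x‖ 2, ← Real.rpow_add h]
      congr 1
      push_cast
      ring
    rw [h3]
    have h4 := rk_nonneg q (z - x)
    nlinarith [sq_nonneg (‖z - x‖ - 1), mul_nonneg h4 (sq_nonneg (‖z - x‖ - 1)),
      mul_nonneg h4 h.le, mul_nonneg h4 (sq_nonneg (‖z - x‖))]

/-- the `z`-integrand after Fubini. -/
lemma inner_eq {q : ℝ} (hq0 : 0 < q) {τ : Measure E3} {z y : E3}
    (h1 : Integrable (fun x => rk q (z - x)) τ) (h2 : Integrable (fun x => ‖z - x‖ ^ q) τ)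
    (c : ℝ) :
    ∫ x, ‖x - y‖ ^ 2 * (rk q (x - z) * c) ∂τ
      = (qpot q τ z - 2 * inner ℝ (z - y) (vpot q τ z) + ‖z - y‖ ^ 2 * pot q τ z) * c := by
  have h3 := integrable_vec h1 h2
  have h4 : ∀ x : E3, ‖x - y‖ ^ 2 * (rk q (x - z) * c)
      = (‖z - x‖ ^ q - 2 * inner ℝ (z - y) (rk q (z - x) • (z - x))
        + ‖z - y‖ ^ 2 * rk q (z - x)) * c := by
    intro x
    rw [← pointwise hq0]
    ring
  simp_rw [h4]
  rw [integral_mul_const]
  congr 1
  have h5 : Integrable (fun x => inner ℝ (z - y) (rk q (z - x) • (z - x))) τ :=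
    h3.const_inner _
  have h6 : Integrable (fun x => ‖z - x‖ ^ q
      - 2 * inner ℝ (z - y) (rk q (z - x) • (z - x))) τ := h2.sub (h5.const_mul 2)
  rw [integral_add h6 (h1.const_mul _), integral_sub h2 (h5.const_mul 2),
    integral_const_mul, integral_const_mul, integral_inner h3]
  rfl

lemma fubini {q : ℝ} (hq0 : 0 < q) (hq1 : q < 1) {τ : Measure E3} [IsFiniteMeasure τ]
    (hτ : Integrable (fun x => ‖x‖ ^ q) τ) {E : Set E3} (hE : MeasurableSet E)
    (hEb : Bornology.IsBounded E) {g : E3 → ℝ} (hgm : Measurable g) {B : ℝ}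
    (hgB : ∀ z ∈ E, |g z| ≤ B) (y : E3) :
    (∫ x, ‖x - y‖ ^ 2 * dpot q E g x ∂τ)
      = ∫ z in E, (qpot q τ z - 2 * inner ℝ (z - y) (vpot q τ z)
        + ‖z - y‖ ^ 2 * pot q τ z) * g z := by
  have h1 := integrable_H hq0 hq1 hτ hE hEb hgm hgB y
  simp_rw [sq_mul_dpot]
  rw [integral_integral_swap h1]
  refine integral_congr_ae ?_
  filter_upwards [ae_restrict_of_ae (ae_integrable_rk hq0 hq1 τ)] with z hz
  exact inner_eq hq0 hz (integrable_qn hq0 hq1 hτ z) (g z)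

lemma integrable_fubini {q : ℝ} (hq0 : 0 < q) (hq1 : q < 1) {τ : Measure E3} [IsFiniteMeasure τ]
    (hτ : Integrable (fun x => ‖x‖ ^ q) τ) {E : Set E3} (hE : MeasurableSet E)
    (hEb : Bornology.IsBounded E) {g : E3 → ℝ} (hgm : Measurable g) {B : ℝ}
    (hgB : ∀ z ∈ E, |g z| ≤ B) (y : E3) :
    IntegrableOn (fun z => (qpot q τ z - 2 * inner ℝ (z - y) (vpot q τ z)
        + ‖z - y‖ ^ 2 * pot q τ z) * g z) E := by
  have h1 := (integrable_H hq0 hq1 hτ hE hEb hgm hgB y).integral_prod_right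
  refine h1.congr ?_
  filter_upwards [ae_restrict_of_ae (ae_integrable_rk hq0 hq1 τ)] with z hz
  exact inner_eq hq0 hz (integrable_qn hq0 hq1 hτ z) (g z)

lemma fubini_zero {q : ℝ} (hq0 : 0 < q) (hq1 : q < 1) {τ : Measure E3} [IsFiniteMeasure τ]
    {E : Set E3} (hE : MeasurableSet E) (hEb : Bornology.IsBounded E) {g : E3 → ℝ}
    (hgm : Measurable g) {B : ℝ} (hgB : ∀ z ∈ E, |g z| ≤ B) :
    (∫ x, dpot q E g x ∂τ) = ∫ z in E, pot q τ z * g z := by
  have h2 := integrable_rk_prod hq0 hq1 (τ := τ) hE hEb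
  have h1 : Integrable (fun p : E3 × E3 => rk q (p.1 - p.2) * g p.2)
      (τ.prod (volume.restrict E)) := by
    refine Integrable.mono' (h2.mul_const B)
      ((measurable_rk_prod q).mul (hgm.comp measurable_snd)).aestronglyMeasurable ?_
    have h3 : ∀ᵐ p ∂(τ.prod (volume.restrict E)), p.2 ∈ E := by
      have h3 : ∀ᵐ z ∂(volume.restrict E), z ∈ E := ae_restrict_mem hE
      exact Measure.quasiMeasurePreserving_snd.ae h3
    filter_upwards [h3] with p hp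
    rw [Real.norm_eq_abs, abs_mul, abs_of_nonneg (rk_nonneg _ _)]
    exact mul_le_mul_of_nonneg_left (hgB _ hp) (rk_nonneg _ _)
  unfold dpot
  rw [integral_integral_swap h1]
  refine integral_congr_ae (Eventually.of_forall fun z => ?_)
  simp only
  rw [integral_mul_const]
  congr 1
  unfold pot
  refine integral_congr_ae (Eventually.of_forall fun x => ?_)
  exact rk_sub_comm q x z

end IdentAux

open IdentAux

theorem integrable_sq_mul_dpot {q : ℝ} (hq0 : 0 < q) (hq1 : q < 1) (μ : Measure E3)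
    [IsProbabilityMeasure μ] (hμ : Integrable (fun x => ‖x‖ ^ q) μ) {E : Set E3}
    (hE : MeasurableSet E) (hEb : Bornology.IsBounded E) {g : E3 → ℝ} (hgm : Measurable g)
    {B : ℝ} (hgB : ∀ z ∈ E, |g z| ≤ B) (y : E3) :
    Integrable (fun x => ‖x - y‖ ^ 2 * dpot q E g x) μ := by
  simp_rw [sq_mul_dpot]
  exact (integrable_H hq0 hq1 hμ hE hEb hgm hgB y).integral_prod_left

theorem ident_two {q : ℝ} (hq0 : 0 < q) (hq1 : q < 1) (μ ρ : Measure E3)
    [IsProbabilityMeasure μ] [IsProbabilityMeasure ρ]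
    (hμ : Integrable (fun x => ‖x‖ ^ q) μ) (hρ : Integrable (fun x => ‖x‖ ^ q) ρ)
    {E : Set E3} (hE : MeasurableSet E) (hEb : Bornology.IsBounded E) {g : E3 → ℝ}
    (hgm : Measurable g) {B : ℝ} (hgB : ∀ z ∈ E, |g z| ≤ B)
    (hw : ∀ᵐ z ∂(volume.restrict E), pot q μ z = pot q ρ z)
    (hv : ∀ᵐ z ∂(volume.restrict E), vpot q μ z = vpot q ρ z) (y : E3) :
    (∫ x, ‖x - y‖ ^ 2 * dpot q E g x ∂μ) - ∫ x, ‖x - y‖ ^ 2 * dpot q E g x ∂ρ
      = ∫ z in E, (qpot q μ z - qpot q ρ z) * g z := by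
  rw [fubini hq0 hq1 hμ hE hEb hgm hgB y, fubini hq0 hq1 hρ hE hEb hgm hgB y,
    ← integral_sub (integrable_fubini hq0 hq1 hμ hE hEb hgm hgB y)
      (integrable_fubini hq0 hq1 hρ hE hEb hgm hgB y)]
  refine integral_congr_ae ?_
  filter_upwards [hw, hv] with z h1 h2
  rw [h1, h2]
  ring

theorem ident_zero {q : ℝ} (hq0 : 0 < q) (hq1 : q < 1) (μ ρ : Measure E3)
    [IsProbabilityMeasure μ] [IsProbabilityMeasure ρ]
    {E : Set E3} (hE : MeasurableSet E) (hEb : Bornology.IsBounded E) {g : E3 → ℝ}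
    (hgm : Measurable g) {B : ℝ} (hgB : ∀ z ∈ E, |g z| ≤ B)
    (hw : ∀ᵐ z ∂(volume.restrict E), pot q μ z = pot q ρ z) :
    (∫ x, dpot q E g x ∂μ) - ∫ x, dpot q E g x ∂ρ = 0 := by
  rw [fubini_zero hq0 hq1 hE hEb hgm hgB, fubini_zero hq0 hq1 hE hEb hgm hgB, sub_eq_zero]
  refine integral_congr_ae ?_
  filter_upwards [hw] with z h1
  rw [h1]

end Pool.Agent.LagRig
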