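import Pool.Agent.LagRig.Pack
import Pool.Agent.LagRig.Basic

open MeasureTheory Set Filter Topology
open scoped Real ENNReal NNReal BoundedContinuousFunction

noncomputable section

namespace Pool.Agent.LagRig

namespace InjAux

/-- the extended potential -/
def potE (q : ℝ) (τ : Measure E3) (x : E3) : ℝ≥0∞ := ∫⁻ z, ENNReal.ofReal (rk q (x - z)) ∂τ

lemma pot_eq_toReal (q : ℝ) (τ : Measure E3) (x : E3) : pot q τ x = (potE q τ x).toReal := by
  unfold pot potE
  rw [integral_eq_lintegral_of_nonneg_ae (Eventually.of_forall fun z => rk_nonneg q (x - z))]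
  have := measurable_rk q
  exact (this.comp (measurable_const.sub measurable_id)).aestronglyMeasurable

lemma potE_ne_top {q : ℝ} {τ : Measure E3} {x : E3}
    (h : Integrable (fun z => rk q (x - z)) τ) : potE q τ x ≠ ⊤ := by
  have h1 := h.hasFiniteIntegral
  rw [HasFiniteIntegral] at h1
  refine ne_top_of_le_ne_top h1.ne (lintegral_mono fun s => ?_)
  rw [← ofReal_norm]
  exact ENNReal.ofReal_le_ofReal (le_abs_self _)

lemma measurable_rk_sub (q : ℝ) : Measurable (fun p : E3 × E3 => rk q (p.1 - p.2)) :=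
  (measurable_rk q).comp (measurable_fst.sub measurable_snd)

lemma ae_measure_singleton (μ : Measure E3) [IsFiniteMeasure μ] : ∀ᵐ x : E3, μ {x} = 0 := by
  have hc : Set.Countable {x : E3 | 0 < μ {x}} := by
    have := Measure.countable_meas_pos_of_disjoint_iUnion (μ := μ) (As := fun x : E3 => {x})
      (fun x => measurableSet_singleton x) (fun x y hxy => by simpa using hxy)
    exact this
  have h0 := hc.measure_zero (volume : Measure E3)
  rw [ae_iff]
  refine measure_mono_null (fun x hx => ?_) h0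
  exact pos_iff_ne_zero.mpr hx

/-- pack identity for potentials of measures -/
lemma pack_measure {q : ℝ} (K : Pack q) (n : ℕ) (μ : Measure E3) [IsFiniteMeasure μ] {x : E3}
    (hx : μ {x} = 0) :
    (∫⁻ y, ENNReal.ofReal (K.P n (x - y)) * potE q μ y)
      + ∫⁻ z, ENNReal.ofReal (K.m n * K.J n (x - z)) ∂μ = potE q μ x := by
  have hne : ∀ᵐ z ∂μ, x - z ≠ 0 := by
    rw [ae_iff]
    refine measure_mono_null (fun z hz => ?_) hx
    simp only [not_not, mem_ofPred_eq, sub_eq_zero] at hz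
    simp [hz]
  have h1 : potE q μ x = ∫⁻ z, ((∫⁻ y, ENNReal.ofReal (K.P n (x - y))
      * ENNReal.ofReal (rk q (y - z))) + ENNReal.ofReal (K.m n * K.J n (x - z))) ∂μ := by
    unfold potE
    refine lintegral_congr_ae ?_
    filter_upwards [hne] with z hz
    rw [← K.hPk n _ hz]
    congr 1
    rw [← lintegral_sub_right_eq_self (fun y : E3 =>
      ENNReal.ofReal (K.P n (x - z - y)) * ENNReal.ofReal (rk q y)) z]
    refine lintegral_congr fun y => ?_
    congr 3
    abel
  have hPm := K.hPm n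
  have hJm := K.hJm n
  have hrk := measurable_rk_sub q
  have hm2 : Measurable (fun p : E3 × E3 => ENNReal.ofReal (K.P n (x - p.2))
      * ENNReal.ofReal (rk q (p.2 - p.1))) := by
    have ha : Measurable (fun p : E3 × E3 => K.P n (x - p.2)) :=
      hPm.comp (measurable_const.sub measurable_snd)
    have hb : Measurable (fun p : E3 × E3 => rk q (p.2 - p.1)) :=
      (measurable_rk q).comp (measurable_snd.sub measurable_fst)
    exact ha.ennreal_ofReal.mul hb.ennreal_ofReal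
  rw [h1, lintegral_add_left]
  · congr 1
    rw [lintegral_lintegral_swap (hm2.aemeasurable)]
    refine lintegral_congr fun y => ?_
    rw [lintegral_const_mul' _ _ ENNReal.ofReal_ne_top]
    rfl
  · exact hm2.lintegral_prod_right'

lemma conv_eq {q : ℝ} (hq0 : 0 < q) (hq1 : q < 1) (K : Pack q) (n : ℕ) (μ ρ : Measure E3)
    [IsFiniteMeasure μ] [IsFiniteMeasure ρ] (h : ∀ᵐ x : E3, pot q μ x = pot q ρ x) :
    ∀ᵐ x : E3, ∫⁻ z, ENNReal.ofReal (K.J n (x - z)) ∂μ
      = ∫⁻ z, ENNReal.ofReal (K.J n (x - z)) ∂ρ := by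
  have hE : ∀ᵐ x : E3, potE q μ x = potE q ρ x := by
    filter_upwards [h, ae_integrable_rk hq0 hq1 μ, ae_integrable_rk hq0 hq1 ρ] with x hx h1 h2
    rw [pot_eq_toReal, pot_eq_toReal] at hx
    exact (ENNReal.toReal_eq_toReal_iff' (potE_ne_top h1) (potE_ne_top h2)).1 hx
  filter_upwards [hE, ae_integrable_rk hq0 hq1 μ, ae_measure_singleton μ,
    ae_measure_singleton ρ] with x hx h1 h2 h3
  have e1 := pack_measure K n μ h2
  have e2 := pack_measure K n ρ h3
  have e3 : ∫⁻ y, ENNReal.ofReal (K.P n (x - y)) * potE q μ y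
      = ∫⁻ y, ENNReal.ofReal (K.P n (x - y)) * potE q ρ y := by
    refine lintegral_congr_ae ?_
    filter_upwards [hE] with y hy
    rw [hy]
  rw [← hx, ← e1, ← e3] at e2
  have hfin : ∫⁻ y, ENNReal.ofReal (K.P n (x - y)) * potE q μ y ≠ ⊤ := by
    refine ne_top_of_le_ne_top (potE_ne_top h1) ?_
    rw [← e1]
    exact le_self_add
  have e4 := (ENNReal.add_right_inj hfin).1 e2
  have hsplit : ∀ τ : Measure E3, ∫⁻ z, ENNReal.ofReal (K.m n * K.J n (x - z)) ∂τ
      = ENNReal.ofReal (K.m n) * ∫⁻ z, ENNReal.ofReal (K.J n (x - z)) ∂τ := by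
    intro τ
    rw [← lintegral_const_mul' _ _ ENNReal.ofReal_ne_top]
    refine lintegral_congr fun z => ?_
    rw [ENNReal.ofReal_mul (K.hm n).le]
  rw [hsplit, hsplit] at e4
  exact ((ENNReal.mul_right_inj (by simpa using K.hm n) ENNReal.ofReal_ne_top).1 e4).symm

/-- a bound for `f` -/
def bd (f : E3 →ᵇ ℝ≥0) : ℝ := ((nndist f 0 : ℝ≥0) : ℝ)

lemma abs_le_bd (f : E3 →ᵇ ℝ≥0) (x : E3) : |((f x : ℝ≥0) : ℝ)| ≤ bd f := by
  rw [abs_of_nonneg (by positivity)]
  exact NNReal.coe_le_coe.2 (BoundedContinuousFunction.NNReal.upper_bound f x)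

/-- smoothing of `f` at `z` -/
def sm {q : ℝ} (K : Pack q) (f : E3 →ᵇ ℝ≥0) (n : ℕ) (z : E3) : ℝ≥0∞ :=
  ∫⁻ x, f x * ENNReal.ofReal (K.J n (x - z))

lemma sm_eq {q : ℝ} (K : Pack q) (f : E3 →ᵇ ℝ≥0) (n : ℕ) (z : E3) :
    sm K f n z = ENNReal.ofReal (∫ w, K.J n w * (f (w + z) : ℝ)) := by
  unfold sm
  rw [← lintegral_add_right_eq_self
    (fun x : E3 => (f x : ℝ≥0∞) * ENNReal.ofReal (K.J n (x - z))) z]
  have hfm : Measurable (fun w : E3 => ((f (w + z) : ℝ≥0) : ℝ)) := by
    have : Continuous (fun w : E3 => ((f (w + z) : ℝ≥0) : ℝ)) := by fun_prop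
    exact this.measurable
  have hint : Integrable (fun w => K.J n w * (f (w + z) : ℝ)) := by
    refine (K.hJi n).mul_bdd (c := bd f) hfm.aestronglyMeasurable ?_
    exact Eventually.of_forall fun w => abs_le_bd f (w + z)
  rw [ofReal_integral_eq_lintegral_ofReal hint
    (Eventually.of_forall fun w => mul_nonneg (K.hJ0 n w) (by positivity))]
  refine lintegral_congr fun w => ?_
  rw [add_sub_cancel_right, ENNReal.ofReal_mul (K.hJ0 n w), ENNReal.ofReal_coe_nnreal, mul_comm]

lemma sm_tendsto {q : ℝ} (K : Pack q) (f : E3 →ᵇ ℝ≥0) (z : E3) :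
    Tendsto (fun n => sm K f n z) atTop (𝓝 (f z : ℝ≥0∞)) := by
  simp_rw [sm_eq]
  have hfm : Measurable (fun w : E3 => ((f (w + z) : ℝ≥0) : ℝ)) := by
    have : Continuous (fun w : E3 => ((f (w + z) : ℝ≥0) : ℝ)) := by fun_prop
    exact this.measurable
  have hb : ∀ w : E3, |((f (w + z) : ℝ≥0) : ℝ)| ≤ bd f := by
    intro w
    exact abs_le_bd f (w + z)
  have h1 := K.hJδ (fun w => ((f (w + z) : ℝ≥0) : ℝ) - ((f z : ℝ≥0) : ℝ))
    (hfm.sub_const _) ⟨bd f + |((f z : ℝ≥0) : ℝ)|, fun w => by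
      refine (abs_sub _ _).trans ?_
      exact add_le_add (hb w) le_rfl⟩ (by
      have : Continuous (fun w : E3 => ((f (w + z) : ℝ≥0) : ℝ) - ((f z : ℝ≥0) : ℝ)) := by fun_prop
      have h2 := this.tendsto 0
      simpa using h2)
  have h2 : ∀ n, ∫ w, K.J n w * (f (w + z) : ℝ)
      = (∫ w, K.J n w * (((f (w + z) : ℝ≥0) : ℝ) - ((f z : ℝ≥0) : ℝ))) + ((f z : ℝ≥0) : ℝ) := by
    intro n
    have hint : Integrable (fun w => K.J n w * (f (w + z) : ℝ)) := by
      refine (K.hJi n).mul_bdd (c := bd f) hfm.aestronglyMeasurable ?_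
      exact Eventually.of_forall fun w => hb w
    have h3 : ∫ w, K.J n w * (((f (w + z) : ℝ≥0) : ℝ) - ((f z : ℝ≥0) : ℝ))
        = (∫ w, K.J n w * (f (w + z) : ℝ)) - ∫ w, K.J n w * ((f z : ℝ≥0) : ℝ) := by
      rw [← integral_sub hint ((K.hJi n).mul_const _)]
      refine integral_congr_ae (Eventually.of_forall fun w => ?_)
      simp only
      ring
    rw [h3, integral_mul_const, K.hJ1 n, one_mul]
    ring
  have h4 : Tendsto (fun n => ∫ w, K.J n w * (f (w + z) : ℝ)) atTop (𝓝 ((f z : ℝ≥0) : ℝ)) := by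
    simp_rw [h2]
    simpa using h1.add_const ((f z : ℝ≥0) : ℝ)
  have h5 := (ENNReal.continuous_ofReal.tendsto _).comp h4
  rw [ENNReal.ofReal_coe_nnreal] at h5
  exact h5

lemma sm_le {q : ℝ} (K : Pack q) (f : E3 →ᵇ ℝ≥0) (n : ℕ) (z : E3) :
    sm K f n z ≤ ENNReal.ofReal (bd f) := by
  rw [sm_eq]
  refine ENNReal.ofReal_le_ofReal ?_
  have hfm : Measurable (fun w : E3 => ((f (w + z) : ℝ≥0) : ℝ)) := by
    have : Continuous (fun w : E3 => ((f (w + z) : ℝ≥0) : ℝ)) := by fun_prop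
    exact this.measurable
  have hb : ∀ w : E3, |((f (w + z) : ℝ≥0) : ℝ)| ≤ bd f := by
    intro w
    exact abs_le_bd f (w + z)
  have hint : Integrable (fun w => K.J n w * (f (w + z) : ℝ)) := by
    refine (K.hJi n).mul_bdd (c := bd f) hfm.aestronglyMeasurable ?_
    exact Eventually.of_forall fun w => hb w
  calc ∫ w, K.J n w * (f (w + z) : ℝ) ≤ ∫ w, K.J n w * bd f := by
        refine integral_mono hint ((K.hJi n).mul_const _) fun w => ?_
        exact mul_le_mul_of_nonneg_left ((le_abs_self _).trans (hb w)) (K.hJ0 n w)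
    _ = bd f := by rw [integral_mul_const, K.hJ1 n, one_mul]

lemma meas_aux {q : ℝ} (K : Pack q) (f : E3 →ᵇ ℝ≥0) (n : ℕ) :
    Measurable (fun p : E3 × E3 => (f p.2 : ℝ≥0∞) * ENNReal.ofReal (K.J n (p.2 - p.1))) := by
  have h1 : Measurable (fun p : E3 × E3 => (f p.2 : ℝ≥0∞)) := by
    have : Measurable (fun x : E3 => (f x : ℝ≥0∞)) :=
      (ENNReal.continuous_coe.comp f.continuous).measurable
    exact this.comp measurable_snd
  have h2 : Measurable (fun p : E3 × E3 => K.J n (p.2 - p.1)) :=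
    (K.hJm n).comp (measurable_snd.sub measurable_fst)
  exact h1.mul h2.ennreal_ofReal

end InjAux

open InjAux

/-- A finite measure is determined by its Riesz potential. -/
theorem eq_of_pot_eq {q : ℝ} (hq0 : 0 < q) (hq1 : q < 1) (μ ρ : Measure E3)
    [IsFiniteMeasure μ] [IsFiniteMeasure ρ] (h : ∀ᵐ x : E3, pot q μ x = pot q ρ x) :
    μ = ρ := by
  obtain ⟨K⟩ := nonempty_pack hq0 hq1
  refine ext_of_forall_lintegral_eq_of_IsFiniteMeasure fun f => ?_
  have hlim : ∀ τ : Measure E3, IsFiniteMeasure τ →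
      Tendsto (fun n => ∫⁻ z, sm K f n z ∂τ) atTop (𝓝 (∫⁻ z, (f z : ℝ≥0∞) ∂τ)) := by
    intro τ hτ
    refine tendsto_lintegral_of_dominated_convergence (fun _ => ENNReal.ofReal (bd f)) ?_ ?_ ?_ ?_
    · intro n
      exact (meas_aux K f n).lintegral_prod_right'
    · intro n
      exact Eventually.of_forall fun z => sm_le K f n z
    · rw [lintegral_const]
      exact ENNReal.mul_ne_top ENNReal.ofReal_ne_top (measure_ne_top τ univ)
    · exact Eventually.of_forall fun z => sm_tendsto K f z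
  have hswap : ∀ τ : Measure E3, IsFiniteMeasure τ → ∀ n, ∫⁻ z, sm K f n z ∂τ
      = ∫⁻ x, (f x : ℝ≥0∞) * ∫⁻ z, ENNReal.ofReal (K.J n (x - z)) ∂τ := by
    intro τ hτ n
    unfold sm
    rw [lintegral_lintegral_swap (meas_aux K f n).aemeasurable]
    refine lintegral_congr fun x => ?_
    rw [lintegral_const_mul' _ _ ENNReal.coe_ne_top]
  have heq : ∀ n, ∫⁻ z, sm K f n z ∂μ = ∫⁻ z, sm K f n z ∂ρ := by
    intro n
    rw [hswap μ inferInstance n, hswap ρ inferInstance n]
    refine lintegral_congr_ae ?_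
    filter_upwards [conv_eq hq0 hq1 K n μ ρ h] with x hx
    rw [hx]
  have h1 := hlim μ inferInstance
  simp_rw [heq] at h1
  exact tendsto_nhds_unique h1 (hlim ρ inferInstance)

end Pool.Agent.LagRig
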