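import Mathlib

/-!
# Module SubH: the beta integral
-/

open MeasureTheory Set Filter Topology
open scoped Real ENNReal

noncomputable section

namespace Pool.Agent.LagRig

namespace SubH

theorem lintegral_scale {v : ℝ} (hv : 0 < v) {f : ℝ → ℝ≥0∞} (hf : Measurable f) :
    ∫⁻ s, f s = ENNReal.ofReal v * ∫⁻ u, f (v * u) := by
  conv_lhs => rw [← Real.smul_map_volume_mul_left hv.ne']
  rw [lintegral_smul_measure, lintegral_map hf (measurable_const_mul v), abs_of_pos hv]
  rfl

theorem beta_const {a : ℝ} (ha0 : 0 < a) (ha1 : a < 1) :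
    ∃ β : ℝ≥0∞, β ≠ 0 ∧ β ≠ ∞ ∧ ∀ v : ℝ, 0 < v →
      ∫⁻ s in Ioo 0 v, ENNReal.ofReal (s ^ (a - 1)) * ENNReal.ofReal ((v - s) ^ (-a)) = β := by
  refine ⟨∫⁻ s in Ioo (0 : ℝ) 1, ENNReal.ofReal (s ^ (a - 1)) * ENNReal.ofReal ((1 - s) ^ (-a)),
    ?_, ?_, ?_⟩
  · have mf : Measurable (fun s : ℝ => ENNReal.ofReal (s ^ (a - 1)) *
        ENNReal.ofReal ((1 - s) ^ (-a))) := by fun_prop
    rw [Ne, lintegral_eq_zero_iff mf]
    intro h
    have h1 : ∀ᵐ s ∂(volume.restrict (Ioo (0 : ℝ) 1)), False := by
      filter_upwards [h, ae_restrict_mem measurableSet_Ioo] with s hs hs'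
      have h2 : 0 < s ^ (a - 1) := Real.rpow_pos_of_pos hs'.1 _
      have h3 : 0 < (1 - s) ^ (-a) := Real.rpow_pos_of_pos (sub_pos.mpr hs'.2) _
      have h4 : ENNReal.ofReal (s ^ (a - 1)) * ENNReal.ofReal ((1 - s) ^ (-a)) ≠ 0 :=
        mul_ne_zero (ENNReal.ofReal_pos.mpr h2).ne' (ENNReal.ofReal_pos.mpr h3).ne'
      exact h4 hs
    rw [ae_iff] at h1
    simp at h1
  · -- finiteness
    set F : ℝ → ℝ := fun s => (Ioo (0 : ℝ) 1).indicator
      (fun s => s ^ (a - 1) * (1 / 2) ^ (-a) + (1 / 2) ^ (a - 1) * (1 - s) ^ (-a)) s with hF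
    have hint : Integrable F := by
      rw [hF]
      rw [integrable_indicator_iff measurableSet_Ioo]
      refine Integrable.add ?_ ?_
      · refine Integrable.mul_const ?_ _
        have := intervalIntegral.intervalIntegrable_rpow' (a := 0) (b := 1) (r := a - 1)
          (by linarith)
        rwa [intervalIntegrable_iff_integrableOn_Ioo_of_le zero_le_one] at this
      · refine Integrable.const_mul ?_ _
        have h1 := intervalIntegral.intervalIntegrable_rpow' (a := 0) (b := 1) (r := -a)
          (by linarith)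
        have h2 := h1.comp_sub_left 1
        simp only [sub_zero, sub_self] at h2
        have h3 := h2.symm
        rwa [intervalIntegrable_iff_integrableOn_Ioo_of_le zero_le_one] at h3
    have hle : ∫⁻ s in Ioo (0 : ℝ) 1, ENNReal.ofReal (s ^ (a - 1)) *
        ENNReal.ofReal ((1 - s) ^ (-a)) ≤ ∫⁻ s, ENNReal.ofReal (F s) := by
      rw [← lintegral_indicator measurableSet_Ioo]
      refine lintegral_mono fun s => ?_
      by_cases hs : s ∈ Ioo (0 : ℝ) 1
      · have p1 : 0 < s ^ (a - 1) := Real.rpow_pos_of_pos hs.1 _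
        have p2 : 0 < (1 - s) ^ (-a) := Real.rpow_pos_of_pos (sub_pos.mpr hs.2) _
        rw [hF]
        simp only [indicator_of_mem hs]
        rw [← ENNReal.ofReal_mul p1.le]
        refine ENNReal.ofReal_le_ofReal ?_
        have p3 : (0 : ℝ) < (1 / 2) ^ (-a) := Real.rpow_pos_of_pos (by norm_num) _
        have p4 : (0 : ℝ) < (1 / 2) ^ (a - 1) := Real.rpow_pos_of_pos (by norm_num) _
        rcases le_total s (1 / 2) with h | h
        · have p5 : (1 - s) ^ (-a) ≤ (1 / 2) ^ (-a) :=
            Real.rpow_le_rpow_of_nonpos (by norm_num) (by linarith) (by linarith)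
          have := mul_le_mul_of_nonneg_left p5 p1.le
          have := mul_pos p4 p2
          linarith
        · have p5 : s ^ (a - 1) ≤ (1 / 2) ^ (a - 1) :=
            Real.rpow_le_rpow_of_nonpos (by norm_num) h (by linarith)
          have := mul_le_mul_of_nonneg_right p5 p2.le
          have := mul_pos p1 p3
          linarith
      · simp only [indicator_of_notMem hs, zero_le]
    exact ne_top_of_le_ne_top hint.lintegral_lt_top.ne hle
  · intro v hv
    rw [← lintegral_indicator measurableSet_Ioo, ← lintegral_indicator measurableSet_Ioo]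
    have mf : Measurable ((Ioo 0 v).indicator fun s : ℝ => ENNReal.ofReal (s ^ (a - 1)) *
        ENNReal.ofReal ((v - s) ^ (-a))) := by
      refine Measurable.indicator ?_ measurableSet_Ioo
      fun_prop
    rw [lintegral_scale hv mf, ← lintegral_const_mul' _ _ ENNReal.ofReal_ne_top]
    refine lintegral_congr fun u => ?_
    by_cases hu : u ∈ Ioo (0 : ℝ) 1
    · have hvu : v * u ∈ Ioo 0 v := ⟨mul_pos hv hu.1, by nlinarith [hu.2]⟩
      rw [indicator_of_mem hu, indicator_of_mem hvu]
      have e1 : v - v * u = v * (1 - u) := by ring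
      rw [e1, Real.mul_rpow hv.le hu.1.le, Real.mul_rpow hv.le (sub_pos.mpr hu.2).le,
        ← ENNReal.ofReal_mul (by have := hu.1; positivity), ← ENNReal.ofReal_mul hv.le,
        ← ENNReal.ofReal_mul (Real.rpow_nonneg hu.1.le _)]
      congr 1
      have e2 : v * (v ^ (a - 1) * v ^ (-a)) = 1 := by
        rw [← Real.rpow_add hv]
        nth_rw 1 [← Real.rpow_one v]
        rw [← Real.rpow_add hv]
        have : 1 + (a - 1 + -a) = 0 := by ring
        rw [this, Real.rpow_zero]
      linear_combination (u ^ (a - 1) * (1 - u) ^ (-a)) * e2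
    · have hvu : v * u ∉ Ioo 0 v := by
        intro h
        exact hu ⟨(mul_pos_iff_of_pos_left hv).mp h.1, by
          by_contra hcon
          have := mul_le_mul_of_nonneg_left (not_lt.mp hcon) hv.le
          linarith [h.2]⟩
      rw [indicator_of_notMem hu, indicator_of_notMem hvu, mul_zero]

end SubH

end Pool.Agent.LagRig
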