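import Pool.Agent.LagRig.SubHAux
import Pool.Agent.LagRig.SubHBeta

/-!
# Module SubH: subharmonicity via heat kernels, second part
-/

open MeasureTheory Set Filter Topology
open scoped Real ENNReal BoundedContinuousFunction

noncomputable section

namespace Pool.Agent.LagRig

namespace SubH

attribute [local irreducible] hk rk pot potE K N0

theorem integrable_shift {q : ℝ} (hq0 : 0 < q) (hq1 : q < 1) (μ : Measure E3)
    [IsFiniteMeasure μ] (hμ : Integrable (fun x => ‖x‖ ^ q) μ) (x : E3) :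
    Integrable (fun z => ‖x - z‖ ^ q) μ := by
  have h1 : Integrable (fun z : E3 => ‖x‖ ^ q + ‖z‖ ^ q) μ := (integrable_const _).add hμ
  refine h1.mono' (Measurable.aestronglyMeasurable (by fun_prop)) (Eventually.of_forall fun z => ?_)
  rw [Real.norm_of_nonneg (Real.rpow_nonneg (norm_nonneg _) _)]
  calc ‖x - z‖ ^ q ≤ (‖x‖ + ‖z‖) ^ q :=
        Real.rpow_le_rpow (norm_nonneg _) (norm_sub_le _ _) hq0.le
    _ ≤ ‖x‖ ^ q + ‖z‖ ^ q :=
        Real.rpow_add_le_add_rpow (norm_nonneg _) (norm_nonneg _) hq0.le hq1.le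

theorem S_eq {q c C : ℝ} (hq0 : 0 < q) (hq1 : q < 1) (hc : 0 < c)
    (hrep : ∀ z : E3, z ≠ 0 → ENNReal.ofReal (rk q z) = ENNReal.ofReal c *
        ∫⁻ s in Ioi (0 : ℝ), ENNReal.ofReal (s ^ ((1 + q) / 2 - 1) * hk s z))
    (hC : 0 < C)
    (hdiff : ∀ p p' : E3, ‖p‖ ≤ ‖p'‖ →
      ∫⁻ v in Ioi (0 : ℝ), ENNReal.ofReal (v ^ ((1 + q) / 2) * (hk v p - hk v p'))
        = ENNReal.ofReal (C * (‖p'‖ ^ q - ‖p‖ ^ q)))
    (μ ρ : Measure E3) [IsProbabilityMeasure μ] [IsProbabilityMeasure ρ]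
    (hμ : Integrable (fun x => ‖x‖ ^ q) μ) (hρ : Integrable (fun x => ‖x‖ ^ q) ρ)
    (hw : ∀ᵐ x : E3, pot q ρ x ≤ pot q μ x) (x : E3) :
    (∫⁻ ζ : E3, N0 (x - ζ) * ENNReal.ofReal (pot q μ ζ - pot q ρ ζ)) =
      ENNReal.ofReal (c * (2 / (1 + q) * C) * (qpot q ρ x - qpot q μ x)) ∧
    qpot q μ x ≤ qpot q ρ x := by
  set a := (1 + q) / 2 with ha
  set κ := 2 / (1 + q) * C with hκ
  have hκ0 : 0 < κ := by positivity
  set P : E3 → ℝ := fun z => ‖x - z‖ ^ q with hP
  have hPμ : Integrable P μ := integrable_shift hq0 hq1 μ hμ x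
  have hPρ : Integrable P ρ := integrable_shift hq0 hq1 ρ hρ x
  have mP : Measurable P := by rw [hP]; fun_prop
  -- integrate in time
  have mw : Measurable (fun ζ : E3 => ENNReal.ofReal (pot q μ ζ - pot q ρ ζ)) := by
    refine Measurable.ennreal_ofReal (Measurable.sub ?_ ?_)
    · have : pot q μ = fun ζ => (potE q μ ζ).toReal := funext (pot_eq q μ)
      rw [this]; exact (measurable_potE q μ).ennreal_toReal
    · have : pot q ρ = fun ζ => (potE q ρ ζ).toReal := funext (pot_eq q ρ)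
      rw [this]; exact (measurable_potE q ρ).ennreal_toReal
  have mH : Measurable (fun p : ℝ × E3 => ENNReal.ofReal (hk p.1 (x - p.2))) := by
    have := measurable_hk.comp
      (measurable_fst.prodMk (measurable_const.sub measurable_snd) :
        Measurable (fun p : ℝ × E3 => ((p.1, x - p.2) : ℝ × E3)))
    exact this.ennreal_ofReal
  have mKz : Measurable (fun p : ℝ × (E3 × E3) => K a p.1 (x - p.2.1)) :=
    (measurable_K a).comp (measurable_fst.prodMk (measurable_const.sub measurable_snd.fst))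
  have mKz' : Measurable (fun p : ℝ × (E3 × E3) => K a p.1 (x - p.2.2)) :=
    (measurable_K a).comp (measurable_fst.prodMk (measurable_const.sub measurable_snd.snd))
  have mm : ∀ (F : ℝ × (E3 × E3) → ℝ≥0∞), Measurable F →
      ∫⁻ t in Ioi (0 : ℝ), ∫⁻ z, ∫⁻ z', F (t, (z, z')) ∂ρ ∂μ =
      ∫⁻ p, (∫⁻ t in Ioi (0 : ℝ), F (t, p)) ∂(μ.prod ρ) := by
    intro F hF
    have e : ∀ t : ℝ, ∫⁻ z, ∫⁻ z', F (t, (z, z')) ∂ρ ∂μ = ∫⁻ p, F (t, p) ∂(μ.prod ρ) := by
      intro t
      have hm : Measurable (fun p : E3 × E3 => F (t, p)) := hF.comp measurable_prodMk_left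
      rw [lintegral_prod _ hm.aemeasurable]
    simp only [e]
    rw [lintegral_lintegral_swap]
    exact hF.aemeasurable
  have k1 : (∫⁻ ζ : E3, N0 (x - ζ) * ENNReal.ofReal (pot q μ ζ - pot q ρ ζ)) +
      ENNReal.ofReal c * (∫⁻ p, ENNReal.ofReal (κ * (P p.1 - P p.2)) ∂(μ.prod ρ)) =
      ENNReal.ofReal c * ∫⁻ p, ENNReal.ofReal (κ * (P p.2 - P p.1)) ∂(μ.prod ρ) := by
    have e1 : ∫⁻ ζ : E3, N0 (x - ζ) * ENNReal.ofReal (pot q μ ζ - pot q ρ ζ) =
        ∫⁻ t in Ioi (0 : ℝ), ∫⁻ ζ : E3, ENNReal.ofReal (hk t (x - ζ)) *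
          ENNReal.ofReal (pot q μ ζ - pot q ρ ζ) := by
      rw [lintegral_lintegral_swap]
      · refine lintegral_congr fun ζ => ?_
        rw [lintegral_mul_const' _ _ ENNReal.ofReal_ne_top, N0_def]
      · exact (mH.mul (mw.comp measurable_snd)).aemeasurable
    have e2 : ∫⁻ p, ENNReal.ofReal (κ * (P p.1 - P p.2)) ∂(μ.prod ρ) =
        ∫⁻ t in Ioi (0 : ℝ), ∫⁻ z, ∫⁻ z', (K a t (x - z') - K a t (x - z)) ∂ρ ∂μ := by
      rw [mm (fun p => K a p.1 (x - p.2.2) - K a p.1 (x - p.2.1)) (mKz'.sub mKz)]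
      refine lintegral_congr fun p => ?_
      exact (K_diff hq0 hq1 hC hdiff (x - p.2) (x - p.1)).symm
    have e3 : ∫⁻ p, ENNReal.ofReal (κ * (P p.2 - P p.1)) ∂(μ.prod ρ) =
        ∫⁻ t in Ioi (0 : ℝ), ∫⁻ z, ∫⁻ z', (K a t (x - z) - K a t (x - z')) ∂ρ ∂μ := by
      rw [mm (fun p => K a p.1 (x - p.2.1) - K a p.1 (x - p.2.2)) (mKz.sub mKz')]
      refine lintegral_congr fun p => ?_
      exact (K_diff hq0 hq1 hC hdiff (x - p.1) (x - p.2)).symm
    rw [e1, e2, e3, ← lintegral_const_mul' _ _ ENNReal.ofReal_ne_top,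
      ← lintegral_const_mul' _ _ ENNReal.ofReal_ne_top, ← lintegral_add_left]
    · refine setLIntegral_congr_fun measurableSet_Ioi fun t ht => ?_
      exact heat_w hq0 hq1 hc hrep μ ρ hw ht x
    · exact (mH.mul (mw.comp measurable_snd)).lintegral_prod_right'
  -- real integrals
  have hint : Integrable (fun p : E3 × E3 => κ * (P p.2 - P p.1)) (μ.prod ρ) :=
    ((hPρ.comp_snd μ).sub (hPμ.comp_fst ρ)).const_mul κ
  have hI : ∫ p, κ * (P p.2 - P p.1) ∂(μ.prod ρ) = κ * (qpot q ρ x - qpot q μ x) := by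
    rw [integral_const_mul, integral_sub (hPρ.comp_snd μ) (hPμ.comp_fst ρ),
      integral_fun_snd, integral_fun_fst]
    simp [qpot, hP]
  have hIpm := integral_eq_lintegral_pos_part_sub_lintegral_neg_part hint
  have eneg : ∫⁻ p, ENNReal.ofReal (-(κ * (P p.2 - P p.1))) ∂(μ.prod ρ) =
      ∫⁻ p, ENNReal.ofReal (κ * (P p.1 - P p.2)) ∂(μ.prod ρ) := by
    refine lintegral_congr fun p => ?_
    congr 1
    ring
  rw [eneg, hI] at hIpm
  set X := ∫⁻ ζ : E3, N0 (x - ζ) * ENNReal.ofReal (pot q μ ζ - pot q ρ ζ) with hX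
  set A1 := ∫⁻ p, ENNReal.ofReal (κ * (P p.1 - P p.2)) ∂(μ.prod ρ) with hA1
  set A2 := ∫⁻ p, ENNReal.ofReal (κ * (P p.2 - P p.1)) ∂(μ.prod ρ) with hA2
  have hA2t : A2 ≠ ∞ := hint.lintegral_lt_top.ne
  have hA1t : A1 ≠ ∞ := by
    have := hint.neg.lintegral_lt_top.ne
    simp only [Pi.neg_apply] at this
    rwa [eneg] at this
  have hr2 : ENNReal.ofReal c * A2 ≠ ∞ := ENNReal.mul_ne_top ENNReal.ofReal_ne_top hA2t
  have hr1 : ENNReal.ofReal c * A1 ≠ ∞ := ENNReal.mul_ne_top ENNReal.ofReal_ne_top hA1t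
  have hXt : X ≠ ∞ := by
    refine ne_top_of_le_ne_top hr2 ?_
    rw [← k1]
    exact le_self_add
  have k2 := congrArg ENNReal.toReal k1
  rw [ENNReal.toReal_add hXt hr1, ENNReal.toReal_mul, ENNReal.toReal_mul,
    ENNReal.toReal_ofReal hc.le] at k2
  have k3 : X.toReal = c * κ * (qpot q ρ x - qpot q μ x) := by
    linear_combination k2 - c * hIpm
  refine ⟨?_, ?_⟩
  · rw [← k3, ENNReal.ofReal_toReal hXt]
  · have h0 : 0 ≤ c * κ * (qpot q ρ x - qpot q μ x) := by rw [← k3]; exact ENNReal.toReal_nonneg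
    have h1 : 0 < c * κ := mul_pos hc hκ0
    have := nonneg_of_mul_nonneg_right h0 h1
    linarith


theorem K_int {a : ℝ} (ha0 : 0 < a) (ha1 : a < 1) :
    ∃ β : ℝ≥0∞, β ≠ 0 ∧ β ≠ ∞ ∧ ∀ p : E3,
      ∫⁻ t in Ioi (0 : ℝ), ENNReal.ofReal (t ^ (-a)) * K a t p = β * N0 p := by
  obtain ⟨β, hβ0, hβ1, hβ⟩ := beta_const ha0 ha1
  refine ⟨β, hβ0, hβ1, fun p => ?_⟩
  have mφ : Measurable (fun t : ℝ => ENNReal.ofReal (t ^ (-a))) := by fun_prop
  have mψ : Measurable (fun s : ℝ => ENNReal.ofReal (s ^ (a - 1))) := by fun_prop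
  have mf : Measurable (fun v : ℝ => ENNReal.ofReal (hk v p)) :=
    (measurable_hk_left p).ennreal_ofReal
  simp only [K_eq]
  have := double_gen mφ mψ mf
  rw [this, N0_def, ← lintegral_const_mul' _ _ hβ1]
  refine setLIntegral_congr_fun measurableSet_Ioi fun v hv => ?_
  rw [hβ v hv]

theorem green_N0 {q c : ℝ} (hq0 : 0 < q) (hq1 : q < 1) (hc : 0 < c)
    (hrep : ∀ z : E3, z ≠ 0 → ENNReal.ofReal (rk q z) = ENNReal.ofReal c *
        ∫⁻ s in Ioi (0 : ℝ), ENNReal.ofReal (s ^ ((1 + q) / 2 - 1) * hk s z))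
    {E : Set E3} (hE : MeasurableSet E) (hEb : Bornology.IsBounded E) {g : E3 → ℝ}
    (hgm : Measurable g) (hg0 : ∀ z ∈ E, 0 ≤ g z) {B : ℝ} (hgB : ∀ z ∈ E, g z ≤ B) (y : E3)
    (hK : ∀ᵐ x : E3, dpot q E g x ≤ rk q (x - y)) (ζ : E3) :
    ∫⁻ z in E, N0 (ζ - z) * ENNReal.ofReal (g z) ≤ N0 (ζ - y) := by
  set a := (1 + q) / 2 with ha
  have ha0 : 0 < a := by rw [ha]; linarith
  have ha1 : a < 1 := by rw [ha]; linarith
  have hfinE : IsFiniteMeasure (volume.restrict E) := by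
    refine ⟨?_⟩
    rw [Measure.restrict_apply_univ]
    exact hEb.measure_lt_top
  have mg : Measurable (fun z : E3 => ENNReal.ofReal (g z)) := hgm.ennreal_ofReal
  -- lower integral form of the hypothesis
  have h1 : ∀ᵐ x : E3, ∫⁻ z in E, ENNReal.ofReal (rk q (x - z)) * ENNReal.ofReal (g z) ≤
      ENNReal.ofReal (rk q (x - y)) := by
    filter_upwards [hK, ae_integrable_rk hq0 hq1 (volume.restrict E)] with x hx hi
    have hi2 : Integrable (fun z => rk q (x - z) * g z) (volume.restrict E) := by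
      refine (hi.mul_const B).mono' ?_ ?_
      · exact (((measurable_rk q).comp (measurable_const.sub measurable_id)).mul
          hgm).aestronglyMeasurable
      · filter_upwards [ae_restrict_mem hE] with z hz
        rw [Real.norm_of_nonneg (mul_nonneg (rk_nonneg q _) (hg0 z hz))]
        exact mul_le_mul_of_nonneg_left (hgB z hz) (rk_nonneg q _)
    have hnn : 0 ≤ᵐ[volume.restrict E] fun z => rk q (x - z) * g z := by
      filter_upwards [ae_restrict_mem hE] with z hz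
      exact mul_nonneg (rk_nonneg q _) (hg0 z hz)
    have e := ofReal_integral_eq_lintegral_ofReal hi2 hnn
    have e2 : ∫⁻ z in E, ENNReal.ofReal (rk q (x - z)) * ENNReal.ofReal (g z) =
        ∫⁻ z in E, ENNReal.ofReal (rk q (x - z) * g z) := by
      refine lintegral_congr fun z => ?_
      rw [ENNReal.ofReal_mul (rk_nonneg q _)]
    rw [e2, ← e]
    exact ENNReal.ofReal_le_ofReal hx
  -- for one time
  have h2 : ∀ t ∈ Ioi (0 : ℝ), ∫⁻ z in E, K a t (ζ - z) * ENNReal.ofReal (g z) ≤ K a t (ζ - y) := by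
    intro t ht
    have mR : Measurable (fun p : E3 × E3 => ENNReal.ofReal (hk t (ζ - p.1)) *
        (ENNReal.ofReal (rk q (p.1 - p.2)) * ENNReal.ofReal (g p.2))) :=
      ((measurable_hk_right t).comp (measurable_const.sub measurable_fst)).mul
        ((measurable_rk_sub q).mul (mg.comp measurable_snd))
    have h3 : ∫⁻ x : E3, ENNReal.ofReal (hk t (ζ - x)) *
        ∫⁻ z in E, ENNReal.ofReal (rk q (x - z)) * ENNReal.ofReal (g z) ≤
        ENNReal.ofReal c * K a t (ζ - y) := by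
      rw [← heat_rk hc hrep ht]
      refine lintegral_mono_ae ?_
      filter_upwards [h1] with x hx
      exact mul_le_mul_right hx _
    have h4 : ∫⁻ x : E3, ENNReal.ofReal (hk t (ζ - x)) *
        ∫⁻ z in E, ENNReal.ofReal (rk q (x - z)) * ENNReal.ofReal (g z) =
        ENNReal.ofReal c * ∫⁻ z in E, K a t (ζ - z) * ENNReal.ofReal (g z) := by
      have e1 : ∀ x : E3, ENNReal.ofReal (hk t (ζ - x)) *
          ∫⁻ z in E, ENNReal.ofReal (rk q (x - z)) * ENNReal.ofReal (g z) =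
          ∫⁻ z in E, ENNReal.ofReal (hk t (ζ - x)) *
            (ENNReal.ofReal (rk q (x - z)) * ENNReal.ofReal (g z)) := by
        intro x
        rw [lintegral_const_mul' _ _ ENNReal.ofReal_ne_top]
      simp only [e1]
      rw [lintegral_lintegral_swap mR.aemeasurable, ← lintegral_const_mul' _ _ ENNReal.ofReal_ne_top]
      refine lintegral_congr fun z => ?_
      have e2 : ∀ x : E3, ENNReal.ofReal (hk t (ζ - x)) *
          (ENNReal.ofReal (rk q (x - z)) * ENNReal.ofReal (g z)) =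
          ENNReal.ofReal (hk t (ζ - x)) * ENNReal.ofReal (rk q (x - z)) * ENNReal.ofReal (g z) := by
        intro x; rw [mul_assoc]
      simp only [e2]
      rw [lintegral_mul_const' _ _ ENNReal.ofReal_ne_top, heat_rk hc hrep ht, mul_assoc]
    rw [h4] at h3
    have hc0 : ENNReal.ofReal c ≠ 0 := (ENNReal.ofReal_pos.mpr hc).ne'
    exact (ENNReal.mul_le_mul_iff_right hc0 ENNReal.ofReal_ne_top).mp h3
  obtain ⟨β, hβ0, hβ1, hβ⟩ := K_int ha0 ha1
  have mφ : Measurable (fun t : ℝ => ENNReal.ofReal (t ^ (-a))) := by fun_prop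
  have mKz : Measurable (fun p : ℝ × E3 => K a p.1 (ζ - p.2)) :=
    (measurable_K a).comp (measurable_fst.prodMk (measurable_const.sub measurable_snd))
  have h5 : ∫⁻ t in Ioi (0 : ℝ), ENNReal.ofReal (t ^ (-a)) *
      ∫⁻ z in E, K a t (ζ - z) * ENNReal.ofReal (g z) ≤ β * N0 (ζ - y) := by
    rw [← hβ]
    refine setLIntegral_mono' measurableSet_Ioi fun t ht => ?_
    exact mul_le_mul_right (h2 t ht) _
  have h6 : ∫⁻ t in Ioi (0 : ℝ), ENNReal.ofReal (t ^ (-a)) *
      ∫⁻ z in E, K a t (ζ - z) * ENNReal.ofReal (g z) =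
      β * ∫⁻ z in E, N0 (ζ - z) * ENNReal.ofReal (g z) := by
    have e1 : ∀ t : ℝ, ENNReal.ofReal (t ^ (-a)) *
        ∫⁻ z in E, K a t (ζ - z) * ENNReal.ofReal (g z) =
        ∫⁻ z in E, ENNReal.ofReal (t ^ (-a)) * K a t (ζ - z) * ENNReal.ofReal (g z) := by
      intro t
      rw [← lintegral_const_mul' _ _ ENNReal.ofReal_ne_top]
      refine lintegral_congr fun z => ?_
      rw [mul_assoc]
    simp only [e1]
    have mm : Measurable (fun p : ℝ × E3 => ENNReal.ofReal (p.1 ^ (-a)) * K a p.1 (ζ - p.2) *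
        ENNReal.ofReal (g p.2)) :=
      ((mφ.comp measurable_fst).mul mKz).mul (mg.comp measurable_snd)
    rw [lintegral_lintegral_swap mm.aemeasurable, ← lintegral_const_mul' _ _ hβ1]
    refine lintegral_congr fun z => ?_
    rw [lintegral_mul_const' _ _ ENNReal.ofReal_ne_top, hβ, mul_assoc]
  rw [h6] at h5
  exact (ENNReal.mul_le_mul_iff_right hβ0 hβ1).mp h5

end SubH

open SubH

/-- Subharmonicity of `V = qpot q μ - qpot q ρ` with respect to `δ_y → g dx`. -/
theorem qpot_sub {q : ℝ} (hq0 : 0 < q) (hq1 : q < 1) (μ ρ : Measure E3)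
    [IsProbabilityMeasure μ] [IsProbabilityMeasure ρ]
    (hμ : Integrable (fun x => ‖x‖ ^ q) μ) (hρ : Integrable (fun x => ‖x‖ ^ q) ρ)
    (hw : ∀ᵐ x : E3, pot q ρ x ≤ pot q μ x) {E : Set E3}
    (hE : MeasurableSet E) (hEb : Bornology.IsBounded E) {g : E3 → ℝ} (hgm : Measurable g)
    (hg0 : ∀ z ∈ E, 0 ≤ g z) {B : ℝ} (hgB : ∀ z ∈ E, g z ≤ B) (y : E3)
    (hK : ∀ᵐ x : E3, dpot q E g x ≤ rk q (x - y)) :
    qpot q μ y - qpot q ρ y ≤ ∫ z in E, (qpot q μ z - qpot q ρ z) * g z := by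
  obtain ⟨c, hc, hrep⟩ := exists_rep hq0 hq1
  obtain ⟨C, hC, hdiff⟩ := exists_diff hq0 hq1
  have hS := fun x => S_eq hq0 hq1 hc hrep hC hdiff μ ρ hμ hρ hw x
  have hG := fun ζ => green_N0 hq0 hq1 hc hrep hE hEb hgm hg0 hgB y hK ζ
  set κ := c * (2 / (1 + q) * C) with hκ
  have hκ0 : 0 < κ := by positivity
  by_cases hint : Integrable (fun z => (qpot q μ z - qpot q ρ z) * g z) (volume.restrict E)
  swap
  · rw [integral_undef hint]
    linarith [(hS y).2]
  have mw : Measurable (fun ζ : E3 => ENNReal.ofReal (pot q μ ζ - pot q ρ ζ)) := by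
    refine Measurable.ennreal_ofReal (Measurable.sub ?_ ?_)
    · have : pot q μ = fun ζ => (potE q μ ζ).toReal := funext (pot_eq q μ)
      rw [this]; exact (measurable_potE q μ).ennreal_toReal
    · have : pot q ρ = fun ζ => (potE q ρ ζ).toReal := funext (pot_eq q ρ)
      rw [this]; exact (measurable_potE q ρ).ennreal_toReal
  have mg : Measurable (fun z : E3 => ENNReal.ofReal (g z)) := hgm.ennreal_ofReal
  -- the comparison in lower integrals
  have k1 : ∫⁻ z in E, ENNReal.ofReal (g z) *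
      (∫⁻ ζ : E3, N0 (z - ζ) * ENNReal.ofReal (pot q μ ζ - pot q ρ ζ)) ≤
      ∫⁻ ζ : E3, N0 (y - ζ) * ENNReal.ofReal (pot q μ ζ - pot q ρ ζ) := by
    have e1 : ∀ z : E3, ENNReal.ofReal (g z) *
      (∫⁻ ζ : E3, N0 (z - ζ) * ENNReal.ofReal (pot q μ ζ - pot q ρ ζ)) =
      ∫⁻ ζ : E3, ENNReal.ofReal (g z) * (N0 (z - ζ) *
        ENNReal.ofReal (pot q μ ζ - pot q ρ ζ)) := by
      intro z
      rw [lintegral_const_mul' _ _ ENNReal.ofReal_ne_top]
    simp only [e1]
    have mm : Measurable (fun p : E3 × E3 => ENNReal.ofReal (g p.1) * (N0 (p.1 - p.2) *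
        ENNReal.ofReal (pot q μ p.2 - pot q ρ p.2))) :=
      (mg.comp measurable_fst).mul ((measurable_N0.comp (measurable_fst.sub measurable_snd)).mul
        (mw.comp measurable_snd))
    rw [lintegral_lintegral_swap mm.aemeasurable]
    refine lintegral_mono fun ζ => ?_
    have e2 : ∀ z : E3, ENNReal.ofReal (g z) * (N0 (z - ζ) *
        ENNReal.ofReal (pot q μ ζ - pot q ρ ζ)) = N0 (ζ - z) * ENNReal.ofReal (g z) *
        ENNReal.ofReal (pot q μ ζ - pot q ρ ζ) := by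
      intro z
      have : N0 (z - ζ) = N0 (ζ - z) := by rw [← neg_sub, N0_neg]
      rw [this]; ring
    simp only [e2]
    rw [lintegral_mul_const' _ _ ENNReal.ofReal_ne_top]
    have e3 : N0 (y - ζ) = N0 (ζ - y) := by rw [← neg_sub, N0_neg]
    rw [e3]
    exact mul_le_mul_left (hG ζ) _
  simp only [(hS _).1] at k1
  have e4 : ∫⁻ z in E, ENNReal.ofReal (g z) *
      ENNReal.ofReal (κ * (qpot q ρ z - qpot q μ z)) =
      ∫⁻ z in E, ENNReal.ofReal (κ * (-((qpot q μ z - qpot q ρ z) * g z))) := by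
    refine setLIntegral_congr_fun hE fun z hz => ?_
    rw [← ENNReal.ofReal_mul (hg0 z hz)]
    congr 1
    ring
  rw [e4] at k1
  have hint2 : Integrable (fun z => κ * (-((qpot q μ z - qpot q ρ z) * g z)))
      (volume.restrict E) := hint.neg.const_mul κ
  have hnn : 0 ≤ᵐ[volume.restrict E] fun z => κ * (-((qpot q μ z - qpot q ρ z) * g z)) := by
    filter_upwards [ae_restrict_mem hE] with z hz
    refine mul_nonneg hκ0.le ?_
    have h1 := (hS z).2
    have h2 := hg0 z hz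
    show 0 ≤ -((qpot q μ z - qpot q ρ z) * g z)
    nlinarith
  rw [← ofReal_integral_eq_lintegral_ofReal hint2 hnn] at k1
  have h7 : 0 ≤ κ * (qpot q ρ y - qpot q μ y) := mul_nonneg hκ0.le (by linarith [(hS y).2])
  rw [ENNReal.ofReal_le_ofReal_iff h7, integral_const_mul, integral_neg] at k1
  have h8 := le_of_mul_le_mul_left k1 hκ0
  linarith

end Pool.Agent.LagRig
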