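import Pool.Agent.LagRig.Green
import Pool.Agent.LagRig.Grad
import Pool.Agent.LagRig.SubH
import Pool.Agent.LagRig.Ident
import Pool.Agent.LagRig.Inj

open MeasureTheory Set Filter Topology
open scoped Real ENNReal BoundedContinuousFunction

noncomputable section

namespace Pool.Agent.LagRig

variable {q : ℝ}

/-- Core inequality for one set `E` and one penalisation parameter `N`. -/
lemma core (hq0 : 0 < q) (hq1 : q < 1) (μ ρ : Measure E3)
    [IsProbabilityMeasure μ] [IsProbabilityMeasure ρ]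
    (hμ : Integrable (fun x => ‖x‖ ^ q) μ) (hρ : Integrable (fun x => ‖x‖ ^ q) ρ)
    (hac : ρ ≪ volume) (hw : ∀ᵐ x : E3, pot q ρ x ≤ pot q μ x) {E : Set E3}
    (hE : MeasurableSet E) (hEb : Bornology.IsBounded E)
    (hwE : ∀ᵐ z ∂(volume.restrict E), pot q μ z = pot q ρ z)
    (hvE : ∀ᵐ z ∂(volume.restrict E), vpot q μ z = vpot q ρ z) (y : E3)
    (hy1 : Integrable (fun z => rk q (y - z)) μ) (hy2 : Integrable (fun z => rk q (y - z)) ρ)
    (hy3 : ∀ᵐ z ∂μ, z ≠ y) {r : ℝ} (hr : 0 < r) (hEy : ∀ x ∈ E, r ≤ ‖x - y‖)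
    {N : ℝ} (hN : 0 < N) {r' : ℝ} (hr' : 0 < r') :
    ∃ g : E3 → ℝ, Measurable g ∧ (∀ z ∈ E, 0 ≤ g z ∧ g z ≤ r ^ (q - 2)) ∧
      (∀ x, x ≠ y → N * dpot q E g x ≤ rk q (x - y)) ∧
      pot q μ y - pot q ρ y ≤ (∫ x in Metric.ball y r', rk q (x - y) ∂μ) +
        (r' ^ 2)⁻¹ * ((∫ x in E, ‖x - y‖ ^ 2 * g x ∂ρ) + ∫ x in Eᶜ, ‖x - y‖ ^ q ∂ρ) := by
  have hrk := measurable_rk q
  obtain ⟨g, hgm, hg1, hg2, hg3⟩ := exists_green hq0 hq1 hE hEb y hr hEy hN
  have hgb : ∀ z ∈ E, g z ≤ r ^ (q - 2) := fun z hz => by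
    refine (hg1 z hz).2.trans ?_
    exact Real.rpow_le_rpow_of_nonpos hr (hEy z hz) (by linarith)
  set b := r ^ (q - 2) with hb
  have hb0 : 0 < b := Real.rpow_pos_of_pos hr _
  obtain ⟨M, hM, hMb⟩ := exists_setIntegral_bound hq0 hq1 hE hEb
  set l : E3 → ℝ := fun z => N * g z with hl
  have hlm : Measurable l := by simp only [hl]; fun_prop
  have hl0 : ∀ z ∈ E, 0 ≤ l z := fun z hz => mul_nonneg hN.le (hg1 z hz).1
  have hlB : ∀ z ∈ E, l z ≤ N * b := fun z hz => mul_le_mul_of_nonneg_left (hgb z hz) hN.le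
  have hlA : ∀ z ∈ E, |l z| ≤ N * b := fun z hz => by
    rw [abs_of_nonneg (hl0 z hz)]; exact hlB z hz
  have hdl : ∀ x, dpot q E l x = N * dpot q E g x := by
    intro x
    unfold dpot
    rw [← integral_const_mul]
    refine integral_congr_ae (Eventually.of_forall fun z => ?_)
    simp only [hl]; ring
  have hd0 : ∀ x, 0 ≤ dpot q E l x := fun x =>
    setIntegral_nonneg hE fun w hw => mul_nonneg (rk_nonneg _ _) (hl0 w hw)
  have hdB : ∀ x, dpot q E l x ≤ M * (N * b) := by
    intro x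
    unfold dpot
    calc ∫ z in E, rk q (x - z) * l z ≤ ∫ z in E, rk q (x - z) * (N * b) := by
          refine setIntegral_mono_on (integrableOn_rk_mul hq0 hq1 hE hEb hlm hlA x)
            ((hMb x).1.mul_const _) hE fun z hz => ?_
          exact mul_le_mul_of_nonneg_left (hlB z hz) (rk_nonneg _ _)
      _ = (∫ z in E, rk q (x - z)) * (N * b) := integral_mul_const _ _
      _ ≤ _ := mul_le_mul_of_nonneg_right (hMb x).2 (by positivity)
  have hdc : Continuous (dpot q E l) := continuous_dpot hq0 hq1 hE hEb hlm hlA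
  have hdm : Measurable (dpot q E l) := hdc.measurable
  have idν : ∀ (ν : Measure E3) [IsProbabilityMeasure ν], Integrable (dpot q E l) ν := by
    intro ν _
    refine Integrable.mono' (integrable_const (M * (N * b))) hdm.aestronglyMeasurable
      (Eventually.of_forall fun x => ?_)
    rw [Real.norm_of_nonneg (hd0 x)]; exact hdB x
  have irμ : Integrable (fun x => rk q (x - y)) μ :=
    hy1.congr (Eventually.of_forall fun z => rk_sub_comm q y z)
  have irρ : Integrable (fun x => rk q (x - y)) ρ :=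
    hy2.congr (Eventually.of_forall fun z => rk_sub_comm q y z)
  set G : E3 → ℝ := fun x => rk q (x - y) - dpot q E l x with hG
  have iGμ : Integrable G μ := irμ.sub (idν μ)
  have iGρ : Integrable G ρ := irρ.sub (idν ρ)
  have hG0 : ∀ x, x ≠ y → 0 ≤ G x := fun x hx => by
    simp only [hG]; rw [hdl]; exact hg2 x hx
  have hGle : ∀ x, G x ≤ rk q (x - y) := fun x => by
    simp only [hG]; linarith [hd0 x]
  have hGE : ∀ x ∈ E, G x = g x := fun x hx => by
    simp only [hG]; rw [hdl, hg3 x hx]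
  have hyρ : ∀ᵐ z ∂ρ, z ≠ y := hac.ae_le (Measure.ae_ne volume y)
  have epμ : ∫ x, rk q (x - y) ∂μ = pot q μ y := by
    unfold pot
    exact integral_congr_ae (Eventually.of_forall fun z => rk_sub_comm q z y)
  have epρ : ∫ x, rk q (x - y) ∂ρ = pot q ρ y := by
    unfold pot
    exact integral_congr_ae (Eventually.of_forall fun z => rk_sub_comm q z y)
  -- (1)
  have h1 : (∫ x, G x ∂μ) - ∫ x, G x ∂ρ = pot q μ y - pot q ρ y := by
    have hz := ident_zero hq0 hq1 μ ρ hE hEb hlm hlA hwE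
    have e1 : ∫ x, G x ∂μ = pot q μ y - ∫ x, dpot q E l x ∂μ := by
      rw [← epμ]; exact integral_sub irμ (idν μ)
    have e2 : ∫ x, G x ∂ρ = pot q ρ y - ∫ x, dpot q E l x ∂ρ := by
      rw [← epρ]; exact integral_sub irρ (idν ρ)
    rw [e1, e2]; linarith
  -- (2)
  set F : E3 → ℝ := fun x => ‖x - y‖ ^ 2 * G x with hF
  have hFe : ∀ x, F x = ‖x - y‖ ^ q - ‖x - y‖ ^ 2 * dpot q E l x := fun x => by
    simp only [hF, hG]
    rw [mul_sub, IdentAux.rk_mul_sq hq0]
  have iqμ : Integrable (fun x => ‖x - y‖ ^ q) μ :=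
    (IdentAux.integrable_qn hq0 hq1 hμ y).congr
      (Eventually.of_forall fun z => by simp only [norm_sub_rev])
  have iqρ : Integrable (fun x => ‖x - y‖ ^ q) ρ :=
    (IdentAux.integrable_qn hq0 hq1 hρ y).congr
      (Eventually.of_forall fun z => by simp only [norm_sub_rev])
  have isμ := integrable_sq_mul_dpot hq0 hq1 μ hμ hE hEb hlm hlA y
  have isρ := integrable_sq_mul_dpot hq0 hq1 ρ hρ hE hEb hlm hlA y
  have iFμ : Integrable F μ :=
    (iqμ.sub isμ).congr (Eventually.of_forall fun x => (hFe x).symm)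
  have iFρ : Integrable F ρ :=
    (iqρ.sub isρ).congr (Eventually.of_forall fun x => (hFe x).symm)
  have h2 : ∫ x, F x ∂μ ≤ ∫ x, F x ∂ρ := by
    have e1 : ∫ x, F x ∂μ = qpot q μ y - ∫ x, ‖x - y‖ ^ 2 * dpot q E l x ∂μ := by
      rw [integral_congr_ae (Eventually.of_forall hFe), integral_sub iqμ isμ]
      unfold qpot
      congr 1
      exact integral_congr_ae (Eventually.of_forall fun z => by simp only [norm_sub_rev])
    have e2 : ∫ x, F x ∂ρ = qpot q ρ y - ∫ x, ‖x - y‖ ^ 2 * dpot q E l x ∂ρ := by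
      rw [integral_congr_ae (Eventually.of_forall hFe), integral_sub iqρ isρ]
      unfold qpot
      congr 1
      exact integral_congr_ae (Eventually.of_forall fun z => by simp only [norm_sub_rev])
    have e3 := ident_two hq0 hq1 μ ρ hμ hρ hE hEb hlm hlA hwE hvE y
    have e4 := qpot_sub hq0 hq1 μ ρ hμ hρ hw hE hEb hlm hl0 hlB y (by
      filter_upwards [Measure.ae_ne volume y] with x hx
      have := hG0 x hx
      simp only [hG] at this
      linarith)
    rw [e1, e2]; linarith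
  -- (3)
  have h3 : ∫ x, G x ∂μ ≤ (∫ x in Metric.ball y r', rk q (x - y) ∂μ) +
      (r' ^ 2)⁻¹ * ∫ x, F x ∂μ := by
    rw [← integral_indicator measurableSet_ball, ← integral_const_mul,
      ← integral_add (irμ.indicator measurableSet_ball) (iFμ.const_mul _)]
    refine integral_mono_ae iGμ ((irμ.indicator measurableSet_ball).add (iFμ.const_mul _)) ?_
    filter_upwards [hy3] with x hx
    have a0 := hG0 x hx
    by_cases hxb : x ∈ Metric.ball y r'
    · simp only [indicator_of_mem hxb]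
      have a1 := hGle x
      have a2 : 0 ≤ (r' ^ 2)⁻¹ * F x := by
        simp only [hF]; positivity
      linarith
    · simp only [indicator_of_notMem hxb, zero_add]
      have a1 : r' ≤ ‖x - y‖ := by
        rw [← dist_eq_norm]; simpa using hxb
      have a2 : r' ^ 2 ≤ ‖x - y‖ ^ 2 := by gcongr
      have a3 : 1 ≤ (r' ^ 2)⁻¹ * ‖x - y‖ ^ 2 := by
        rw [le_inv_mul_iff₀ (by positivity), mul_one]; exact a2
      calc G x = 1 * G x := (one_mul _).symm
        _ ≤ ((r' ^ 2)⁻¹ * ‖x - y‖ ^ 2) * G x := mul_le_mul_of_nonneg_right a3 a0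
        _ = _ := by simp only [hF]; ring
  -- (4)
  have h4 : ∫ x, F x ∂ρ ≤ (∫ x in E, ‖x - y‖ ^ 2 * g x ∂ρ) + ∫ x in Eᶜ, ‖x - y‖ ^ q ∂ρ := by
    rw [← integral_add_compl hE iFρ]
    refine add_le_add (le_of_eq ?_) ?_
    · refine setIntegral_congr_fun hE fun x hx => ?_
      simp only [hF]; rw [hGE x hx]
    · refine setIntegral_mono iFρ.integrableOn iqρ.integrableOn fun x => ?_
      rw [hFe]
      have := mul_nonneg (sq_nonneg ‖x - y‖) (hd0 x)
      linarith
  -- (5)
  have h5 : 0 ≤ ∫ x, G x ∂ρ := integral_nonneg_of_ae (hyρ.mono fun x hx => hG0 x hx)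
  refine ⟨g, hgm, fun z hz => ⟨(hg1 z hz).1, hgb z hz⟩, fun x hx => ?_, ?_⟩
  · have := hg2 x hx; linarith
  · have h6 : (r' ^ 2)⁻¹ * ∫ x, F x ∂μ ≤ (r' ^ 2)⁻¹ *
        ((∫ x in E, ‖x - y‖ ^ 2 * g x ∂ρ) + ∫ x in Eᶜ, ‖x - y‖ ^ q ∂ρ) :=
      mul_le_mul_of_nonneg_left (h2.trans h4) (by positivity)
    linarith

/-- Uniform mass bound. -/
lemma mass_bound (hq0 : 0 < q) (hq1 : q < 1) {E : Set E3} (hE : MeasurableSet E)
    (hEb : Bornology.IsBounded E) (y : E3) :
    ∃ C : ℝ, 0 < C ∧ ∀ (N : ℝ) (_ : 0 < N) (g : E3 → ℝ) (_ : Measurable g) (B : ℝ)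
      (_ : ∀ z ∈ E, 0 ≤ g z ∧ g z ≤ B) (_ : ∀ x, x ≠ y → N * dpot q E g x ≤ rk q (x - y)),
      ∫ z in E, g z ≤ C / N := by
  set v : E3 := EuclideanSpace.single 0 1 with hv
  have hvn : ‖v‖ = 1 := by simp [hv]
  obtain ⟨R, hR⟩ := hEb.subset_ball (y + v)
  set D := max R 1 with hD
  have hD0 : 0 < D := lt_of_lt_of_le one_pos (le_max_right _ _)
  have hDp : 0 < D ^ (q - 2) := Real.rpow_pos_of_pos hD0 _
  refine ⟨(D ^ (q - 2))⁻¹, inv_pos.mpr hDp, fun N hN g hgm B hg hK => ?_⟩
  have hx0 : y + v ≠ y := by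
    intro h
    have : v = 0 := by simpa using h
    rw [this, norm_zero] at hvn
    exact zero_ne_one hvn
  have h1 := hK (y + v) hx0
  have h2 : rk q (y + v - y) = 1 := by simp [rk, hvn]
  rw [h2] at h1
  have hB : ∀ z ∈ E, |g z| ≤ B := fun z hz => by
    rw [abs_of_nonneg (hg z hz).1]; exact (hg z hz).2
  have hfin : volume E < ∞ := hEb.measure_lt_top
  have ig : IntegrableOn g E := by
    refine Measure.integrableOn_of_bounded hfin.ne hgm.aestronglyMeasurable (M := B) ?_
    rw [ae_restrict_iff' hE]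
    exact Eventually.of_forall fun z hz => hB z hz
  have h3 : D ^ (q - 2) * ∫ z in E, g z ≤ dpot q E g (y + v) := by
    unfold dpot
    rw [← integral_const_mul]
    refine integral_mono_ae (ig.const_mul _)
      (integrableOn_rk_mul hq0 hq1 hE hEb hgm hB _) ?_
    have hne : ∀ᵐ z ∂(volume.restrict E), z ≠ y + v :=
      ae_restrict_of_ae (Measure.ae_ne volume _)
    filter_upwards [hne, ae_restrict_mem hE] with z hz hzE
    refine mul_le_mul_of_nonneg_right ?_ (hg z hzE).1
    unfold rk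
    have a1 : 0 < ‖y + v - z‖ := norm_pos_iff.mpr (sub_ne_zero.mpr hz.symm)
    have a2 : ‖y + v - z‖ ≤ D := by
      have := hR hzE
      rw [Metric.mem_ball, dist_comm, dist_eq_norm] at this
      exact this.le.trans (le_max_left _ _)
    exact Real.rpow_le_rpow_of_nonpos a1 a2 (by linarith)
  rw [inv_eq_one_div, div_div, le_div_iff₀ (by positivity)]
  calc (∫ z in E, g z) * (D ^ (q - 2) * N) = N * (D ^ (q - 2) * ∫ z in E, g z) := by ring
    _ ≤ N * dpot q E g (y + v) := mul_le_mul_of_nonneg_left h3 hN.le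
    _ ≤ 1 := h1

/-- For large `N` the penalised Green function is small on `E` in `L¹(ρ)`. -/
lemma small_on (ρ : Measure E3) [IsProbabilityMeasure ρ] (hac : ρ ≪ volume) {E : Set E3}
    (hE : MeasurableSet E) (hEb : Bornology.IsBounded E) (y : E3) {C : ℝ} (hC : 0 < C)
    {B : ℝ} (hB0 : 0 < B) {η : ℝ} (hη : 0 < η) :
    ∃ N : ℝ, 0 < N ∧ ∀ g : E3 → ℝ, Measurable g → (∀ z ∈ E, 0 ≤ g z ∧ g z ≤ B) →
      ∫ z in E, g z ≤ C / N → ∫ x in E, ‖x - y‖ ^ 2 * g x ∂ρ ≤ η := by
  obtain ⟨R, hR⟩ := hEb.subset_ball y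
  set D := max R 1 with hD
  have hD0 : 0 < D := lt_of_lt_of_le one_pos (le_max_right _ _)
  have hfin : volume E < ∞ := hEb.measure_lt_top
  set s := η / (2 * D ^ 2) with hs
  have hs0 : 0 < s := by positivity
  -- absolute continuity
  have hρd : volume.withDensity (ρ.rnDeriv volume) = ρ := Measure.withDensity_rnDeriv_eq _ _ hac
  obtain ⟨δ, hδ, hδ2⟩ := exists_pos_setLIntegral_lt_of_measure_lt
    (f := ρ.rnDeriv volume) (μ := (volume : Measure E3))
    (Measure.lintegral_rnDeriv_lt_top ρ volume).ne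
    (ε := ENNReal.ofReal (s / B)) (by
      rw [ne_eq, ENNReal.ofReal_eq_zero, not_le]; positivity)
  obtain ⟨δ', hδ', hδ'δ⟩ : ∃ δ' : ℝ, 0 < δ' ∧ ENNReal.ofReal δ' < δ := by
    rcases eq_or_ne δ ∞ with h | h
    · exact ⟨1, one_pos, by rw [h]; exact ENNReal.ofReal_lt_top⟩
    · refine ⟨δ.toReal / 2, by have := ENNReal.toReal_pos hδ.ne' h; positivity, ?_⟩
      have := ENNReal.toReal_pos hδ.ne' h
      rw [ENNReal.ofReal_lt_iff_lt_toReal (by positivity) h]
      linarith
  refine ⟨C / (s * δ'), by positivity, fun g hgm hg hgN => ?_⟩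
  have hgN' : ∫ z in E, g z ≤ s * δ' := by
    refine hgN.trans (le_of_eq ?_)
    field_simp
  have hgA : ∀ z ∈ E, |g z| ≤ B := fun z hz => by
    rw [abs_of_nonneg (hg z hz).1]; exact (hg z hz).2
  have ig : IntegrableOn g E := by
    refine Measure.integrableOn_of_bounded hfin.ne hgm.aestronglyMeasurable (M := B) ?_
    rw [ae_restrict_iff' hE]
    exact Eventually.of_forall fun z hz => hgA z hz
  set S : Set E3 := {z | s ≤ g z} ∩ E with hS
  have hSm : MeasurableSet S := (measurableSet_le measurable_const hgm).inter hE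
  have hSv : volume S ≤ ENNReal.ofReal δ' := by
    have h1 := mul_meas_ge_le_integral_of_nonneg (μ := volume.restrict E) (f := g)
      (by
        rw [EventuallyLE, ae_restrict_iff' hE]
        exact Eventually.of_forall fun z hz => (hg z hz).1) ig s
    have h2 : (volume.restrict E).real {z | s ≤ g z} ≤ δ' := by
      have := h1.trans hgN'
      exact le_of_mul_le_mul_left this hs0
    have h3 : (volume.restrict E) {z | s ≤ g z} = volume S := by
      rw [Measure.restrict_apply (measurableSet_le measurable_const hgm)]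
    rw [Measure.real, h3] at h2
    have h4 : volume S ≠ ∞ := ((measure_mono inter_subset_right).trans_lt hfin).ne
    rw [← ENNReal.ofReal_toReal h4]
    exact ENNReal.ofReal_le_ofReal h2
  have hSρ : ρ.real S ≤ s / B := by
    have h1 := hδ2 S (lt_of_le_of_lt hSv hδ'δ)
    rw [← withDensity_apply _ hSm, hρd] at h1
    rw [Measure.real]
    exact ENNReal.toReal_le_of_le_ofReal (by positivity) h1.le
  have iS : Integrable (S.indicator (fun _ : E3 => B)) ρ := (integrable_const B).indicator hSm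
  calc ∫ x in E, ‖x - y‖ ^ 2 * g x ∂ρ
      ≤ ∫ x in E, D ^ 2 * (s + S.indicator (fun _ => B) x) ∂ρ := by
        refine setIntegral_mono_on ?_
          (((integrable_const s).add iS).const_mul _).integrableOn hE fun x hx => ?_
        · have hm : Measurable fun x : E3 => ‖x - y‖ ^ 2 * g x := by fun_prop
          refine Measure.integrableOn_of_bounded (measure_ne_top _ _)
            hm.aestronglyMeasurable (M := D ^ 2 * B) ?_
          rw [ae_restrict_iff' hE]
          refine Eventually.of_forall fun x hx => ?_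
          have h1 := hR hx
          rw [Metric.mem_ball, dist_eq_norm] at h1
          have h2 : ‖x - y‖ ≤ D := h1.le.trans (le_max_left _ _)
          rw [norm_mul, norm_pow, norm_norm, Real.norm_eq_abs]
          exact mul_le_mul (by gcongr) (hgA x hx) (abs_nonneg _) (by positivity)
        · have h1 := hR hx
          rw [Metric.mem_ball, dist_eq_norm] at h1
          have h2 : ‖x - y‖ ≤ D := h1.le.trans (le_max_left _ _)
          have h3 : g x ≤ s + S.indicator (fun _ => B) x := by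
            by_cases hxS : s ≤ g x
            · have : x ∈ S := ⟨hxS, hx⟩
              rw [indicator_of_mem this]
              linarith [(hg x hx).2]
            · have : x ∉ S := fun h => hxS h.1
              rw [indicator_of_notMem this]
              linarith
          exact mul_le_mul (by gcongr) h3 (hg x hx).1 (by positivity)
    _ ≤ ∫ x, D ^ 2 * (s + S.indicator (fun _ => B) x) ∂ρ := by
        refine setIntegral_le_integral (((integrable_const s).add iS).const_mul _) ?_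
        refine Eventually.of_forall fun x => ?_
        have : 0 ≤ S.indicator (fun _ => B) x := indicator_nonneg (fun _ _ => hB0.le) x
        simp only [Pi.zero_apply]
        positivity
    _ = D ^ 2 * (s + B * ρ.real S) := by
        rw [integral_const_mul, integral_add (integrable_const s) iS, integral_const,
          integral_indicator hSm, setIntegral_const]
        simp [mul_comm]
    _ ≤ D ^ 2 * (s + B * (s / B)) := by gcongr
    _ = η := by rw [hs]; field_simp; ring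

/-- The exhausting sets. -/
def TT (y : E3) (n : ℕ) : Set E3 :=
  (Metric.ball (0 : E3) (n + 1))ᶜ ∪ Metric.ball y (1 / ((n : ℝ) + 1))

lemma measurableSet_TT (y : E3) (n : ℕ) : MeasurableSet (TT y n) :=
  measurableSet_ball.compl.union measurableSet_ball

lemma antitone_TT (y : E3) : Antitone (TT y) := by
  intro m n hmn
  have hmn' : (m : ℝ) ≤ n := by exact_mod_cast hmn
  refine union_subset_union ?_ ?_
  · exact compl_subset_compl.mpr (Metric.ball_subset_ball (by linarith))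
  · refine Metric.ball_subset_ball ?_
    exact one_div_le_one_div_of_le (by positivity) (by linarith)

lemma iInter_TT (y : E3) : (⋂ n, TT y n) ⊆ {y} := by
  intro x hx
  rw [mem_iInter] at hx
  by_contra hxy
  have hxy' : 0 < dist x y := dist_pos.mpr hxy
  obtain ⟨n, hn⟩ := exists_nat_gt (max ‖x‖ (1 / dist x y))
  have hn1 : ‖x‖ < n := lt_of_le_of_lt (le_max_left _ _) hn
  have hn2 : 1 / dist x y < n := lt_of_le_of_lt (le_max_right _ _) hn
  rcases hx n with h1 | h1
  · apply h1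
    rw [mem_ball_zero_iff]; linarith
  · rw [Metric.mem_ball] at h1
    have h2 : 1 / ((n : ℝ) + 1) < dist x y := by
      rw [div_lt_comm₀ (by positivity) hxy']
      linarith
    linarith

lemma exists_exhaust (ρ : Measure E3) [IsProbabilityMeasure ρ] {f : E3 → ℝ}
    (hf : Integrable f ρ) (y : E3) (hyρ : ∀ᵐ z ∂ρ, z ≠ y) {A : Set E3}
    (hAm : MeasurableSet A) (hAρ : ∀ᵐ x ∂ρ, x ∈ A) {η : ℝ} (hη : 0 < η) :
    ∃ (E : Set E3) (r : ℝ), MeasurableSet E ∧ Bornology.IsBounded E ∧ E ⊆ A ∧ 0 < r ∧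
      (∀ x ∈ E, r ≤ ‖x - y‖) ∧ ∫ x in Eᶜ, f x ∂ρ ≤ η := by
  have hlim := tendsto_setIntegral_of_antitone (f := f) (μ := ρ) (measurableSet_TT y)
    (antitone_TT y) ⟨0, hf.integrableOn⟩
  have hInt : ∫ x in ⋂ n, TT y n, f x ∂ρ = 0 := by
    have hz : ρ (⋂ n, TT y n) = 0 := by
      refine measure_mono_null (iInter_TT y) ?_
      have := ae_iff.mp hyρ
      simpa using this
    rw [Measure.restrict_eq_zero.mpr hz]; simp
  rw [hInt] at hlim
  obtain ⟨n, hn⟩ := (hlim.eventually (gt_mem_nhds hη)).exists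
  refine ⟨A ∩ (TT y n)ᶜ, 1 / ((n : ℝ) + 1), hAm.inter (measurableSet_TT y n).compl, ?_,
    inter_subset_left, by positivity, ?_, ?_⟩
  · refine (Metric.isBounded_ball (x := (0 : E3)) (r := (n : ℝ) + 1)).subset fun x hx => ?_
    have := hx.2
    simp only [TT, compl_union, compl_compl] at this
    exact this.1
  · intro x hx
    have h1 := hx.2
    simp only [TT, compl_union, compl_compl] at h1
    have h2 := h1.2
    rw [mem_compl_iff, Metric.mem_ball, not_lt, dist_eq_norm] at h2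
    exact h2
  · have e1 : ∫ x in (A ∩ (TT y n)ᶜ)ᶜ, f x ∂ρ = ∫ x in TT y n, f x ∂ρ := by
      refine setIntegral_congr_set ?_
      filter_upwards [hAρ] with x hx
      apply propext
      constructor
      · intro h
        by_contra hc
        exact h ⟨hx, hc⟩
      · intro h hc
        exact hc.2 h
    rw [e1]; exact hn.le

lemma tendsto_ball (μ : Measure E3) {f : E3 → ℝ} (hf : Integrable f μ) (y : E3)
    (hy : ∀ᵐ z ∂μ, z ≠ y) :
    Tendsto (fun n : ℕ => ∫ x in Metric.ball y (1 / ((n : ℝ) + 1)), f x ∂μ) atTop (𝓝 0) := by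
  have hball := tendsto_setIntegral_of_antitone (f := f) (μ := μ)
    (s := fun n : ℕ => Metric.ball y (1 / ((n : ℝ) + 1))) (fun n => measurableSet_ball)
    (fun m n hmn => Metric.ball_subset_ball
      (one_div_le_one_div_of_le (by positivity) (by
        have : (m : ℝ) ≤ n := by exact_mod_cast hmn
        linarith))) ⟨0, hf.integrableOn⟩
  have hz : ∫ x in ⋂ n : ℕ, Metric.ball y (1 / ((n : ℝ) + 1)), f x ∂μ = 0 := by
    have hsub : (⋂ n : ℕ, Metric.ball y (1 / ((n : ℝ) + 1))) ⊆ {y} := by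
      intro x hx
      rw [mem_iInter] at hx
      by_contra hxy
      have hxy' : 0 < dist x y := dist_pos.mpr hxy
      obtain ⟨n, hn⟩ := exists_nat_gt (1 / dist x y)
      have h1 := hx n
      rw [Metric.mem_ball] at h1
      have h2 : 1 / ((n : ℝ) + 1) < dist x y := by
        rw [div_lt_comm₀ (by positivity) hxy']
        linarith
      linarith
    have hz : μ (⋂ n : ℕ, Metric.ball y (1 / ((n : ℝ) + 1))) = 0 := by
      refine measure_mono_null hsub ?_
      have := ae_iff.mp hy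
      simpa using this
    rw [Measure.restrict_eq_zero.mpr hz]; simp
  rw [hz] at hball
  exact hball

/-- The pointwise upper bound. -/
lemma pot_sub_le (hq0 : 0 < q) (hq1 : q < 1) (μ ρ : Measure E3)
    [IsProbabilityMeasure μ] [IsProbabilityMeasure ρ]
    (hμ : Integrable (fun x => ‖x‖ ^ q) μ) (hρ : Integrable (fun x => ‖x‖ ^ q) ρ)
    (hac : ρ ≪ volume) (hw : ∀ᵐ x : E3, pot q ρ x ≤ pot q μ x) {A : Set E3}
    (hAm : MeasurableSet A) (hAρ : ∀ᵐ x ∂ρ, x ∈ A)
    (hwA : ∀ᵐ z ∂(volume.restrict A), pot q μ z = pot q ρ z)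
    (hvA : ∀ᵐ z ∂(volume.restrict A), vpot q μ z = vpot q ρ z) (y : E3)
    (hy1 : Integrable (fun z => rk q (y - z)) μ) (hy2 : Integrable (fun z => rk q (y - z)) ρ)
    (hy3 : ∀ᵐ z ∂μ, z ≠ y) {r' : ℝ} (hr' : 0 < r') :
    pot q μ y - pot q ρ y ≤ ∫ x in Metric.ball y r', rk q (x - y) ∂μ := by
  have hyρ : ∀ᵐ z ∂ρ, z ≠ y := hac.ae_le (Measure.ae_ne volume y)
  have iqρ : Integrable (fun x => ‖x - y‖ ^ q) ρ :=
    (IdentAux.integrable_qn hq0 hq1 hρ y).congr
      (Eventually.of_forall fun z => by simp only [norm_sub_rev])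
  refine le_of_forall_pos_le_add fun η hη => ?_
  have hη'0 : 0 < η * r' ^ 2 / 2 := by positivity
  obtain ⟨E, r, hEm, hEb, hEA, hr0, hEy, b2⟩ :=
    exists_exhaust ρ iqρ y hyρ hAm hAρ hη'0
  have hwE : ∀ᵐ z ∂(volume.restrict E), pot q μ z = pot q ρ z :=
    ae_restrict_of_ae_restrict_of_subset hEA hwA
  have hvE : ∀ᵐ z ∂(volume.restrict E), vpot q μ z = vpot q ρ z :=
    ae_restrict_of_ae_restrict_of_subset hEA hvA
  obtain ⟨C, hC, hCm⟩ := mass_bound hq0 hq1 hEm hEb y
  have hb0 : 0 < r ^ (q - 2) := Real.rpow_pos_of_pos hr0 _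
  obtain ⟨N, hN, hNs⟩ := small_on ρ hac hEm hEb y hC hb0 hη'0
  obtain ⟨g, hgm, hg1, hg2, hg3⟩ := core hq0 hq1 μ ρ hμ hρ hac hw hEm hEb hwE hvE y
    hy1 hy2 hy3 hr0 hEy hN hr'
  have b1 := hNs g hgm hg1 (hCm N hN g hgm _ hg1 hg2)
  have b3 : (r' ^ 2)⁻¹ * ((∫ x in E, ‖x - y‖ ^ 2 * g x ∂ρ) +
      ∫ x in Eᶜ, ‖x - y‖ ^ q ∂ρ) ≤ (r' ^ 2)⁻¹ * (η * r' ^ 2 / 2 + η * r' ^ 2 / 2) :=
    mul_le_mul_of_nonneg_left (add_le_add b1 b2) (by positivity)
  have b4 : (r' ^ 2)⁻¹ * (η * r' ^ 2 / 2 + η * r' ^ 2 / 2) = η := by field_simp; ring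
  linarith

theorem rigidity {q : ℝ} (hq0 : 0 < q) (hq1 : q < 1) (μ ρ : Measure E3)
    [IsProbabilityMeasure μ] [IsProbabilityMeasure ρ]
    (hμ : Integrable (fun x => ‖x‖ ^ q) μ) (hρ : Integrable (fun x => ‖x‖ ^ q) ρ)
    (hac : ρ ≪ volume) (h : ∀ᵐ x ∂ρ, vpot q ρ x = vpot q μ x) : ρ = μ := by
  have hρd : volume.withDensity (ρ.rnDeriv volume) = ρ := Measure.withDensity_rnDeriv_eq _ _ hac
  have hdm : Measurable (ρ.rnDeriv volume) := Measure.measurable_rnDeriv _ _
  set A : Set E3 := {x | ρ.rnDeriv volume x ≠ 0} with hA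
  have hAm : MeasurableSet A := (hdm (measurableSet_singleton 0)).compl
  -- transfer between `ρ` and Lebesgue measure on `A`
  have hup : ∀ p : E3 → Prop, (∀ᵐ x ∂ρ, p x) → ∀ᵐ x ∂(volume.restrict A), p x := by
    intro p hp
    rw [← hρd, ae_withDensity_iff hdm] at hp
    rw [ae_restrict_iff' hAm]
    exact hp
  have hdown : ∀ p : E3 → Prop, (∀ᵐ x ∂(volume.restrict A), p x) → ∀ᵐ x ∂ρ, p x := by
    intro p hp
    rw [ae_restrict_iff' hAm] at hp
    rw [← hρd, ae_withDensity_iff hdm]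
    exact hp
  have hvA : ∀ᵐ x ∂(volume.restrict A), vpot q μ x = vpot q ρ x :=
    hup _ (h.mono fun x hx => hx.symm)
  have hwA : ∀ᵐ x ∂(volume.restrict A), pot q μ x = pot q ρ x :=
    pot_eq_of_vpot_eq hq0 hq1 μ ρ hAm hvA
  have hAρ : ∀ᵐ x ∂ρ, x ∈ A := hdown _ (ae_restrict_mem hAm)
  -- `w ≥ 0`
  have hw : ∀ᵐ x : E3, pot q ρ x ≤ pot q μ x :=
    domination hq0 hq1 μ ρ hac (hdown _ (hwA.mono fun x hx => hx.ge))
  -- `w ≤ 0`
  have hw2 : ∀ᵐ y : E3, pot q μ y ≤ pot q ρ y := by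
    filter_upwards [ae_integrable_rk hq0 hq1 μ, ae_integrable_rk hq0 hq1 ρ, ae_ae_ne μ]
      with y hy1 hy2 hy3'
    have hy3 : ∀ᵐ z ∂μ, z ≠ y := hy3'.mono fun z hz h => hz (by rw [h, sub_self])
    have irμ : Integrable (fun x => rk q (x - y)) μ :=
      hy1.congr (Eventually.of_forall fun z => rk_sub_comm q y z)
    have hball := tendsto_ball μ irμ y hy3
    have h3 := ge_of_tendsto' hball fun n => pot_sub_le hq0 hq1 μ ρ hμ hρ hac hw hAm hAρ
      hwA hvA y hy1 hy2 hy3 (r' := 1 / ((n : ℝ) + 1)) (by positivity)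
    linarith
  have heq : ∀ᵐ x : E3, pot q ρ x = pot q μ x := by
    filter_upwards [hw, hw2] with x h1 h2
    exact le_antisymm h1 h2
  exact eq_of_pot_eq hq0 hq1 ρ μ heq

end Pool.Agent.LagRig
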