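import Pool.Agent.LagRig.Dom

open MeasureTheory Set Filter Topology
open scoped Real ENNReal BoundedContinuousFunction

noncomputable section

namespace Pool.Agent.LagRig

variable {q : ℝ} {E : Set E3}

/-- The measure with density `h⁺` on `E`. -/
def dm (E : Set E3) (h : E3 → ℝ) : Measure E3 :=
  (volume.restrict E).withDensity fun z => ENNReal.ofReal (h z)

lemma dm_ac (E : Set E3) (h : E3 → ℝ) : dm E h ≪ volume :=
  (withDensity_absolutelyContinuous _ _).trans Measure.absolutelyContinuous_restrict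

lemma dm_finite (hEb : Bornology.IsBounded E) {h : E3 → ℝ} {B : ℝ}
    (hE : MeasurableSet E) (hB : ∀ z ∈ E, h z ≤ B) : IsFiniteMeasure (dm E h) := by
  refine isFiniteMeasure_withDensity ?_
  have hfin : volume E < ∞ := hEb.measure_lt_top
  have h1 : ∫⁻ z in E, ENNReal.ofReal (h z) ≤ ∫⁻ _ in E, ENNReal.ofReal B := by
    refine setLIntegral_mono' hE fun z hz => ENNReal.ofReal_le_ofReal (hB z hz)
  refine (h1.trans_lt ?_).ne
  rw [setLIntegral_const]
  exact ENNReal.mul_lt_top ENNReal.ofReal_lt_top hfin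

lemma integral_dm (h : E3 → ℝ) (hh : Measurable h) (φ : E3 → ℝ) :
    ∫ z, φ z ∂(dm E h) = ∫ z in E, max (h z) 0 * φ z := by
  unfold dm
  rw [integral_withDensity_eq_integral_toReal_smul (by fun_prop)
    (Eventually.of_forall fun z => ENNReal.ofReal_lt_top)]
  refine integral_congr_ae (Eventually.of_forall fun z => ?_)
  simp only [ENNReal.toReal_ofReal', smul_eq_mul]

lemma ae_dm {h : E3 → ℝ} (hh : Measurable h) (hE : MeasurableSet E) :
    ∀ᵐ x ∂(dm E h), x ∈ E ∧ 0 < h x := by
  unfold dm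
  rw [ae_withDensity_iff (by fun_prop), ae_restrict_iff' hE]
  refine Eventually.of_forall fun x hx hne => ⟨hx, ?_⟩
  by_contra hc
  exact hne (ENNReal.ofReal_of_nonpos (not_lt.mp hc))

/-- difference of the potentials of positive and negative parts -/
lemma pot_dm_sub (hq0 : 0 < q) (hq1 : q < 1) (hE : MeasurableSet E)
    (hEb : Bornology.IsBounded E) {h : E3 → ℝ} (hh : Measurable h) {B : ℝ}
    (hB : ∀ z ∈ E, |h z| ≤ B) (x : E3) :
    pot q (dm E h) x - pot q (dm E (fun z => -h z)) x = dpot q E h x := by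
  unfold pot dpot
  rw [integral_dm h hh, integral_dm (fun z => -h z) hh.neg]
  have i1 : IntegrableOn (fun z => rk q (x - z) * max (h z) 0) E :=
    integrableOn_rk_mul hq0 hq1 hE hEb (hh.max measurable_const) (B := B)
      (fun z hz => (abs_le.mpr ⟨by
        have := (abs_nonneg (h z)).trans (hB z hz)
        have := le_max_right (h z) 0; linarith,
        max_le ((le_abs_self _).trans (hB z hz)) ((abs_nonneg _).trans (hB z hz))⟩)) x
  have hn : Measurable (fun z => max (-h z) 0) := by fun_prop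
  have i2 : IntegrableOn (fun z => rk q (x - z) * max (-h z) 0) E :=
    integrableOn_rk_mul hq0 hq1 hE hEb hn (B := B)
      (fun z hz => (abs_le.mpr ⟨by
        have := (abs_nonneg (h z)).trans (hB z hz)
        have := le_max_right (-h z) 0; linarith,
        max_le ((neg_le_abs _).trans (hB z hz)) ((abs_nonneg _).trans (hB z hz))⟩)) x
  have e1 : (fun z => max (h z) 0 * rk q (x - z)) = fun z => rk q (x - z) * max (h z) 0 := by
    ext z; ring
  have e2 : (fun z => max (-h z) 0 * rk q (x - z)) = fun z => rk q (x - z) * max (-h z) 0 := by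
    ext z; ring
  rw [e1, e2, ← integral_sub i1 i2]
  refine integral_congr_ae (Eventually.of_forall fun z => ?_)
  simp only
  rw [← mul_sub]
  congr 1
  rcases le_total 0 (h z) with h0 | h0
  · rw [max_eq_left h0, max_eq_right (by linarith)]; ring
  · rw [max_eq_right h0, max_eq_left (by linarith)]; ring

lemma nonneg_of_ae {f : E3 → ℝ} {U : Set E3} (hU : IsOpen U) (hf : ContinuousOn f U)
    (h : ∀ᵐ x : E3, 0 ≤ f x) : ∀ x ∈ U, 0 ≤ f x := by
  intro x hx
  by_contra hc
  have ho : IsOpen (U ∩ f ⁻¹' (Iio 0)) := hf.isOpen_inter_preimage hU isOpen_Iio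
  have hne : (U ∩ f ⁻¹' (Iio 0)).Nonempty := ⟨x, hx, not_le.mp hc⟩
  have hpos := ho.measure_pos (volume : Measure E3) hne
  have hz : volume (U ∩ f ⁻¹' (Iio 0)) = 0 := by
    refine measure_mono_null ?_ (ae_iff.mp h)
    intro y hy
    exact not_le.mpr hy.2
  exact hpos.ne' hz

/-- The data of a bounded measurable set. -/
structure Dat (q : ℝ) (E : Set E3) : Prop where
  hq0 : 0 < q
  hq1 : q < 1
  hE : MeasurableSet E
  hEb : Bornology.IsBounded E

namespace Dat

variable (D : Dat q E)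
include D

/-- Bound of the operator. -/
def M : ℝ := Classical.choose (exists_setIntegral_bound D.hq0 D.hq1 D.hE D.hEb)

lemma M_pos : 0 < D.M :=
  (Classical.choose_spec (exists_setIntegral_bound D.hq0 D.hq1 D.hE D.hEb)).1

lemma M_spec (x : E3) : IntegrableOn (fun z => rk q (x - z)) E ∧
    ∫ z in E, rk q (x - z) ≤ D.M :=
  (Classical.choose_spec (exists_setIntegral_bound D.hq0 D.hq1 D.hE D.hEb)).2 x

lemma int_mul (f : E3 →ᵇ ℝ) (x : E3) : IntegrableOn (fun z => rk q (x - z) * f z) E :=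
  integrableOn_rk_mul D.hq0 D.hq1 D.hE D.hEb f.continuous.measurable
    (fun z _ => f.norm_coe_le_norm z) x

lemma bound (f : E3 →ᵇ ℝ) (x : E3) : ‖dpot q E f x‖ ≤ D.M * ‖f‖ := by
  unfold dpot
  calc ‖∫ z in E, rk q (x - z) * f z‖ ≤ ∫ z in E, ‖rk q (x - z) * f z‖ :=
        norm_integral_le_integral_norm _
    _ ≤ ∫ z in E, rk q (x - z) * ‖f‖ := by
        refine integral_mono (D.int_mul f x).norm ((D.M_spec x).1.mul_const _) fun z => ?_
        simp only
        rw [norm_mul, Real.norm_of_nonneg (rk_nonneg _ _)]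
        exact mul_le_mul_of_nonneg_left (f.norm_coe_le_norm z) (rk_nonneg _ _)
    _ = (∫ z in E, rk q (x - z)) * ‖f‖ := integral_mul_const _ _
    _ ≤ D.M * ‖f‖ := mul_le_mul_of_nonneg_right (D.M_spec x).2 (norm_nonneg _)

/-- The potential operator on bounded continuous functions. -/
def T (f : E3 →ᵇ ℝ) : E3 →ᵇ ℝ :=
  BoundedContinuousFunction.ofNormedAddCommGroup (dpot q E f)
    (continuous_dpot D.hq0 D.hq1 D.hE D.hEb f.continuous.measurable
      (fun z _ => f.norm_coe_le_norm z)) (D.M * ‖f‖) (D.bound f)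

lemma T_apply (f : E3 →ᵇ ℝ) (x : E3) : D.T f x = dpot q E f x := rfl

lemma norm_T (f : E3 →ᵇ ℝ) : ‖D.T f‖ ≤ D.M * ‖f‖ :=
  BoundedContinuousFunction.norm_ofNormedAddCommGroup_le _
    (mul_nonneg D.M_pos.le (norm_nonneg _)) _

lemma T_sub (f g : E3 →ᵇ ℝ) : D.T (f - g) = D.T f - D.T g := by
  ext x
  rw [BoundedContinuousFunction.sub_apply, T_apply, T_apply, T_apply]
  unfold dpot
  rw [← integral_sub (D.int_mul f x) (D.int_mul g x)]
  refine integral_congr_ae (Eventually.of_forall fun z => ?_)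
  simp [mul_sub]

lemma T_add (f g : E3 →ᵇ ℝ) : D.T (f + g) = D.T f + D.T g := by
  ext x
  rw [BoundedContinuousFunction.add_apply, T_apply, T_apply, T_apply]
  unfold dpot
  rw [← integral_add (D.int_mul f x) (D.int_mul g x)]
  refine integral_congr_ae (Eventually.of_forall fun z => ?_)
  simp [mul_add]

lemma T_smul (c : ℝ) (f : E3 →ᵇ ℝ) : D.T (c • f) = c • D.T f := by
  ext x
  rw [BoundedContinuousFunction.smul_apply, T_apply, T_apply, smul_eq_mul]
  unfold dpot
  rw [← integral_const_mul]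
  refine integral_congr_ae (Eventually.of_forall fun z => ?_)
  simp only [BoundedContinuousFunction.smul_apply, smul_eq_mul]
  ring

lemma T_nonneg (f : E3 →ᵇ ℝ) (hf : ∀ x, 0 ≤ f x) (x : E3) : 0 ≤ D.T f x := by
  rw [T_apply]
  exact integral_nonneg fun z => mul_nonneg (rk_nonneg _ _) (hf z)

/-- Positivity. -/
lemma pos {N : ℝ} (hN : 0 ≤ N) (φ ψ : E3 →ᵇ ℝ) (hφ : ∀ x, 0 ≤ φ x)
    (h : ψ = D.T (φ - N • ψ)) : ∀ x, 0 ≤ ψ x := by
  set k : E3 →ᵇ ℝ := φ - N • ψ with hk
  have hkm : Measurable k := k.continuous.measurable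
  have hkB : ∀ z ∈ E, |k z| ≤ ‖k‖ := fun z _ => k.norm_coe_le_norm z
  have f1 : IsFiniteMeasure (dm E k) :=
    dm_finite D.hEb D.hE (B := ‖k‖) fun z hz => (le_abs_self _).trans (hkB z hz)
  have f2 : IsFiniteMeasure (dm E (fun z => -k z)) :=
    dm_finite D.hEb D.hE (B := ‖k‖) fun z hz => (neg_le_abs _).trans (hkB z hz)
  have hsub : ∀ x, pot q (dm E k) x - pot q (dm E (fun z => -k z)) x = ψ x := by
    intro x
    rw [pot_dm_sub D.hq0 D.hq1 D.hE D.hEb hkm hkB x, ← D.T_apply, ← h]
  have hae : ∀ᵐ x : E3, 0 ≤ ψ x := by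
    have h1 := domination D.hq0 D.hq1 (dm E k) (dm E (fun z => -k z)) (dm_ac _ _) (by
      filter_upwards [ae_dm (E := E) (h := fun z => -k z) hkm.neg D.hE] with x ⟨_, hx⟩
      have h2 : k x < 0 := by linarith
      have h3 : k x = φ x - N * ψ x := by simp [hk]
      have h4 : 0 < N * ψ x := by have := hφ x; linarith
      have h5 : 0 ≤ ψ x := by
        by_contra hc
        have := mul_nonpos_of_nonneg_of_nonpos hN (not_le.mp hc).le
        linarith
      have := hsub x
      linarith)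
    filter_upwards [h1] with x hx
    have := hsub x
    linarith
  exact fun x => nonneg_of_ae isOpen_univ ψ.continuous.continuousOn hae x (mem_univ x)

/-- Solvability of the equation with parameter `N`. -/
def Solv (N : ℝ) : Prop := ∀ f : E3 →ᵇ ℝ, ∃ ψ : E3 →ᵇ ℝ, ψ + N • D.T ψ = f

lemma bd {N : ℝ} (hN : 0 ≤ N) (hS : D.Solv N) (φ ψ : E3 →ᵇ ℝ)
    (h : ψ = D.T (φ - N • ψ)) : ‖ψ‖ ≤ D.M * ‖φ‖ := by
  set c : E3 →ᵇ ℝ := BoundedContinuousFunction.const E3 ‖φ‖ with hc
  obtain ⟨χ, hχ⟩ := hS (D.T c)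
  have hχ' : χ = D.T (c - N • χ) := by
    rw [T_sub, T_smul, ← hχ]; abel
  have hc0 : ∀ x, 0 ≤ c x := fun x => by simp [hc]
  have hχ0 := D.pos hN c χ hc0 hχ'
  have h1 : ∀ x, 0 ≤ (χ - ψ) x := by
    refine D.pos hN (c - φ) (χ - ψ) (fun x => ?_) ?_
    · have := (le_abs_self _).trans (φ.norm_coe_le_norm x)
      simp only [BoundedContinuousFunction.sub_apply, hc, BoundedContinuousFunction.const_apply]
      linarith
    · have e : c - φ - N • (χ - ψ) = (c - N • χ) - (φ - N • ψ) := by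
        rw [smul_sub]; abel
      rw [e, T_sub, ← hχ', ← h]
  have h2 : ∀ x, 0 ≤ (χ + ψ) x := by
    refine D.pos hN (c + φ) (χ + ψ) (fun x => ?_) ?_
    · have := (neg_abs_le _).trans' (neg_le_neg (φ.norm_coe_le_norm x))
      simp only [BoundedContinuousFunction.add_apply, hc, BoundedContinuousFunction.const_apply]
      linarith
    · have e : c + φ - N • (χ + ψ) = (c - N • χ) + (φ - N • ψ) := by
        rw [smul_add]; abel
      rw [e, T_add, ← hχ', ← h]
  have h3 : ∀ x, χ x ≤ D.M * ‖φ‖ := by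
    intro x
    have e1 : χ x + N * D.T χ x = D.T c x := by
      have := congrArg (fun f : E3 →ᵇ ℝ => f x) hχ
      simpa using this
    have e2 : 0 ≤ N * D.T χ x := mul_nonneg hN (D.T_nonneg χ hχ0 x)
    have e3 : D.T c x ≤ D.M * ‖c‖ := (le_abs_self _).trans
      (((D.T c).norm_coe_le_norm x).trans (D.norm_T c))
    have e4 : ‖c‖ ≤ ‖φ‖ := by
      rw [hc]; exact (BoundedContinuousFunction.norm_const_le _).trans (by simp)
    have e5 : D.M * ‖c‖ ≤ D.M * ‖φ‖ := mul_le_mul_of_nonneg_left e4 D.M_pos.le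
    linarith
  rw [BoundedContinuousFunction.norm_le (mul_nonneg D.M_pos.le (norm_nonneg _))]
  intro x
  rw [Real.norm_eq_abs, abs_le]
  have a1 := h1 x
  have a2 := h2 x
  have a3 := h3 x
  simp only [BoundedContinuousFunction.sub_apply] at a1
  simp only [BoundedContinuousFunction.add_apply] at a2
  constructor <;> linarith

lemma solv_zero : D.Solv 0 := fun f => ⟨f, by simp⟩

lemma solv_add {N δ : ℝ} (hN : 0 ≤ N) (hδ : 0 ≤ δ) (hδM : δ * D.M ≤ 1 / 2)
    (hS : D.Solv N) : D.Solv (N + δ) := by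
  intro f
  choose R hR using hS
  have hlip : LipschitzWith (1 / 2) (fun φ : E3 →ᵇ ℝ => R f - δ • R (D.T φ)) := by
    refine LipschitzWith.of_dist_le_mul fun φ₁ φ₂ => ?_
    rw [dist_eq_norm, dist_eq_norm]
    have e1 : (R f - δ • R (D.T φ₁)) - (R f - δ • R (D.T φ₂))
        = -(δ • (R (D.T φ₁) - R (D.T φ₂))) := by rw [smul_sub]; abel
    rw [e1, norm_neg, norm_smul, Real.norm_of_nonneg hδ]
    have e2 : R (D.T φ₁) - R (D.T φ₂)
        = D.T ((φ₁ - φ₂) - N • (R (D.T φ₁) - R (D.T φ₂))) := by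
      rw [T_sub, T_smul, T_sub, T_sub, smul_sub]
      have a := hR (D.T φ₁)
      have b := hR (D.T φ₂)
      calc R (D.T φ₁) - R (D.T φ₂) = (R (D.T φ₁) + N • D.T (R (D.T φ₁)))
            - (R (D.T φ₂) + N • D.T (R (D.T φ₂)))
            - (N • D.T (R (D.T φ₁)) - N • D.T (R (D.T φ₂))) := by abel
        _ = _ := by rw [a, b]
    have hS' : D.Solv N := fun g => ⟨R g, hR g⟩
    have e3 := D.bd hN hS' (φ₁ - φ₂) _ e2
    calc δ * ‖R (D.T φ₁) - R (D.T φ₂)‖ ≤ δ * (D.M * ‖φ₁ - φ₂‖) := by gcongr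
      _ = (δ * D.M) * ‖φ₁ - φ₂‖ := by ring
      _ ≤ (1 / 2) * ‖φ₁ - φ₂‖ := by gcongr
      _ = _ := by norm_num
  have hcontr : ContractingWith (1 / 2) (fun φ : E3 →ᵇ ℝ => R f - δ • R (D.T φ)) :=
    ⟨by
      rw [← NNReal.coe_lt_coe]; norm_num, hlip⟩
  set φ := hcontr.fixedPoint with hφdef
  have hφ : R f - δ • R (D.T φ) = φ := hcontr.fixedPoint_isFixedPt
  refine ⟨φ, ?_⟩
  have a := hR f
  have b := hR (D.T φ)
  have h1 : φ + N • D.T φ = f - δ • D.T φ := by
    calc φ + N • D.T φ = (R f - δ • R (D.T φ)) + N • D.T (R f - δ • R (D.T φ)) := by rw [hφ]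
      _ = (R f + N • D.T (R f)) - δ • (R (D.T φ) + N • D.T (R (D.T φ))) := by
          rw [T_sub, T_smul, smul_sub, smul_add, smul_comm δ N]; abel
      _ = f - δ • D.T φ := by rw [a, b]
  rw [add_smul, ← add_assoc, h1]
  abel

lemma solv {N : ℝ} (hN : 0 ≤ N) : D.Solv N := by
  obtain ⟨n, hn⟩ := exists_nat_gt (2 * N * D.M)
  have hn0 : (0 : ℝ) < n := lt_of_le_of_lt (by have := D.M_pos; positivity) hn
  have hδ : 0 ≤ N / n := by positivity
  have hδM : N / n * D.M ≤ 1 / 2 := by
    rw [div_mul_eq_mul_div, div_le_iff₀ hn0]; linarith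
  have key : ∀ k : ℕ, D.Solv (k * (N / n)) := by
    intro k
    induction k with
    | zero => simpa using D.solv_zero
    | succ k ih =>
      have := D.solv_add (N := k * (N / n)) (by positivity) hδ hδM ih
      have e : ((k + 1 : ℕ) : ℝ) * (N / n) = k * (N / n) + N / n := by push_cast; ring
      rw [e]; exact this
  have := key n
  rwa [mul_div_cancel₀ _ hn0.ne'] at this

end Dat

lemma pot_add_of {τ₁ τ₂ : Measure E3} {x : E3} (h1 : Integrable (fun z => rk q (x - z)) τ₁)
    (h2 : Integrable (fun z => rk q (x - z)) τ₂) :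
    pot q (τ₁ + τ₂) x = pot q τ₁ x + pot q τ₂ x := by
  unfold pot
  exact integral_add_measure h1 h2

lemma pot_dirac (y x : E3) : pot q (Measure.dirac y) x = rk q (x - y) := by
  unfold pot
  exact integral_dirac _ y

lemma integrable_dm (hq0 : 0 < q) (hq1 : q < 1) (hE : MeasurableSet E)
    (hEb : Bornology.IsBounded E) {h : E3 → ℝ} (hh : Measurable h) {B : ℝ}
    (hB : ∀ z ∈ E, |h z| ≤ B) (x : E3) : Integrable (fun z => rk q (x - z)) (dm E h) := by
  unfold dm
  have hn : Measurable (fun z => max (h z) 0) := by fun_prop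
  rw [integrable_withDensity_iff_integrable_smul' (by fun_prop)
    (Eventually.of_forall fun z => ENNReal.ofReal_lt_top)]
  have i1 : IntegrableOn (fun z => rk q (x - z) * max (h z) 0) E :=
    integrableOn_rk_mul hq0 hq1 hE hEb hn (B := B)
      (fun z hz => (abs_le.mpr ⟨by
        have := (abs_nonneg (h z)).trans (hB z hz)
        have := le_max_right (h z) 0; linarith,
        max_le ((le_abs_self _).trans (hB z hz)) ((abs_nonneg _).trans (hB z hz))⟩)) x
  refine i1.congr (Eventually.of_forall fun z => ?_)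
  simp only [ENNReal.toReal_ofReal', smul_eq_mul]
  ring

/-- The penalised Green function. -/
theorem exists_green {q : ℝ} (hq0 : 0 < q) (hq1 : q < 1) {E : Set E3}
    (hE : MeasurableSet E) (hEb : Bornology.IsBounded E) (y : E3) {r : ℝ} (hr : 0 < r)
    (hEy : ∀ x ∈ E, r ≤ ‖x - y‖) {N : ℝ} (hN : 0 < N) :
    ∃ g : E3 → ℝ, Measurable g ∧ (∀ z ∈ E, 0 ≤ g z ∧ g z ≤ rk q (z - y)) ∧
      (∀ x, x ≠ y → 0 ≤ rk q (x - y) - N * dpot q E g x) ∧
      (∀ x ∈ E, g x = rk q (x - y) - N * dpot q E g x) := by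
  have D : Dat q E := ⟨hq0, hq1, hE, hEb⟩
  have hrk := measurable_rk q
  -- the regularised right-hand side
  have hbc : Continuous (fun x : E3 => (max ‖x - y‖ r) ^ (q - 2)) := by
    refine Continuous.rpow_const (by fun_prop) fun x => Or.inl ?_
    exact (lt_of_lt_of_le hr (le_max_right _ _)).ne'
  set b : E3 →ᵇ ℝ := BoundedContinuousFunction.ofNormedAddCommGroup
    (fun x : E3 => (max ‖x - y‖ r) ^ (q - 2)) hbc (r ^ (q - 2)) (fun x => by
      have h1 : 0 < max ‖x - y‖ r := lt_of_lt_of_le hr (le_max_right _ _)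
      rw [Real.norm_of_nonneg (Real.rpow_nonneg h1.le _)]
      exact Real.rpow_le_rpow_of_nonpos hr (le_max_right _ _) (by linarith)) with hb
  have hbE : ∀ x ∈ E, b x = rk q (x - y) := by
    intro x hx
    have h1 : max ‖x - y‖ r = ‖x - y‖ := max_eq_left (hEy x hx)
    simp [hb, rk, h1]
  obtain ⟨ψ, hψ⟩ := D.solv hN.le b
  have hψx : ∀ x, ψ x + N * dpot q E ψ x = b x := by
    intro x
    have h1 := congrArg (fun f : E3 →ᵇ ℝ => f x) hψ
    simp only [BoundedContinuousFunction.add_apply, BoundedContinuousFunction.smul_apply,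
      smul_eq_mul, D.T_apply] at h1
    exact h1
  set g : E3 → ℝ := fun x => rk q (x - y) - N * dpot q E ψ x with hg
  have hψm : Measurable ψ := ψ.continuous.measurable
  have hψB : ∀ z ∈ E, |ψ z| ≤ ‖ψ‖ := fun z _ => ψ.norm_coe_le_norm z
  have hdc : Continuous (dpot q E ψ) := continuous_dpot hq0 hq1 hE hEb hψm hψB
  have hgE : ∀ x ∈ E, g x = ψ x := by
    intro x hx
    simp only [hg]
    rw [← hbE x hx]
    linarith [hψx x]
  have hgm : Measurable g := by
    have := hdc.measurable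
    simp only [hg]
    fun_prop
  have hdg : ∀ x, dpot q E g x = dpot q E ψ x := by
    intro x
    unfold dpot
    refine setIntegral_congr_fun hE fun z hz => ?_
    rw [hgE z hz]
  -- positivity
  set k : E3 → ℝ := fun z => -(N * ψ z) with hk
  have hkm : Measurable k := by simp only [hk]; fun_prop
  have hkB : ∀ z ∈ E, |k z| ≤ N * ‖ψ‖ := fun z hz => by
    simp only [hk]
    rw [abs_neg, abs_mul, abs_of_pos hN]
    exact mul_le_mul_of_nonneg_left (hψB z hz) hN.le
  have hkm' : Measurable (fun z => -k z) := hkm.neg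
  have f1 : IsFiniteMeasure (dm E k) :=
    dm_finite hEb hE (B := N * ‖ψ‖) fun z hz => (le_abs_self _).trans (hkB z hz)
  have f2 : IsFiniteMeasure (dm E (fun z => -k z)) :=
    dm_finite hEb hE (B := N * ‖ψ‖) fun z hz => (neg_le_abs _).trans (hkB z hz)
  have hdk : ∀ x, dpot q E k x = -(N * dpot q E ψ x) := by
    intro x
    unfold dpot
    rw [← integral_const_mul, ← integral_neg]
    refine integral_congr_ae (Eventually.of_forall fun z => ?_)
    simp only [hk]; ring
  have hdiff : ∀ x, pot q (Measure.dirac y + dm E k) x - pot q (dm E (fun z => -k z)) x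
      = g x := by
    intro x
    have i1 : Integrable (fun z => rk q (x - z)) (Measure.dirac y) := by
      refine integrable_dirac ?_
      simp
    rw [pot_add_of i1 (integrable_dm hq0 hq1 hE hEb hkm hkB x), pot_dirac, add_sub_assoc,
      pot_dm_sub hq0 hq1 hE hEb hkm hkB x, hdk]
    simp only [hg]; ring
  have hdom := domination hq0 hq1 (Measure.dirac y + dm E k) (dm E (fun z => -k z))
    (dm_ac _ _) (by
      filter_upwards [ae_dm (E := E) (h := fun z => -k z) hkm' hE] with x ⟨hxE, hx⟩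
      have h1 := hdiff x
      have h2 := hgE x hxE
      have h3 : 0 < N * ψ x := by simp only [hk, neg_neg] at hx; exact hx
      have h4 : 0 < ψ x := (mul_pos_iff_of_pos_left hN).mp h3
      linarith)
  have hae : ∀ᵐ x : E3, 0 ≤ g x := by
    filter_upwards [hdom] with x hx
    have := hdiff x
    linarith
  have hcont : ContinuousOn g {y}ᶜ := by
    simp only [hg]
    refine ContinuousOn.sub ?_ (continuous_const.mul hdc).continuousOn
    unfold rk
    intro x hx
    refine ContinuousAt.continuousWithinAt ?_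
    refine ContinuousAt.rpow_const (by fun_prop) (Or.inl ?_)
    exact (norm_pos_iff.mpr (sub_ne_zero.mpr hx)).ne'
  have hpos : ∀ x, x ≠ y → 0 ≤ g x := fun x hx =>
    nonneg_of_ae isOpen_compl_singleton hcont hae x hx
  have hEne : ∀ x ∈ E, x ≠ y := by
    intro x hx hxy
    have := hEy x hx
    rw [hxy, sub_self, norm_zero] at this
    linarith
  have hgnn : ∀ x ∈ E, 0 ≤ g x := fun x hx => hpos x (hEne x hx)
  refine ⟨g, hgm, fun z hz => ⟨hgnn z hz, ?_⟩, fun x hx => ?_, fun x hx => ?_⟩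
  · have h1 : 0 ≤ dpot q E ψ z := by
      rw [← hdg]
      exact setIntegral_nonneg hE fun w hw => mul_nonneg (rk_nonneg _ _) (hgnn w hw)
    have h2 := mul_nonneg hN.le h1
    simp only [hg]; linarith
  · rw [hdg]; exact hpos x hx
  · rw [hdg]

end Pool.Agent.LagRig
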