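import Pool.Agent.LagRig.Defs

open MeasureTheory Set Filter Topology
open scoped Real ENNReal

noncomputable section

namespace Pool.Agent.LagRig

namespace HeatAux

lemma hk_eq {s : ℝ} (hs : 0 < s) (z : E3) :
    hk s z = (4 * π * s) ^ (-(3 / 2) : ℝ) * Real.exp (-(1 / (4 * s)) * ‖z‖ ^ 2) := by
  unfold hk
  congr 2
  field_simp

lemma const_mul {s : ℝ} (hs : 0 < s) :
    (4 * π * s) ^ (-(3 / 2) : ℝ) * (π / (1 / (4 * s))) ^ (Module.finrank ℝ E3 / 2 : ℝ) = 1 := by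
  have h3 : (Module.finrank ℝ E3 : ℝ) = 3 := by simp
  rw [h3]
  have h1 : π / (1 / (4 * s)) = 4 * π * s := by field_simp
  have hpos : 0 < 4 * π * s := by positivity
  rw [h1, ← Real.rpow_add hpos]
  norm_num

lemma integral_hk_aux {s : ℝ} (hs : 0 < s) : ∫ z : E3, hk s z = 1 := by
  have hb : 0 < 1 / (4 * s) := by positivity
  simp_rw [hk_eq hs]
  rw [integral_const_mul, GaussianFourier.integral_rexp_neg_mul_sq_norm hb, const_mul hs]

end HeatAux

open HeatAux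

theorem integral_hk {s : ℝ} (hs : 0 < s) : ∫ z : E3, hk s z = 1 := integral_hk_aux hs

theorem integrable_hk {s : ℝ} (hs : 0 < s) : Integrable (fun z : E3 => hk s z) := by
  by_contra h
  have := integral_hk hs
  rw [integral_undef h] at this
  exact zero_ne_one this

namespace HeatAux

lemma continuous_hk {s : ℝ} : Continuous (hk s) := by
  unfold hk
  fun_prop

lemma lintegral_hk {s : ℝ} (hs : 0 < s) : ∫⁻ z : E3, ENNReal.ofReal (hk s z) = 1 := by
  rw [← ofReal_integral_eq_lintegral_ofReal (integrable_hk hs)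
    (Eventually.of_forall fun z => (hk_pos hs z).le), integral_hk hs, ENNReal.ofReal_one]

lemma exp_identity {s t : ℝ} (hs : 0 < s) (ht : 0 < t) (x y : E3) :
    -(‖x - y‖ ^ 2) / (4 * s) + -(‖y‖ ^ 2) / (4 * t)
      = -(‖x‖ ^ 2) / (4 * (s + t))
        + -(‖y - (t / (s + t)) • x‖ ^ 2) / (4 * (s * t / (s + t))) := by
  have h1 : ‖x - y‖ ^ 2 = ‖x‖ ^ 2 - 2 * inner ℝ x y + ‖y‖ ^ 2 := norm_sub_sq_real x y
  have h2 : ‖y - (t / (s + t)) • x‖ ^ 2
      = ‖y‖ ^ 2 - 2 * ((t / (s + t)) * inner ℝ x y) + (t / (s + t)) ^ 2 * ‖x‖ ^ 2 := by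
    rw [norm_sub_sq_real, inner_smul_right, norm_smul, real_inner_comm, mul_pow, Real.norm_eq_abs,
      sq_abs]
  have hst : s + t ≠ 0 := by positivity
  rw [h1, h2]
  field_simp
  ring

lemma const_identity {s t : ℝ} (hs : 0 < s) (ht : 0 < t) :
    (4 * π * s) ^ (-(3 / 2) : ℝ) * (4 * π * t) ^ (-(3 / 2) : ℝ)
      = (4 * π * (s + t)) ^ (-(3 / 2) : ℝ) * (4 * π * (s * t / (s + t))) ^ (-(3 / 2) : ℝ) := by
  have hst : 0 < s + t := by positivity
  rw [← Real.mul_rpow (by positivity) (by positivity),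
    ← Real.mul_rpow (by positivity) (by positivity)]
  congr 1
  field_simp

lemma hk_mul {s t : ℝ} (hs : 0 < s) (ht : 0 < t) (x y : E3) :
    hk s (x - y) * hk t y = hk (s + t) x * hk (s * t / (s + t)) (y - (t / (s + t)) • x) := by
  unfold hk
  calc (4 * π * s) ^ (-(3 / 2) : ℝ) * Real.exp (-(‖x - y‖ ^ 2) / (4 * s))
        * ((4 * π * t) ^ (-(3 / 2) : ℝ) * Real.exp (-(‖y‖ ^ 2) / (4 * t)))
      = ((4 * π * s) ^ (-(3 / 2) : ℝ) * (4 * π * t) ^ (-(3 / 2) : ℝ))
        * Real.exp (-(‖x - y‖ ^ 2) / (4 * s) + -(‖y‖ ^ 2) / (4 * t)) := by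
        rw [Real.exp_add]; ring
    _ = ((4 * π * (s + t)) ^ (-(3 / 2) : ℝ) * (4 * π * (s * t / (s + t))) ^ (-(3 / 2) : ℝ))
        * Real.exp (-(‖x‖ ^ 2) / (4 * (s + t))
        + -(‖y - (t / (s + t)) • x‖ ^ 2) / (4 * (s * t / (s + t)))) := by
        rw [const_identity hs ht, exp_identity hs ht]
    _ = _ := by rw [Real.exp_add]; ring

end HeatAux

theorem lintegral_hk_conv {s t : ℝ} (hs : 0 < s) (ht : 0 < t) (x : E3) :
    ∫⁻ y : E3, ENNReal.ofReal (hk s (x - y)) * ENNReal.ofReal (hk t y)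
      = ENNReal.ofReal (hk (s + t) x) := by
  have hst : 0 < s * t / (s + t) := by positivity
  have h1 : ∀ y : E3, ENNReal.ofReal (hk s (x - y)) * ENNReal.ofReal (hk t y)
      = ENNReal.ofReal (hk (s + t) x)
        * ENNReal.ofReal (hk (s * t / (s + t)) (y - (t / (s + t)) • x)) := by
    intro y
    rw [← ENNReal.ofReal_mul (hk_pos hs _).le, hk_mul hs ht,
      ENNReal.ofReal_mul (hk_pos (by positivity) _).le]
  simp_rw [h1]
  rw [lintegral_const_mul' _ _ ENNReal.ofReal_ne_top]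
  rw [lintegral_sub_right_eq_self
    (fun y : E3 => ENNReal.ofReal (hk (s * t / (s + t)) y)) ((t / (s + t)) • x)]
  rw [lintegral_hk hst, mul_one]

end Pool.Agent.LagRig
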