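import Pool.Agent.LagRig.Rep

open MeasureTheory Set Filter Topology
open scoped Real ENNReal

noncomputable section

namespace Pool.Agent.LagRig

/-- A family of Markov kernels `P n`, approximate identities `J n` with `k - P n * k = m n J n`. -/
structure Pack (q : ℝ) where
  P : ℕ → E3 → ℝ
  J : ℕ → E3 → ℝ
  m : ℕ → ℝ
  Q : E3 → ℝ
  hPm : ∀ n, Measurable (P n)
  hJm : ∀ n, Measurable (J n)
  hQm : Measurable Q
  hP0 : ∀ n z, 0 ≤ P n z
  hJ0 : ∀ n z, 0 ≤ J n z
  hm : ∀ n, 0 < m n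
  hQ0 : ∀ z, 0 < Q z
  hQP : ∀ n z, m n * Q z ≤ P n z
  hPs : ∀ n z, P n (-z) = P n z
  hJs : ∀ n z, J n (-z) = J n z
  hPi : ∀ n, Integrable (P n)
  hP1 : ∀ n, ∫ z, P n z = 1
  hJi : ∀ n, Integrable (J n)
  hJ1 : ∀ n, ∫ z, J n z = 1
  hPk : ∀ n, ∀ z : E3, z ≠ 0 →
    (∫⁻ y, ENNReal.ofReal (P n (z - y)) * ENNReal.ofReal (rk q y))
      + ENNReal.ofReal (m n * J n z) = ENNReal.ofReal (rk q z)
  hJδ : ∀ ω : E3 → ℝ, Measurable ω → (∃ B, ∀ z, |ω z| ≤ B) → Tendsto ω (𝓝 0) (𝓝 0) →
    Tendsto (fun n => ∫ z, J n z * ω z) atTop (𝓝 0)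

namespace PackAux

/-- weight of the heat mixture `P_d` -/
def pw (q d t : ℝ) : ℝ := (1 + q) / 2 * d ^ ((1 + q) / 2) * t ^ (-((1 + q) / 2) - 1)

/-- the kernel `P_d` -/
def pE (q d : ℝ) (z : E3) : ℝ≥0∞ := ∫⁻ t in Ioi d, ENNReal.ofReal (pw q d t * hk t z)

/-- weight of `J_d` -/
def jw (q d u : ℝ) : ℝ := u ^ ((1 + q) / 2 - 1) - u⁻¹ * (max (u - d) 0) ^ ((1 + q) / 2)

/-- the kernel of `k - P_d * k` (up to the constant `c`) -/
def jE (q d : ℝ) (z : E3) : ℝ≥0∞ := ∫⁻ u in Ioi (0 : ℝ), ENNReal.ofReal (jw q d u * hk u z)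

lemma pw_pos {q d t : ℝ} (hq0 : 0 < q) (hd : 0 < d) (ht : 0 < t) : 0 < pw q d t := by
  unfold pw; positivity

lemma measurable_pw (q d : ℝ) : Measurable (pw q d) := by
  unfold pw; fun_prop

lemma measurable_jw (q d : ℝ) : Measurable (jw q d) := by
  unfold jw; fun_prop

lemma rpow_div {a u : ℝ} (hu : 0 < u) : u ^ (a - 1) = u⁻¹ * u ^ a := by
  rw [Real.rpow_sub_one hu.ne']
  field_simp

lemma jw_nonneg {q d u : ℝ} (hq0 : 0 < q) (hd : 0 < d) (hu : 0 < u) : 0 ≤ jw q d u := by
  unfold jw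
  rw [rpow_div hu, ← mul_sub]
  refine mul_nonneg (inv_nonneg.mpr hu.le) (sub_nonneg.mpr ?_)
  refine Real.rpow_le_rpow (le_max_right _ _) (max_le (by linarith) hu.le) (by positivity)

lemma jw_pos {q d u : ℝ} (hq0 : 0 < q) (hd : 0 < d) (hu : 0 < u) : 0 < jw q d u := by
  unfold jw
  rw [rpow_div hu, ← mul_sub]
  refine mul_pos (inv_pos.mpr hu) (sub_pos.mpr ?_)
  refine Real.rpow_lt_rpow (le_max_right _ _) (max_lt (by linarith) hu) (by positivity)

lemma measurable_hk_fst (z : E3) : Measurable (fun s : ℝ => hk s z) := by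
  unfold hk; fun_prop

lemma measurable_hk_snd (s : ℝ) : Measurable (hk s) := by
  unfold hk; fun_prop

lemma measurable_mix {w : ℝ → ℝ} (hw : Measurable w) :
    Measurable (fun p : E3 × ℝ => ENNReal.ofReal (w p.2 * hk p.2 p.1)) := by
  have h1 : Measurable (fun p : E3 × ℝ => w p.2) := hw.comp measurable_snd
  have h2 : Measurable (fun p : E3 × ℝ => hk p.2 p.1) :=
    measurable_hk.comp (g := fun p : ℝ × E3 => hk p.1 p.2) (f := fun p : E3 × ℝ => (p.2, p.1))
      measurable_swap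
  exact (h1.mul h2).ennreal_ofReal

lemma measurable_pE (q d : ℝ) : Measurable (pE q d) :=
  (measurable_mix (measurable_pw q d)).lintegral_prod_right'

lemma measurable_jE (q d : ℝ) : Measurable (jE q d) :=
  (measurable_mix (measurable_jw q d)).lintegral_prod_right'

/-- Tonelli for heat mixtures. -/
lemma lintegral_mix {w : ℝ → ℝ} (hw : Measurable w) {S : Set ℝ} (hS : MeasurableSet S)
    (hSp : ∀ t ∈ S, 0 < t) (hw0 : ∀ t ∈ S, 0 ≤ w t) :
    ∫⁻ z : E3, ∫⁻ t in S, ENNReal.ofReal (w t * hk t z) = ∫⁻ t in S, ENNReal.ofReal (w t) := by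
  rw [lintegral_lintegral_swap]
  · refine setLIntegral_congr_fun hS fun t ht => ?_
    have h1 : ∀ z : E3, ENNReal.ofReal (w t * hk t z)
        = ENNReal.ofReal (w t) * ENNReal.ofReal (hk t z) :=
      fun z => ENNReal.ofReal_mul (hw0 t ht)
    simp_rw [h1]
    rw [lintegral_const_mul' _ _ ENNReal.ofReal_ne_top, HeatAux.lintegral_hk (hSp t ht), mul_one]
  · exact (measurable_mix hw).aemeasurable

lemma integrableOn_pw {q d : ℝ} (hq0 : 0 < q) (hd : 0 < d) : IntegrableOn (pw q d) (Ioi d) :=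
  (integrableOn_Ioi_rpow_of_lt (by linarith) hd).const_mul _

lemma integral_pw {q d : ℝ} (hq0 : 0 < q) (hd : 0 < d) : ∫ t in Ioi d, pw q d t = 1 := by
  unfold pw
  rw [integral_const_mul, integral_Ioi_rpow_of_lt (by linarith) hd]
  have h1 : -((1 + q) / 2) - 1 + 1 = -((1 + q) / 2) := by ring
  rw [h1, Real.rpow_neg hd.le]
  have h2 : 0 < d ^ ((1 + q) / 2) := by positivity
  field_simp

lemma lintegral_pw {q d : ℝ} (hq0 : 0 < q) (hd : 0 < d) :
    ∫⁻ t in Ioi d, ENNReal.ofReal (pw q d t) = 1 := by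
  rw [← ofReal_integral_eq_lintegral_ofReal (integrableOn_pw hq0 hd), integral_pw hq0 hd,
    ENNReal.ofReal_one]
  exact (ae_restrict_iff' measurableSet_Ioi).2
    (Eventually.of_forall fun t ht => (pw_pos hq0 hd (hd.trans ht)).le)

lemma lintegral_pE {q d : ℝ} (hq0 : 0 < q) (hd : 0 < d) : ∫⁻ z, pE q d z = 1 := by
  unfold pE
  rw [lintegral_mix (measurable_pw q d) measurableSet_Ioi (fun t ht => hd.trans ht)
    (fun t ht => (pw_pos hq0 hd (hd.trans ht)).le), lintegral_pw hq0 hd]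

lemma pE_ne_top {q d : ℝ} (hq0 : 0 < q) (hd : 0 < d) (z : E3) : pE q d z ≠ ⊤ := by
  have h1 : pE q d z ≤ ∫⁻ t in Ioi d, ENNReal.ofReal (pw q d t)
      * ENNReal.ofReal ((4 * π * d) ^ (-(3 / 2) : ℝ)) := by
    unfold pE
    refine setLIntegral_mono' measurableSet_Ioi fun t ht => ?_
    have ht0 : 0 < t := hd.trans ht
    rw [← ENNReal.ofReal_mul (pw_pos hq0 hd ht0).le]
    refine ENNReal.ofReal_le_ofReal (mul_le_mul_of_nonneg_left ?_ (pw_pos hq0 hd ht0).le)
    unfold hk
    calc (4 * π * t) ^ (-(3 / 2) : ℝ) * Real.exp (-(‖z‖ ^ 2) / (4 * t))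
        ≤ (4 * π * t) ^ (-(3 / 2) : ℝ) * 1 := by
          refine mul_le_mul_of_nonneg_left ?_ (by positivity)
          rw [Real.exp_le_one_iff]
          exact div_nonpos_of_nonpos_of_nonneg (by simp) (by positivity)
      _ = (4 * π * t) ^ (-(3 / 2) : ℝ) := mul_one _
      _ ≤ (4 * π * d) ^ (-(3 / 2) : ℝ) := by
          refine Real.rpow_le_rpow_of_nonpos (by positivity) ?_ (by norm_num)
          have : d ≤ t := le_of_lt ht
          gcongr
  rw [lintegral_mul_const' _ _ ENNReal.ofReal_ne_top, lintegral_pw hq0 hd, one_mul] at h1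
  exact ne_top_of_le_ne_top ENNReal.ofReal_ne_top h1

lemma pE_ne_zero {q d : ℝ} (hq0 : 0 < q) (hd : 0 < d) (z : E3) : pE q d z ≠ 0 := by
  unfold pE
  intro h
  have hm : Measurable (fun t => ENNReal.ofReal (pw q d t * hk t z)) :=
    ((measurable_pw q d).mul (measurable_hk_fst z)).ennreal_ofReal
  rw [lintegral_eq_zero_iff hm] at h
  have h1 : ∀ᵐ s ∂(volume.restrict (Ioi d)), False := by
    filter_upwards [h, ae_restrict_mem measurableSet_Ioi] with s hs hs0
    have h0 : 0 < s := hd.trans hs0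
    have := mul_pos (pw_pos hq0 hd h0) (hk_pos h0 z)
    simp only [Pi.zero_apply, ENNReal.ofReal_eq_zero] at hs
    linarith
  rw [ae_iff] at h1
  simp at h1

lemma pE_neg (q d : ℝ) (z : E3) : pE q d (-z) = pE q d z := by
  simp [pE, hk_neg]

lemma jE_neg (q d : ℝ) (z : E3) : jE q d (-z) = jE q d z := by
  simp [jE, hk_neg]

lemma pE_mono {q d : ℝ} (hq0 : 0 < q) (hd : 0 < d) (hd1 : d ≤ 1) (z : E3) :
    ENNReal.ofReal (d ^ ((1 + q) / 2)) * pE q 1 z ≤ pE q d z := by
  unfold pE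
  rw [← lintegral_const_mul' _ _ ENNReal.ofReal_ne_top]
  calc ∫⁻ t in Ioi (1 : ℝ), ENNReal.ofReal (d ^ ((1 + q) / 2)) * ENNReal.ofReal (pw q 1 t * hk t z)
      = ∫⁻ t in Ioi (1 : ℝ), ENNReal.ofReal (pw q d t * hk t z) := by
        refine lintegral_congr fun t => ?_
        rw [← ENNReal.ofReal_mul (by positivity)]
        congr 1
        unfold pw
        rw [Real.one_rpow]
        ring
    _ ≤ _ := lintegral_mono_set (Ioi_subset_Ioi hd1)

/-! ### the weight `jw` -/

lemma jw_le {q d u : ℝ} (hu : 0 < u) : jw q d u ≤ u ^ ((1 + q) / 2 - 1) := by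
  unfold jw
  have : 0 ≤ u⁻¹ * (max (u - d) 0) ^ ((1 + q) / 2) :=
    mul_nonneg (inv_nonneg.mpr hu.le) (Real.rpow_nonneg (le_max_right _ _) _)
  linarith

lemma integrableOn_jw {q : ℝ} (hq0 : 0 < q) (hq1 : q < 1) : IntegrableOn (jw q 1) (Ioi 0) := by
  refine RepAux.integrableOn_split (α := (1 + q) / 2 - 1) (β := (1 + q) / 2 - 1 + -1) (A := 1)
    (B := 1) (measurable_jw q 1) (by linarith) (by linarith)
    (fun s hs => jw_nonneg hq0 one_pos hs) (fun s hs hs1 => ?_) (fun s hs => ?_)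
  · rw [one_mul]; exact jw_le hs
  · have hs0 : 0 < s := lt_trans one_pos hs
    have h1 : 0 < 1 - 1 / s := by
      rw [sub_pos, div_lt_one hs0]; exact hs
    have h2 : 1 - 1 / s ≤ 1 := by
      have : 0 < 1 / s := by positivity
      linarith
    have h3 : 1 - 1 / s ≤ (1 - 1 / s) ^ ((1 + q) / 2) := by
      calc 1 - 1 / s = (1 - 1 / s) ^ (1 : ℝ) := (Real.rpow_one _).symm
        _ ≤ (1 - 1 / s) ^ ((1 + q) / 2) :=
          Real.rpow_le_rpow_of_exponent_ge h1 h2 (by linarith)
    have h4 : max (s - 1) 0 = s * (1 - 1 / s) := by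
      rw [max_eq_left (by linarith)]
      field_simp
    unfold jw
    rw [h4, Real.mul_rpow hs0.le h1.le, one_mul, ← mul_assoc, ← rpow_div hs0,
      Real.rpow_add hs0, Real.rpow_neg_one]
    have h5 : 0 < s ^ ((1 + q) / 2 - 1) := by positivity
    calc s ^ ((1 + q) / 2 - 1) - s ^ ((1 + q) / 2 - 1) * (1 - 1 / s) ^ ((1 + q) / 2)
        ≤ s ^ ((1 + q) / 2 - 1) - s ^ ((1 + q) / 2 - 1) * (1 - 1 / s) := by
          have := mul_le_mul_of_nonneg_left h3 h5.le
          linarith
      _ = _ := by ring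

/-- total mass of `jE q 1`. -/
def M1 (q : ℝ) : ℝ≥0∞ := ∫⁻ u in Ioi (0 : ℝ), ENNReal.ofReal (jw q 1 u)

lemma M1_ne_top {q : ℝ} (hq0 : 0 < q) (hq1 : q < 1) : M1 q ≠ ⊤ :=
  RepAux.lintegral_ne_top (integrableOn_jw hq0 hq1)

lemma M1_ne_zero {q : ℝ} (hq0 : 0 < q) : M1 q ≠ 0 :=
  RepAux.lintegral_ne_zero (measurable_jw q 1) fun _ hs => jw_pos hq0 one_pos hs

lemma lintegral_jE {q : ℝ} (hq0 : 0 < q) : ∫⁻ z, jE q 1 z = M1 q := by
  unfold jE M1
  exact lintegral_mix (measurable_jw q 1) measurableSet_Ioi (fun _ ht => ht)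
    (fun _ ht => jw_nonneg hq0 one_pos ht)

lemma jE_scale {q e : ℝ} (he : 0 < e) (z : E3) :
    jE q (e ^ 2) z = ENNReal.ofReal (e ^ (q - 2)) * jE q 1 (e⁻¹ • z) := by
  have he2 : 0 < e ^ 2 := by positivity
  unfold jE
  rw [RepAux.lintegral_Ioi_scale he2, ← lintegral_const_mul' _ _ ENNReal.ofReal_ne_top,
    ← lintegral_const_mul' _ _ ENNReal.ofReal_ne_top]
  refine setLIntegral_congr_fun measurableSet_Ioi fun v hv => ?_
  have hv0 : 0 < v := hv
  have h1 : jw q (e ^ 2) (e ^ 2 * v) = e ^ (q - 1) * jw q 1 v := by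
    have hmax : max (e ^ 2 * v - e ^ 2) 0 = e ^ 2 * max (v - 1) 0 := by
      rw [mul_max_of_nonneg _ _ he2.le, mul_zero, mul_sub, mul_one]
    have hp : (e ^ 2) ^ ((1 + q) / 2) = e ^ 2 * e ^ (q - 1) := by
      rw [← Real.rpow_natCast e 2, ← Real.rpow_mul he.le, ← Real.rpow_add he]
      congr 1
      push_cast
      ring
    have hp' : (e ^ 2) ^ ((1 + q) / 2 - 1) = e ^ (q - 1) := by
      rw [← Real.rpow_natCast e 2, ← Real.rpow_mul he.le]
      congr 1
      push_cast
      ring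
    unfold jw
    rw [hmax, Real.mul_rpow he2.le hv0.le, Real.mul_rpow he2.le (le_max_right _ _), hp, hp']
    field_simp
  have h2 : hk (e ^ 2 * v) z = e ^ (-3 : ℝ) * hk v (e⁻¹ • z) := by
    unfold hk
    have h3 : -(‖z‖ ^ 2) / (4 * (e ^ 2 * v)) = -(‖e⁻¹ • z‖ ^ 2) / (4 * v) := by
      rw [norm_smul, mul_pow, Real.norm_eq_abs, sq_abs]
      field_simp
    have h4 : (4 * π * (e ^ 2 * v)) ^ (-(3 / 2) : ℝ)
        = e ^ (-3 : ℝ) * (4 * π * v) ^ (-(3 / 2) : ℝ) := by
      rw [show 4 * π * (e ^ 2 * v) = e ^ 2 * (4 * π * v) by ring,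
        Real.mul_rpow (by positivity) (by positivity)]
      congr 1
      rw [← Real.rpow_natCast e 2, ← Real.rpow_mul he.le]
      norm_num
    rw [h3, h4]
    ring
  rw [← ENNReal.ofReal_mul he2.le, ← ENNReal.ofReal_mul (by positivity), h1, h2]
  congr 1
  have h5 : e ^ (q - 2) = e ^ 2 * e ^ (q - 1) * e ^ (-3 : ℝ) := by
    rw [← Real.rpow_natCast e 2, ← Real.rpow_add he, ← Real.rpow_add he]
    congr 1
    push_cast
    ring
  rw [h5]
  ring

/-! ### the inner beta integral -/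

lemma hasDerivAt_beta {a d u t : ℝ} (hd : 0 < d) (ht : d < t) (htu : t < u) :
    HasDerivAt (fun t => -(d ^ a / u) * (u / t - 1) ^ a)
      (a * d ^ a * t ^ (-a - 1) * (u - t) ^ (a - 1)) t := by
  have ht0 : 0 < t := hd.trans ht
  have hu0 : 0 < u := ht0.trans htu
  have hx : 0 < u / t - 1 := by
    rw [sub_pos, lt_div_iff₀ ht0, one_mul]; exact htu
  have h1 : HasDerivAt (fun t : ℝ => u / t - 1) (-u / t ^ 2) t := by
    have := ((hasDerivAt_const t u).div (hasDerivAt_id t) ht0.ne').sub_const 1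
    simpa using this
  have h2 := (h1.rpow_const (p := a) (Or.inl hx.ne')).const_mul (-(d ^ a / u))
  refine h2.congr_deriv ?_
  have h3 : (u / t - 1) ^ (a - 1) = (u - t) ^ (a - 1) * t ^ (-a + 1) := by
    rw [show u / t - 1 = (u - t) / t by field_simp, Real.div_rpow (by linarith) ht0.le,
      div_eq_mul_inv, ← Real.rpow_neg ht0.le]
    congr 2
    ring
  have h4 : t ^ (-a - 1) = t ^ (-a + 1) / t ^ 2 := by
    rw [show -a - 1 = (-a + 1) - (2 : ℕ) by push_cast; ring, Real.rpow_sub ht0,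
      Real.rpow_natCast]
  rw [h3, h4]
  field_simp

lemma beta_integral {q d u : ℝ} (hq0 : 0 < q) (hd : 0 < d) (hu : d < u) :
    ∫⁻ t in Ioo d u, ENNReal.ofReal (pw q d t * (u - t) ^ ((1 + q) / 2 - 1))
      = ENNReal.ofReal (u⁻¹ * (u - d) ^ ((1 + q) / 2)) := by
  have hu0 : 0 < u := hd.trans hu
  set a := (1 + q) / 2 with ha
  have ha0 : 0 < a := by positivity
  set F : ℝ → ℝ := fun t => -(d ^ a / u) * (u / t - 1) ^ a with hF
  have hcont : ContinuousOn F (Icc d u) := by
    refine continuousOn_const.mul (ContinuousOn.rpow_const ?_ fun _ _ => Or.inr ha0.le)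
    refine (continuousOn_const.div continuousOn_id fun x hx => ?_).sub continuousOn_const
    exact (lt_of_lt_of_le hd hx.1).ne'
  have hder : ∀ t ∈ Ioo d u, HasDerivAt F (a * d ^ a * t ^ (-a - 1) * (u - t) ^ (a - 1)) t :=
    fun t ht => hasDerivAt_beta hd ht.1 ht.2
  have hpos : ∀ t ∈ Ioo d u, 0 ≤ a * d ^ a * t ^ (-a - 1) * (u - t) ^ (a - 1) := by
    intro t ht
    have h1 : 0 < t := hd.trans ht.1
    have h2 : 0 < u - t := sub_pos.mpr ht.2
    positivity
  have hint := intervalIntegral.integrableOn_deriv_of_nonneg hcont hder hpos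
  have hval := intervalIntegral.integral_eq_sub_of_hasDerivAt_of_le hu.le hcont hder
    ((intervalIntegrable_iff_integrableOn_Ioc_of_le hu.le).2 hint)
  rw [intervalIntegral.integral_of_le hu.le, integral_Ioc_eq_integral_Ioo] at hval
  have hint' : IntegrableOn (fun t => a * d ^ a * t ^ (-a - 1) * (u - t) ^ (a - 1)) (Ioo d u) :=
    hint.mono_set Ioo_subset_Ioc_self
  have hlhs : ∫⁻ t in Ioo d u, ENNReal.ofReal (pw q d t * (u - t) ^ (a - 1))
      = ENNReal.ofReal (F u - F d) := by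
    rw [← hval, ofReal_integral_eq_lintegral_ofReal hint']
    · rfl
    · exact (ae_restrict_iff' measurableSet_Ioo).2 (Eventually.of_forall fun t ht => hpos t ht)
  rw [hlhs]
  congr 1
  simp only [hF]
  rw [div_self hu0.ne', sub_self, Real.zero_rpow ha0.ne', mul_zero, zero_sub,
    show u / d - 1 = (u - d) / d by field_simp, Real.div_rpow (by linarith) hd.le]
  have : 0 < d ^ a := by positivity
  field_simp

/-! ### convolution -/

/-- the heat mixture over `s` shifted by `t`. -/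
lemma shift_integral {t a : ℝ} (f : ℝ → ℝ≥0∞) :
    ∫⁻ s in Ioi (0 : ℝ), ENNReal.ofReal (s ^ (a - 1)) * f (t + s)
      = ∫⁻ u in Ioi t, ENNReal.ofReal ((u - t) ^ (a - 1)) * f u := by
  rw [← lintegral_indicator measurableSet_Ioi, ← lintegral_indicator measurableSet_Ioi,
    ← lintegral_sub_right_eq_self
      ((Ioi (0 : ℝ)).indicator fun s => ENNReal.ofReal (s ^ (a - 1)) * f (t + s)) t]
  refine lintegral_congr fun u => ?_
  by_cases hu : t < u
  · rw [indicator_of_mem (show u - t ∈ Ioi (0 : ℝ) from sub_pos.mpr hu),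
      indicator_of_mem (show u ∈ Ioi t from hu)]
    rw [add_sub_cancel]
  · rw [indicator_of_notMem (show u - t ∉ Ioi (0 : ℝ) from fun h => hu (sub_pos.mp h)),
      indicator_of_notMem (show u ∉ Ioi t from hu)]

/-- the double integral over `d < t < u`. -/
lemma swap_triangle {q d : ℝ} (hq0 : 0 < q) (hd : 0 < d) {f : ℝ → ℝ≥0∞} (hf : Measurable f) :
    ∫⁻ t in Ioi d, ENNReal.ofReal (pw q d t)
        * ∫⁻ u in Ioi t, ENNReal.ofReal ((u - t) ^ ((1 + q) / 2 - 1)) * f u
      = ∫⁻ u in Ioi (0 : ℝ), ENNReal.ofReal (u⁻¹ * (max (u - d) 0) ^ ((1 + q) / 2)) * f u := by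
  set T : Set (ℝ × ℝ) := {p | d < p.1 ∧ p.1 < p.2} with hT
  have hTm : MeasurableSet T :=
    (measurableSet_lt measurable_const measurable_fst).inter
      (measurableSet_lt measurable_fst measurable_snd)
  set B : ℝ → ℝ → ℝ≥0∞ := fun t u => T.indicator
    (fun p : ℝ × ℝ => ENNReal.ofReal (pw q d p.1 * (p.2 - p.1) ^ ((1 + q) / 2 - 1)) * f p.2)
    (t, u) with hB
  have hBm : Measurable (Function.uncurry B) := by
    have h1 : Measurable (fun p : ℝ × ℝ =>
        ENNReal.ofReal (pw q d p.1 * (p.2 - p.1) ^ ((1 + q) / 2 - 1)) * f p.2) := by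
      have h2 : Measurable (fun p : ℝ × ℝ => pw q d p.1) := (measurable_pw q d).comp measurable_fst
      have h3 : Measurable (fun p : ℝ × ℝ => (p.2 - p.1) ^ ((1 + q) / 2 - 1)) := by fun_prop
      have h4 : Measurable (fun p : ℝ × ℝ => f p.2) := hf.comp measurable_snd
      exact (h2.mul h3).ennreal_ofReal.mul h4
    exact h1.indicator hTm
  have hleft : ∫⁻ t, ∫⁻ u, B t u = ∫⁻ t in Ioi d, ENNReal.ofReal (pw q d t)
        * ∫⁻ u in Ioi t, ENNReal.ofReal ((u - t) ^ ((1 + q) / 2 - 1)) * f u := by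
    rw [← lintegral_indicator measurableSet_Ioi]
    refine lintegral_congr fun t => ?_
    by_cases ht : d < t
    · rw [indicator_of_mem (show t ∈ Ioi d from ht), ← lintegral_const_mul' _ _
        ENNReal.ofReal_ne_top, ← lintegral_indicator measurableSet_Ioi]
      refine lintegral_congr fun u => ?_
      simp only [hB]
      by_cases hu : t < u
      · rw [indicator_of_mem (show (t, u) ∈ T from ⟨ht, hu⟩),
          indicator_of_mem (show u ∈ Ioi t from hu)]
        simp only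
        rw [ENNReal.ofReal_mul (pw_pos hq0 hd (hd.trans ht)).le, mul_assoc]
      · rw [indicator_of_notMem (show (t, u) ∉ T from fun h => hu h.2),
          indicator_of_notMem (show u ∉ Ioi t from hu)]
    · rw [indicator_of_notMem (show t ∉ Ioi d from ht)]
      have : ∀ u, B t u = 0 := fun u => by
        simp only [hB]
        exact indicator_of_notMem (show (t, u) ∉ T from fun h => ht h.1) _
      simp [this]
  have hright : ∫⁻ u, ∫⁻ t, B t u
      = ∫⁻ u in Ioi (0 : ℝ), ENNReal.ofReal (u⁻¹ * (max (u - d) 0) ^ ((1 + q) / 2)) * f u := by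
    rw [← lintegral_indicator measurableSet_Ioi]
    refine lintegral_congr fun u => ?_
    by_cases hu : d < u
    · have hu0 : 0 < u := hd.trans hu
      rw [indicator_of_mem (show u ∈ Ioi (0 : ℝ) from hu0), max_eq_left (by linarith),
        ← beta_integral hq0 hd hu, ← lintegral_indicator measurableSet_Ioo,
        ← lintegral_mul_const]
      · refine lintegral_congr fun t => ?_
        simp only [hB]
        by_cases ht : t ∈ Ioo d u
        · rw [indicator_of_mem (show (t, u) ∈ T from ht), indicator_of_mem ht]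
        · rw [indicator_of_notMem (show (t, u) ∉ T from ht), indicator_of_notMem ht, zero_mul]
      · have h2 := measurable_pw q d
        exact (by fun_prop : Measurable fun t : ℝ =>
          ENNReal.ofReal (pw q d t * (u - t) ^ ((1 + q) / 2 - 1))).indicator measurableSet_Ioo
    · have : ∀ t, B t u = 0 := fun t => by
        simp only [hB]
        exact indicator_of_notMem (show (t, u) ∉ T from fun h => hu (h.1.trans h.2)) _
      simp only [this, lintegral_zero]
      by_cases hu0 : 0 < u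
      · rw [indicator_of_mem (show u ∈ Ioi (0 : ℝ) from hu0), max_eq_right (by linarith),
          Real.zero_rpow (by positivity)]
        simp
      · rw [indicator_of_notMem (show u ∉ Ioi (0 : ℝ) from hu0)]
  rw [← hleft, ← hright]
  exact lintegral_lintegral_swap hBm.aemeasurable

/-- `P_d * k` -/
lemma conv_pE {q d c : ℝ} (hq0 : 0 < q) (hd : 0 < d)
    (hc : ∀ z : E3, z ≠ 0 → ENNReal.ofReal (rk q z) = ENNReal.ofReal c *
        ∫⁻ s in Ioi (0 : ℝ), ENNReal.ofReal (s ^ ((1 + q) / 2 - 1) * hk s z)) (z : E3) :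
    ∫⁻ y, pE q d (z - y) * ENNReal.ofReal (rk q y) = ENNReal.ofReal c *
      ∫⁻ u in Ioi (0 : ℝ), ENNReal.ofReal (u⁻¹ * (max (u - d) 0) ^ ((1 + q) / 2))
        * ENNReal.ofReal (hk u z) := by
  have hhk : Measurable (fun p : ℝ × E3 => hk p.1 p.2) := measurable_hk
  -- step 1
  have h1 : ∫⁻ y, pE q d (z - y) * ENNReal.ofReal (rk q y)
      = ENNReal.ofReal c * ∫⁻ y : E3, ∫⁻ t in Ioi d, ∫⁻ s in Ioi (0 : ℝ),
        ENNReal.ofReal (pw q d t * hk t (z - y))
          * ENNReal.ofReal (s ^ ((1 + q) / 2 - 1) * hk s y) := by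
    rw [← lintegral_const_mul' _ _ ENNReal.ofReal_ne_top]
    refine lintegral_congr_ae ?_
    have h0 : ∀ᵐ y : E3, y ≠ 0 := by
      simp [ae_iff]
    filter_upwards [h0] with y hy
    have hm1 : Measurable (fun s : ℝ => ENNReal.ofReal (s ^ ((1 + q) / 2 - 1) * hk s y)) := by
      have := measurable_hk_fst y
      fun_prop
    have hm2 : Measurable (fun t : ℝ => ENNReal.ofReal (pw q d t * hk t (z - y))) :=
      ((measurable_pw q d).mul (measurable_hk_fst (z - y))).ennreal_ofReal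
    simp_rw [lintegral_const_mul _ hm1]
    rw [lintegral_mul_const _ hm2, hc y hy, pE]
    ring
  -- step 2 : swap
  have hmeas : Measurable (fun p : (E3 × ℝ) × ℝ =>
      ENNReal.ofReal (pw q d p.1.2 * hk p.1.2 (z - p.1.1))
          * ENNReal.ofReal (p.2 ^ ((1 + q) / 2 - 1) * hk p.2 p.1.1)) := by
    have ha : Measurable (fun p : (E3 × ℝ) × ℝ => pw q d p.1.2) :=
      (measurable_pw q d).comp (measurable_snd.comp measurable_fst)
    have hb : Measurable (fun p : (E3 × ℝ) × ℝ => hk p.1.2 (z - p.1.1)) :=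
      hhk.comp (f := fun p : (E3 × ℝ) × ℝ => (p.1.2, z - p.1.1)) (by fun_prop)
    have hd' : Measurable (fun p : (E3 × ℝ) × ℝ => hk p.2 p.1.1) :=
      hhk.comp (f := fun p : (E3 × ℝ) × ℝ => (p.2, p.1.1)) (by fun_prop)
    have he : Measurable (fun p : (E3 × ℝ) × ℝ => p.2 ^ ((1 + q) / 2 - 1)) := by fun_prop
    exact (ha.mul hb).ennreal_ofReal.mul (he.mul hd').ennreal_ofReal
  have h2 : ∫⁻ y : E3, ∫⁻ t in Ioi d, ∫⁻ s in Ioi (0 : ℝ),
        ENNReal.ofReal (pw q d t * hk t (z - y))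
          * ENNReal.ofReal (s ^ ((1 + q) / 2 - 1) * hk s y)
      = ∫⁻ t in Ioi d, ∫⁻ s in Ioi (0 : ℝ), ∫⁻ y : E3,
        ENNReal.ofReal (pw q d t * hk t (z - y))
          * ENNReal.ofReal (s ^ ((1 + q) / 2 - 1) * hk s y) := by
    rw [lintegral_lintegral_swap]
    · refine lintegral_congr fun t => ?_
      rw [lintegral_lintegral_swap]
      refine Measurable.aemeasurable ?_
      exact hmeas.comp (f := fun p : E3 × ℝ => ((p.1, t), p.2)) (by fun_prop)
    · exact (Measurable.lintegral_prod_right' hmeas).aemeasurable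
  -- step 3
  have h3 : ∀ t ∈ Ioi d, ∫⁻ s in Ioi (0 : ℝ), ∫⁻ y : E3,
        ENNReal.ofReal (pw q d t * hk t (z - y))
          * ENNReal.ofReal (s ^ ((1 + q) / 2 - 1) * hk s y)
      = ENNReal.ofReal (pw q d t) * ∫⁻ u in Ioi t,
        ENNReal.ofReal ((u - t) ^ ((1 + q) / 2 - 1)) * ENNReal.ofReal (hk u z) := by
    intro t ht
    have ht0 : 0 < t := hd.trans ht
    rw [← shift_integral (fun u => ENNReal.ofReal (hk u z)),
      ← lintegral_const_mul' _ _ ENNReal.ofReal_ne_top]
    refine setLIntegral_congr_fun measurableSet_Ioi fun s hs => ?_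
    have hs0 : 0 < s := hs
    have h4 : ∀ y : E3, ENNReal.ofReal (pw q d t * hk t (z - y))
          * ENNReal.ofReal (s ^ ((1 + q) / 2 - 1) * hk s y)
        = (ENNReal.ofReal (pw q d t) * ENNReal.ofReal (s ^ ((1 + q) / 2 - 1)))
          * (ENNReal.ofReal (hk t (z - y)) * ENNReal.ofReal (hk s y)) := by
      intro y
      rw [ENNReal.ofReal_mul (pw_pos hq0 hd ht0).le, ENNReal.ofReal_mul (by positivity)]
      ring
    simp_rw [h4]
    rw [lintegral_const_mul' _ _ (ENNReal.mul_ne_top ENNReal.ofReal_ne_top ENNReal.ofReal_ne_top),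
      lintegral_hk_conv ht0 hs0, mul_assoc]
  rw [h1, h2, setLIntegral_congr_fun measurableSet_Ioi h3,
    swap_triangle hq0 hd (measurable_hk_fst z).ennreal_ofReal]

/-- `P_d * k + c j_d = k` off the origin. -/
lemma main_identity {q d c : ℝ} (hq0 : 0 < q) (hd : 0 < d)
    (hc : ∀ z : E3, z ≠ 0 → ENNReal.ofReal (rk q z) = ENNReal.ofReal c *
        ∫⁻ s in Ioi (0 : ℝ), ENNReal.ofReal (s ^ ((1 + q) / 2 - 1) * hk s z)) {z : E3}
    (hz : z ≠ 0) :
    (∫⁻ y, pE q d (z - y) * ENNReal.ofReal (rk q y)) + ENNReal.ofReal c * jE q d z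
      = ENNReal.ofReal (rk q z) := by
  rw [conv_pE hq0 hd hc, hc z hz, ← mul_add]
  congr 1
  unfold jE
  rw [← lintegral_add_left]
  · refine setLIntegral_congr_fun measurableSet_Ioi fun u hu => ?_
    have hu0 : 0 < u := hu
    have h0 : 0 ≤ u⁻¹ * (max (u - d) 0) ^ ((1 + q) / 2) :=
      mul_nonneg (inv_nonneg.mpr hu0.le) (Real.rpow_nonneg (le_max_right _ _) _)
    rw [← ENNReal.ofReal_mul h0, ← ENNReal.ofReal_add
      (mul_nonneg h0 (hk_pos hu0 z).le) (mul_nonneg (jw_nonneg hq0 hd hu0) (hk_pos hu0 z).le)]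
    congr 1
    unfold jw
    ring
  · have := measurable_hk_fst z
    fun_prop

/-! ### assembly -/

/-- scale of the `n`-th kernel -/
def en (n : ℕ) : ℝ := 1 / ((n : ℝ) + 1)

lemma en_pos (n : ℕ) : 0 < en n := by unfold en; positivity

lemma en_le_one (n : ℕ) : en n ≤ 1 := by
  unfold en
  rw [div_le_one (by positivity)]
  have : (0 : ℝ) ≤ n := Nat.cast_nonneg n
  linarith

lemma tendsto_en : Tendsto en atTop (𝓝 0) := tendsto_one_div_add_atTop_nhds_zero_nat

/-- normalised `J_1` -/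
def J1 (q : ℝ) (z : E3) : ℝ := (jE q 1 z).toReal / (M1 q).toReal

lemma measurable_J1 (q : ℝ) : Measurable (J1 q) :=
  (measurable_jE q 1).ennreal_toReal.div_const _

lemma J1_nonneg (q : ℝ) (z : E3) : 0 ≤ J1 q z := by unfold J1; positivity

lemma integrable_J1 {q : ℝ} (hq0 : 0 < q) (hq1 : q < 1) : Integrable (J1 q) := by
  refine Integrable.div_const ?_ _
  refine integrable_toReal_of_lintegral_ne_top (measurable_jE q 1).aemeasurable ?_
  rw [lintegral_jE hq0]
  exact M1_ne_top hq0 hq1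

lemma integral_J1 {q : ℝ} (hq0 : 0 < q) (hq1 : q < 1) : ∫ z, J1 q z = 1 := by
  unfold J1
  have hM := ENNReal.toReal_pos (M1_ne_zero hq0) (M1_ne_top hq0 hq1)
  rw [integral_div, integral_toReal (measurable_jE q 1).aemeasurable, lintegral_jE hq0,
    div_self hM.ne']
  refine ae_lt_top (measurable_jE q 1) ?_
  rw [lintegral_jE hq0]
  exact M1_ne_top hq0 hq1

/-- rescaled kernel -/
def Jn (q : ℝ) (n : ℕ) (z : E3) : ℝ := (en n ^ 3)⁻¹ * J1 q ((en n)⁻¹ • z)

lemma integral_Jn_mul {q : ℝ} (n : ℕ) (ω : E3 → ℝ) :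
    ∫ z, Jn q n z * ω z = ∫ z, J1 q z * ω (en n • z) := by
  have he := en_pos n
  have h1 := Measure.integral_comp_inv_smul_of_nonneg (volume : Measure E3)
    (fun z => J1 q z * ω (en n • z)) (en_pos n).le
  have h3 : Module.finrank ℝ E3 = 3 := by simp
  rw [h3] at h1
  have h2 : ∫ z, Jn q n z * ω z
      = (en n ^ 3)⁻¹ * ∫ z : E3, J1 q ((en n)⁻¹ • z) * ω (en n • ((en n)⁻¹ • z)) := by
    rw [← integral_const_mul]
    refine integral_congr_ae (Eventually.of_forall fun z => ?_)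
    simp only [Jn]
    rw [smul_inv_smul₀ he.ne']
    ring
  rw [h2, h1, smul_eq_mul, ← mul_assoc, inv_mul_cancel₀ (by positivity), one_mul]

lemma integrable_Jn {q : ℝ} (hq0 : 0 < q) (hq1 : q < 1) (n : ℕ) : Integrable (Jn q n) := by
  unfold Jn
  exact ((integrable_J1 hq0 hq1).comp_smul (inv_ne_zero (en_pos n).ne')).const_mul _

end PackAux

open PackAux

theorem nonempty_pack {q : ℝ} (hq0 : 0 < q) (hq1 : q < 1) : Nonempty (Pack q) := by
  obtain ⟨c, hc0, hc⟩ := exists_rep hq0 hq1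
  have hM := ENNReal.toReal_pos (M1_ne_zero hq0) (M1_ne_top hq0 hq1)
  set M := (M1 q).toReal with hMdef
  have he2 : ∀ n, 0 < en n ^ 2 := fun n => by
    have := en_pos n
    positivity
  have hmain : ∀ n, ∀ z : E3, z ≠ 0 →
      (∫⁻ y, pE q (en n ^ 2) (z - y) * ENNReal.ofReal (rk q y))
        + ENNReal.ofReal c * jE q (en n ^ 2) z = ENNReal.ofReal (rk q z) :=
    fun n z hz => main_identity hq0 (he2 n) hc hz
  have hjtop : ∀ n, ∀ z : E3, z ≠ 0 → jE q (en n ^ 2) z ≠ ⊤ := by
    intro n z hz h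
    have h1 := hmain n z hz
    rw [h, ENNReal.mul_top (by simpa using hc0)] at h1
    simp at h1
  have hjtop1 : ∀ z : E3, z ≠ 0 → jE q 1 z ≠ ⊤ := by
    intro z hz
    have := hjtop 0 z hz
    simpa [en] using this
  refine ⟨{
    P := fun n z => (pE q (en n ^ 2) z).toReal
    J := Jn q
    m := fun n => en n ^ (q + 1) * (c * M)
    Q := fun z => (pE q 1 z).toReal / (c * M)
    hPm := fun n => (measurable_pE q _).ennreal_toReal
    hJm := fun n => by
      unfold Jn
      exact ((measurable_J1 q).comp (measurable_const_smul _)).const_mul _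
    hQm := (measurable_pE q _).ennreal_toReal.div_const _
    hP0 := fun n z => ENNReal.toReal_nonneg
    hJ0 := fun n z => by
      have := en_pos n
      have := J1_nonneg q ((en n)⁻¹ • z)
      unfold Jn
      positivity
    hm := fun n => by
      have := en_pos n
      positivity
    hQ0 := fun z => by
      have := ENNReal.toReal_pos (pE_ne_zero hq0 one_pos z) (pE_ne_top hq0 one_pos z)
      positivity
    hQP := fun n z => ?_
    hPs := fun n z => by simp only [pE_neg]
    hJs := fun n z => by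
      unfold Jn J1
      rw [smul_neg, jE_neg]
    hPi := fun n => integrable_toReal_of_lintegral_ne_top (measurable_pE q _).aemeasurable
      (by rw [lintegral_pE hq0 (he2 n)]; exact ENNReal.one_ne_top)
    hP1 := fun n => by
      rw [integral_toReal (measurable_pE q _).aemeasurable
        (Eventually.of_forall fun z => (pE_ne_top hq0 (he2 n) z).lt_top),
        lintegral_pE hq0 (he2 n), ENNReal.toReal_one]
    hJi := integrable_Jn hq0 hq1
    hJ1 := fun n => by
      have := integral_Jn_mul (q := q) n (fun _ => 1)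
      simpa [integral_J1 hq0 hq1] using this
    hPk := fun n z hz => ?_
    hJδ := fun ω hω hB h0 => ?_ }⟩
  · have h1 := pE_mono hq0 (he2 n) (pow_le_one₀ (en_pos n).le (en_le_one n)) z
    have h2 := ENNReal.toReal_mono (pE_ne_top hq0 (he2 n) z) h1
    rw [ENNReal.toReal_mul, ENNReal.toReal_ofReal (by have := en_pos n; positivity)] at h2
    have h3 : (en n ^ 2) ^ ((1 + q) / 2) = en n ^ (q + 1) := by
      rw [← Real.rpow_natCast (en n) 2, ← Real.rpow_mul (en_pos n).le]
      congr 1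
      push_cast
      ring
    rw [h3] at h2
    calc en n ^ (q + 1) * (c * M) * ((pE q 1 z).toReal / (c * M))
        = en n ^ (q + 1) * (pE q 1 z).toReal := by field_simp
      _ ≤ _ := h2
  · have h1 := hmain n z hz
    rw [← h1]
    congr 1
    · refine lintegral_congr fun y => ?_
      rw [ENNReal.ofReal_toReal (pE_ne_top hq0 (he2 n) _)]
    · have he := en_pos n
      have hz' : (en n)⁻¹ • z ≠ 0 := smul_ne_zero (inv_ne_zero he.ne') hz
      rw [jE_scale he, ← ENNReal.ofReal_toReal (hjtop1 _ hz'), ← ENNReal.ofReal_mul (by positivity),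
        ← ENNReal.ofReal_mul hc0.le]
      congr 1
      unfold Jn J1
      have h2 : en n ^ (q + 1) = en n ^ (q - 2) * en n ^ 3 := by
        rw [← Real.rpow_natCast (en n) 3, ← Real.rpow_add he]
        congr 1
        push_cast
        ring
      rw [h2, ← hMdef]
      field_simp
  · obtain ⟨B, hB⟩ := hB
    simp_rw [integral_Jn_mul]
    have h1 : (0 : ℝ) = ∫ z : E3, (0 : ℝ) := by simp
    rw [h1]
    refine tendsto_integral_of_dominated_convergence (fun z => J1 q z * B) ?_
      ((integrable_J1 hq0 hq1).mul_const B) ?_ ?_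
    · intro n
      exact ((measurable_J1 q).mul (hω.comp (measurable_const_smul _))).aestronglyMeasurable
    · intro n
      refine Eventually.of_forall fun z => ?_
      rw [Real.norm_eq_abs, abs_mul, abs_of_nonneg (J1_nonneg q z)]
      exact mul_le_mul_of_nonneg_left (hB _) (J1_nonneg q z)
    · refine Eventually.of_forall fun z => ?_
      have h2 : Tendsto (fun n => en n • z) atTop (𝓝 0) := by
        have := tendsto_en.smul_const z
        simpa using this
      have h3 := (h0.comp h2).const_mul (J1 q z)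
      simpa using h3

end Pool.Agent.LagRig
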