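import Pool.Agent.LagRig.Heat

open MeasureTheory Set Filter Topology
open scoped Real ENNReal

noncomputable section

namespace Pool.Agent.LagRig

namespace RepAux

/-- Scaling for lower Lebesgue integrals on the half line. -/
lemma lintegral_Ioi_scale {r : ℝ} (hr : 0 < r) (f : ℝ → ℝ≥0∞) :
    ∫⁻ s in Ioi (0 : ℝ), f s = ENNReal.ofReal r * ∫⁻ s in Ioi (0 : ℝ), f (r * s) := by
  have h1 : (fun s => r * s) '' Ioi (0 : ℝ) = Ioi 0 := by
    rw [image_mul_left_Ioi hr, mul_zero]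
  have h2 := lintegral_image_eq_lintegral_abs_deriv_mul (s := Ioi (0 : ℝ)) measurableSet_Ioi
    (f := fun s => r * s) (f' := fun _ => r)
    (fun x _ => by simpa using ((hasDerivAt_id x).const_mul r).hasDerivWithinAt)
    (fun x _ y _ h => mul_left_cancel₀ hr.ne' h) f
  rw [h1] at h2
  rw [h2, lintegral_const_mul' _ _ ENNReal.ofReal_ne_top, abs_of_pos hr]

/-- Scaling of the heat kernel. -/
lemma hk_scale {r : ℝ} (hr : 0 < r) {s : ℝ} (hs : 0 < s) {z : E3} (hz : ‖z‖ = r) :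
    hk (r ^ 2 * s) z = r ^ (-3 : ℝ) * ((4 * π * s) ^ (-(3 / 2) : ℝ) * Real.exp (-1 / (4 * s))) := by
  unfold hk
  have h1 : -(‖z‖ ^ 2) / (4 * (r ^ 2 * s)) = -1 / (4 * s) := by
    rw [hz]
    field_simp
  have h2 : (4 * π * (r ^ 2 * s)) ^ (-(3 / 2) : ℝ)
      = r ^ (-3 : ℝ) * (4 * π * s) ^ (-(3 / 2) : ℝ) := by
    rw [show 4 * π * (r ^ 2 * s) = r ^ 2 * (4 * π * s) by ring,
      Real.mul_rpow (by positivity) (by positivity)]
    congr 1
    rw [← Real.rpow_natCast r 2, ← Real.rpow_mul hr.le]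
    norm_num
  rw [h1, h2]
  ring

/-- The radial profile. -/
def prof (s : ℝ) : ℝ := (4 * π * s) ^ (-(3 / 2) : ℝ) * Real.exp (-1 / (4 * s))

lemma prof_pos {s : ℝ} (hs : 0 < s) : 0 < prof s := by
  unfold prof; positivity

lemma measurable_prof : Measurable prof := by
  unfold prof; fun_prop

lemma exp_bound {s : ℝ} (hs : 0 < s) : Real.exp (-1 / (4 * s)) ≤ 32 * s ^ 2 := by
  have h1 : (1 / (4 * s)) ^ 2 / 2 ≤ Real.exp (1 / (4 * s)) := by
    have := Real.quadratic_le_exp_of_nonneg (x := 1 / (4 * s)) (by positivity)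
    have h0 : (0 : ℝ) ≤ 1 / (4 * s) := by positivity
    linarith
  have h2 : Real.exp (-1 / (4 * s)) * Real.exp (1 / (4 * s)) = 1 := by
    rw [← Real.exp_add]
    have : -1 / (4 * s) + 1 / (4 * s) = 0 := by ring
    rw [this, Real.exp_zero]
  have h3 : 0 < Real.exp (-1 / (4 * s)) := Real.exp_pos _
  have h4 : Real.exp (-1 / (4 * s)) * ((1 / (4 * s)) ^ 2 / 2) ≤ 1 := by
    calc _ ≤ Real.exp (-1 / (4 * s)) * Real.exp (1 / (4 * s)) :=
          mul_le_mul_of_nonneg_left h1 h3.le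
      _ = 1 := h2
  have h5 : Real.exp (-1 / (4 * s)) * ((1 / (4 * s)) ^ 2 / 2)
      = Real.exp (-1 / (4 * s)) / (32 * s ^ 2) := by
    field_simp
    ring
  rw [h5, div_le_one (by positivity)] at h4
  exact h4

lemma integrableOn_split {f : ℝ → ℝ} (hf : Measurable f) {α β A B : ℝ} (hα : -1 < α)
    (hβ : β < -1) (h0 : ∀ s, 0 < s → 0 ≤ f s) (hA : ∀ s, 0 < s → s ≤ 1 → f s ≤ A * s ^ α)
    (hB : ∀ s, 1 < s → f s ≤ B * s ^ β) : IntegrableOn f (Ioi 0) := by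
  have h1 : IntegrableOn (fun s : ℝ => A * s ^ α) (Ioc 0 1) := by
    have := (intervalIntegral.intervalIntegrable_rpow' (a := 0) (b := 1) hα).const_mul A
    rwa [intervalIntegrable_iff_integrableOn_Ioc_of_le zero_le_one] at this
  have h2 : IntegrableOn (fun s : ℝ => B * s ^ β) (Ioi 1) :=
    (integrableOn_Ioi_rpow_of_lt hβ one_pos).const_mul B
  have h3 : IntegrableOn f (Ioc 0 1) := by
    refine Integrable.mono' h1 hf.aestronglyMeasurable ?_
    refine (ae_restrict_iff' measurableSet_Ioc).2 (Eventually.of_forall fun s hs => ?_)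
    rw [Real.norm_eq_abs, abs_of_nonneg (h0 s hs.1)]
    exact hA s hs.1 hs.2
  have h4 : IntegrableOn f (Ioi 1) := by
    refine Integrable.mono' h2 hf.aestronglyMeasurable ?_
    refine (ae_restrict_iff' measurableSet_Ioi).2 (Eventually.of_forall fun s hs => ?_)
    rw [Real.norm_eq_abs, abs_of_nonneg (h0 s (lt_trans one_pos hs))]
    exact hB s hs
  have h5 := h3.union h4
  rwa [Ioc_union_Ioi_eq_Ioi zero_le_one] at h5

lemma prof_rpow {s : ℝ} (hs : 0 < s) (α : ℝ) :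
    s ^ α * (4 * π * s) ^ (-(3 / 2) : ℝ)
      = (4 * π) ^ (-(3 / 2) : ℝ) * s ^ (α - 3 / 2) := by
  rw [Real.mul_rpow (by positivity) hs.le, show α - 3 / 2 = α + -(3 / 2) by ring,
    Real.rpow_add hs]
  ring

/-- a measurable positive function on the half line with finite integral -/
lemma lintegral_ne_zero {f : ℝ → ℝ} (hf : Measurable f) (h0 : ∀ s, 0 < s → 0 < f s) :
    ∫⁻ s in Ioi (0 : ℝ), ENNReal.ofReal (f s) ≠ 0 := by
  intro h
  rw [lintegral_eq_zero_iff (by fun_prop)] at h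
  have h1 : ∀ᵐ s ∂(volume.restrict (Ioi (0 : ℝ))), False := by
    filter_upwards [h, ae_restrict_mem measurableSet_Ioi] with s hs hs0
    have := h0 s hs0
    simp only [Pi.zero_apply, ENNReal.ofReal_eq_zero] at hs
    linarith
  rw [ae_iff] at h1
  simp at h1

lemma lintegral_ne_top {f : ℝ → ℝ} (hf : IntegrableOn f (Ioi 0)) :
    ∫⁻ s in Ioi (0 : ℝ), ENNReal.ofReal (f s) ≠ ⊤ := by
  have h1 := hf.hasFiniteIntegral
  rw [HasFiniteIntegral] at h1
  refine ne_top_of_le_ne_top h1.ne (lintegral_mono fun s => ?_)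
  rw [← ofReal_norm]
  exact ENNReal.ofReal_le_ofReal (le_abs_self _)

lemma integrable_one {q : ℝ} (hq0 : 0 < q) (hq1 : q < 1) :
    IntegrableOn (fun s : ℝ => s ^ ((1 + q) / 2 - 1) * prof s) (Ioi 0) := by
  have hm : Measurable (fun s : ℝ => s ^ ((1 + q) / 2 - 1) * prof s) :=
    (by fun_prop : Measurable fun s : ℝ => s ^ ((1 + q) / 2 - 1)).mul measurable_prof
  have hc : (0 : ℝ) < (4 * π) ^ (-(3 / 2) : ℝ) := by positivity
  have heq : ∀ s : ℝ, 0 < s → s ^ ((1 + q) / 2 - 1) * prof s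
      = (4 * π) ^ (-(3 / 2) : ℝ) * (s ^ ((1 + q) / 2 - 1 - 3 / 2) * Real.exp (-1 / (4 * s))) := by
    intro s hs
    unfold prof
    rw [← mul_assoc, prof_rpow hs]
    ring
  refine integrableOn_split (α := (1 + q) / 2 - 1 - 3 / 2 + 2) (β := (1 + q) / 2 - 1 - 3 / 2)
    (A := (4 * π) ^ (-(3 / 2) : ℝ) * 32) (B := (4 * π) ^ (-(3 / 2) : ℝ)) hm
    (by linarith) (by linarith) (fun s hs => ?_) (fun s hs hs1 => ?_) (fun s hs => ?_)
  · have := prof_pos hs
    positivity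
  · rw [heq s hs, mul_assoc]
    refine mul_le_mul_of_nonneg_left ?_ hc.le
    rw [Real.rpow_add hs]
    calc s ^ ((1 + q) / 2 - 1 - 3 / 2) * Real.exp (-1 / (4 * s))
        ≤ s ^ ((1 + q) / 2 - 1 - 3 / 2) * (32 * s ^ 2) :=
          mul_le_mul_of_nonneg_left (exp_bound hs) (by positivity)
      _ = 32 * (s ^ ((1 + q) / 2 - 1 - 3 / 2) * s ^ (2 : ℝ)) := by
          rw [Real.rpow_two]; ring
  · have hs0 : 0 < s := lt_trans one_pos hs
    rw [heq s hs0]
    refine mul_le_mul_of_nonneg_left ?_ hc.le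
    calc s ^ ((1 + q) / 2 - 1 - 3 / 2) * Real.exp (-1 / (4 * s))
        ≤ s ^ ((1 + q) / 2 - 1 - 3 / 2) * 1 := by
          refine mul_le_mul_of_nonneg_left ?_ (by positivity)
          rw [Real.exp_le_one_iff]
          exact div_nonpos_of_nonpos_of_nonneg (by norm_num) (by positivity)
      _ = _ := mul_one _

end RepAux

open RepAux

/-- Heat representation of the Riesz kernel (scaling `s = |z|^2 s'`). -/
theorem exists_rep {q : ℝ} (hq0 : 0 < q) (hq1 : q < 1) :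
    ∃ c : ℝ, 0 < c ∧ ∀ z : E3, z ≠ 0 →
      ENNReal.ofReal (rk q z) = ENNReal.ofReal c *
        ∫⁻ s in Ioi (0 : ℝ), ENNReal.ofReal (s ^ ((1 + q) / 2 - 1) * hk s z) := by
  set I0 : ℝ≥0∞ := ∫⁻ s in Ioi (0 : ℝ), ENNReal.ofReal (s ^ ((1 + q) / 2 - 1) * prof s) with hI0
  have hm : Measurable (fun s : ℝ => s ^ ((1 + q) / 2 - 1) * prof s) :=
    (by fun_prop : Measurable fun s : ℝ => s ^ ((1 + q) / 2 - 1)).mul measurable_prof
  have hI0z : I0 ≠ 0 := lintegral_ne_zero hm fun s hs => by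
    have := prof_pos hs
    positivity
  have hI0t : I0 ≠ ⊤ := lintegral_ne_top (integrable_one hq0 hq1)
  have hI0r : 0 < I0.toReal := ENNReal.toReal_pos hI0z hI0t
  refine ⟨I0.toReal⁻¹, inv_pos.mpr hI0r, fun z hz => ?_⟩
  have hr : 0 < ‖z‖ := norm_pos_iff.mpr hz
  have hr2 : 0 < ‖z‖ ^ 2 := by positivity
  rw [lintegral_Ioi_scale hr2]
  have h1 : ∫⁻ s in Ioi (0 : ℝ), ENNReal.ofReal ((‖z‖ ^ 2 * s) ^ ((1 + q) / 2 - 1)
      * hk (‖z‖ ^ 2 * s) z) = ENNReal.ofReal (‖z‖ ^ (q - 4)) * I0 := by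
    rw [hI0, ← lintegral_const_mul' _ _ ENNReal.ofReal_ne_top]
    refine setLIntegral_congr_fun measurableSet_Ioi fun s hs => ?_
    have hs' : 0 < s := hs
    rw [← ENNReal.ofReal_mul (by positivity), hk_scale hr hs' rfl]
    congr 1
    rw [Real.mul_rpow hr2.le hs'.le, ← Real.rpow_natCast ‖z‖ 2, ← Real.rpow_mul hr.le]
    have : ‖z‖ ^ (q - 4) = ‖z‖ ^ (((2 : ℕ) : ℝ) * ((1 + q) / 2 - 1)) * ‖z‖ ^ (-3 : ℝ) := by
      rw [← Real.rpow_add hr]
      congr 1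
      push_cast
      ring
    rw [this]
    unfold prof
    ring
  rw [h1, rk]
  have h2 : ENNReal.ofReal (I0.toReal⁻¹) = I0⁻¹ := by
    rw [ENNReal.ofReal_inv_of_pos hI0r, ENNReal.ofReal_toReal hI0t]
  rw [h2]
  have h3 : ENNReal.ofReal (‖z‖ ^ (q - 2))
      = ENNReal.ofReal (‖z‖ ^ 2) * ENNReal.ofReal (‖z‖ ^ (q - 4)) := by
    rw [← ENNReal.ofReal_mul (by positivity)]
    congr 1
    rw [← Real.rpow_natCast ‖z‖ 2, ← Real.rpow_add hr]
    congr 1
    push_cast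
    ring
  rw [h3]
  calc ENNReal.ofReal (‖z‖ ^ 2) * ENNReal.ofReal (‖z‖ ^ (q - 4))
      = ENNReal.ofReal (‖z‖ ^ 2) * ENNReal.ofReal (‖z‖ ^ (q - 4)) * (I0⁻¹ * I0) := by
        rw [ENNReal.inv_mul_cancel hI0z hI0t, mul_one]
    _ = _ := by ring

namespace RepAux

/-- the second profile -/
def prof2 (s : ℝ) : ℝ := (4 * π * s) ^ (-(3 / 2) : ℝ) * (1 - Real.exp (-1 / (4 * s)))

lemma one_sub_exp_pos {s : ℝ} (hs : 0 < s) : 0 < 1 - Real.exp (-1 / (4 * s)) := by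
  have : Real.exp (-1 / (4 * s)) < 1 := by
    rw [Real.exp_lt_one_iff]
    exact div_neg_of_neg_of_pos (by norm_num) (by positivity)
  linarith

lemma prof2_pos {s : ℝ} (hs : 0 < s) : 0 < prof2 s := by
  unfold prof2
  have := one_sub_exp_pos hs
  positivity

lemma measurable_prof2 : Measurable prof2 := by
  unfold prof2; fun_prop

lemma hk_zero {s : ℝ} : hk s 0 = (4 * π * s) ^ (-(3 / 2) : ℝ) := by
  simp [hk]

lemma integrable_two {q : ℝ} (hq0 : 0 < q) (hq1 : q < 1) :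
    IntegrableOn (fun s : ℝ => s ^ ((1 + q) / 2) * prof2 s) (Ioi 0) := by
  have hm : Measurable (fun s : ℝ => s ^ ((1 + q) / 2) * prof2 s) :=
    (by fun_prop : Measurable fun s : ℝ => s ^ ((1 + q) / 2)).mul measurable_prof2
  have hc : (0 : ℝ) < (4 * π) ^ (-(3 / 2) : ℝ) := by positivity
  have heq : ∀ s : ℝ, 0 < s → s ^ ((1 + q) / 2) * prof2 s
      = (4 * π) ^ (-(3 / 2) : ℝ) * (s ^ ((1 + q) / 2 - 3 / 2)
        * (1 - Real.exp (-1 / (4 * s)))) := by
    intro s hs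
    unfold prof2
    rw [← mul_assoc, prof_rpow hs]
    ring
  refine integrableOn_split (α := (1 + q) / 2 - 3 / 2) (β := (1 + q) / 2 - 3 / 2 + -1)
    (A := (4 * π) ^ (-(3 / 2) : ℝ)) (B := (4 * π) ^ (-(3 / 2) : ℝ)) hm
    (by linarith) (by linarith) (fun s hs => ?_) (fun s hs hs1 => ?_) (fun s hs => ?_)
  · have := prof2_pos hs
    positivity
  · rw [heq s hs]
    refine mul_le_mul_of_nonneg_left ?_ hc.le
    calc s ^ ((1 + q) / 2 - 3 / 2) * (1 - Real.exp (-1 / (4 * s)))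
        ≤ s ^ ((1 + q) / 2 - 3 / 2) * 1 := by
          refine mul_le_mul_of_nonneg_left ?_ (by positivity)
          have := Real.exp_pos (-1 / (4 * s))
          linarith
      _ = _ := mul_one _
  · have hs0 : 0 < s := lt_trans one_pos hs
    rw [heq s hs0]
    refine mul_le_mul_of_nonneg_left ?_ hc.le
    rw [Real.rpow_add hs0, Real.rpow_neg_one]
    refine mul_le_mul_of_nonneg_left ?_ (by positivity)
    have h1 : -1 / (4 * s) + 1 ≤ Real.exp (-1 / (4 * s)) := Real.add_one_le_exp _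
    have h2 : s⁻¹ = 4 * (1 / (4 * s)) := by field_simp
    have h3 : 0 < 1 / (4 * s) := by positivity
    have h4 : -1 / (4 * s) = -(1 / (4 * s)) := by ring
    rw [h2]
    rw [h4] at h1 ⊢
    linarith

/-- the basic difference formula -/
lemma diff_zero {q : ℝ} (hq0 : 0 < q) (hq1 : q < 1) (p : E3) :
    ∫⁻ v in Ioi (0 : ℝ), ENNReal.ofReal (v ^ ((1 + q) / 2) * (hk v 0 - hk v p))
      = ENNReal.ofReal (‖p‖ ^ q)
        * ∫⁻ s in Ioi (0 : ℝ), ENNReal.ofReal (s ^ ((1 + q) / 2) * prof2 s) := by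
  by_cases hp : p = 0
  · subst hp
    simp [Real.zero_rpow hq0.ne']
  have hr : 0 < ‖p‖ := norm_pos_iff.mpr hp
  have hr2 : 0 < ‖p‖ ^ 2 := by positivity
  rw [lintegral_Ioi_scale hr2]
  have h1 : ∫⁻ s in Ioi (0 : ℝ), ENNReal.ofReal ((‖p‖ ^ 2 * s) ^ ((1 + q) / 2)
      * (hk (‖p‖ ^ 2 * s) 0 - hk (‖p‖ ^ 2 * s) p)) = ENNReal.ofReal (‖p‖ ^ (q - 2))
      * ∫⁻ s in Ioi (0 : ℝ), ENNReal.ofReal (s ^ ((1 + q) / 2) * prof2 s) := by
    rw [← lintegral_const_mul' _ _ ENNReal.ofReal_ne_top]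
    refine setLIntegral_congr_fun measurableSet_Ioi fun s hs => ?_
    have hs' : 0 < s := hs
    rw [← ENNReal.ofReal_mul (by positivity), hk_scale hr hs' rfl]
    congr 1
    have h0 : hk (‖p‖ ^ 2 * s) 0 = ‖p‖ ^ (-3 : ℝ) * (4 * π * s) ^ (-(3 / 2) : ℝ) := by
      rw [hk_zero, show 4 * π * (‖p‖ ^ 2 * s) = ‖p‖ ^ 2 * (4 * π * s) by ring,
        Real.mul_rpow (by positivity) (by positivity)]
      congr 1
      rw [← Real.rpow_natCast ‖p‖ 2, ← Real.rpow_mul hr.le]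
      norm_num
    rw [h0, Real.mul_rpow hr2.le hs'.le, ← Real.rpow_natCast ‖p‖ 2, ← Real.rpow_mul hr.le]
    have : ‖p‖ ^ (q - 2) = ‖p‖ ^ (((2 : ℕ) : ℝ) * ((1 + q) / 2)) * ‖p‖ ^ (-3 : ℝ) := by
      rw [← Real.rpow_add hr]
      congr 1
      push_cast
      ring
    rw [this]
    unfold prof2
    ring
  rw [h1, ← mul_assoc, ← ENNReal.ofReal_mul (by positivity)]
  congr 2
  rw [← Real.rpow_natCast ‖p‖ 2, ← Real.rpow_add hr]
  congr 1
  push_cast
  ring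

lemma hk_anti {v : ℝ} (hv : 0 < v) {p p' : E3} (h : ‖p‖ ≤ ‖p'‖) : hk v p' ≤ hk v p := by
  unfold hk
  refine mul_le_mul_of_nonneg_left ?_ (by positivity)
  rw [Real.exp_le_exp]
  have h2 : ‖p‖ ^ 2 ≤ ‖p'‖ ^ 2 := by
    have := norm_nonneg p
    gcongr
  exact div_le_div_of_nonneg_right (by linarith) (by positivity)

end RepAux

/-- Difference formula (additivity + scaling). -/
theorem exists_diff {q : ℝ} (hq0 : 0 < q) (hq1 : q < 1) :
    ∃ C : ℝ, 0 < C ∧ ∀ p p' : E3, ‖p‖ ≤ ‖p'‖ →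
      ∫⁻ v in Ioi (0 : ℝ), ENNReal.ofReal (v ^ ((1 + q) / 2) * (hk v p - hk v p'))
        = ENNReal.ofReal (C * (‖p'‖ ^ q - ‖p‖ ^ q)) := by
  set D : ℝ≥0∞ := ∫⁻ s in Ioi (0 : ℝ), ENNReal.ofReal (s ^ ((1 + q) / 2) * prof2 s) with hD
  have hm : Measurable (fun s : ℝ => s ^ ((1 + q) / 2) * prof2 s) :=
    (by fun_prop : Measurable fun s : ℝ => s ^ ((1 + q) / 2)).mul measurable_prof2
  have hDz : D ≠ 0 := lintegral_ne_zero hm fun s hs => by
    have := prof2_pos hs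
    positivity
  have hDt : D ≠ ⊤ := lintegral_ne_top (integrable_two hq0 hq1)
  have hDr : 0 < D.toReal := ENNReal.toReal_pos hDz hDt
  refine ⟨D.toReal, hDr, fun p p' h => ?_⟩
  have hmh : ∀ z : E3, Measurable (fun v : ℝ => hk v z) := by
    intro z
    unfold hk
    fun_prop
  have hsum : (∫⁻ v in Ioi (0 : ℝ), ENNReal.ofReal (v ^ ((1 + q) / 2) * (hk v p - hk v p')))
      + ∫⁻ v in Ioi (0 : ℝ), ENNReal.ofReal (v ^ ((1 + q) / 2) * (hk v 0 - hk v p))
      = ∫⁻ v in Ioi (0 : ℝ), ENNReal.ofReal (v ^ ((1 + q) / 2) * (hk v 0 - hk v p')) := by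
    rw [← lintegral_add_left]
    · refine setLIntegral_congr_fun measurableSet_Ioi fun v hv => ?_
      have hv' : 0 < v := hv
      rw [← ENNReal.ofReal_add]
      · congr 1
        ring
      · exact mul_nonneg (by positivity) (sub_nonneg.mpr (hk_anti hv' h))
      · exact mul_nonneg (by positivity) (sub_nonneg.mpr (hk_anti hv' (by simp)))
    · have := hmh p
      have := hmh p'
      fun_prop
  rw [diff_zero hq0 hq1, diff_zero hq0 hq1, ← hD] at hsum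
  have hp : ENNReal.ofReal (‖p‖ ^ q) * D = ENNReal.ofReal (D.toReal * ‖p‖ ^ q) := by
    rw [ENNReal.ofReal_mul hDr.le, ENNReal.ofReal_toReal hDt, mul_comm]
  have hp' : ENNReal.ofReal (‖p'‖ ^ q) * D = ENNReal.ofReal (D.toReal * ‖p'‖ ^ q) := by
    rw [ENNReal.ofReal_mul hDr.le, ENNReal.ofReal_toReal hDt, mul_comm]
  rw [hp, hp'] at hsum
  have h1 := ENNReal.eq_sub_of_add_eq ENNReal.ofReal_ne_top hsum
  rw [h1, ← ENNReal.ofReal_sub _ (by positivity)]
  congr 1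
  ring

end Pool.Agent.LagRig
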