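import Pool.Agent.LagRig.Rep
import Pool.Agent.LagRig.Basic

/-!
# Module SubH: subharmonicity via heat kernels
-/

open MeasureTheory Set Filter Topology
open scoped Real ENNReal BoundedContinuousFunction

noncomputable section

namespace Pool.Agent.LagRig


namespace SubH

/-- the potential as a lower integral -/
def potE (q : ℝ) (τ : Measure E3) (x : E3) : ℝ≥0∞ := ∫⁻ z, ENNReal.ofReal (rk q (x - z)) ∂τ

theorem measurable_rk_sub (q : ℝ) :
    Measurable (fun p : E3 × E3 => ENNReal.ofReal (rk q (p.1 - p.2))) :=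
  ((measurable_rk q).comp (measurable_fst.sub measurable_snd)).ennreal_ofReal

theorem measurable_potE (q : ℝ) (τ : Measure E3) [SFinite τ] : Measurable (potE q τ) :=
  (measurable_rk_sub q).lintegral_prod_right'

theorem pot_eq (q : ℝ) (τ : Measure E3) (x : E3) : pot q τ x = (potE q τ x).toReal := by
  unfold pot potE
  rw [integral_eq_lintegral_of_nonneg_ae]
  · exact Eventually.of_forall fun z => rk_nonneg q _
  · exact ((measurable_rk q).comp (measurable_const.sub measurable_id)).aestronglyMeasurable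

theorem ae_potE_lt_top {q : ℝ} (hq0 : 0 < q) (hq1 : q < 1) (τ : Measure E3)
    [IsFiniteMeasure τ] : ∀ᵐ x : E3, potE q τ x < ∞ := by
  filter_upwards [ae_integrable_rk hq0 hq1 τ] with x hx
  have := hx.hasFiniteIntegral
  rw [hasFiniteIntegral_iff_ofReal (Eventually.of_forall fun z => rk_nonneg q _)] at this
  exact this

theorem ofReal_w {q : ℝ} (hq0 : 0 < q) (hq1 : q < 1) (μ ρ : Measure E3)
    [IsFiniteMeasure μ] [IsFiniteMeasure ρ] (hw : ∀ᵐ x : E3, pot q ρ x ≤ pot q μ x) :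
    ∀ᵐ x : E3, ENNReal.ofReal (pot q μ x - pot q ρ x) + potE q ρ x = potE q μ x := by
  filter_upwards [ae_potE_lt_top hq0 hq1 μ, ae_potE_lt_top hq0 hq1 ρ, hw] with x h1 h2 h3
  rw [pot_eq, pot_eq] at h3 ⊢
  rw [ENNReal.ofReal_sub _ ENNReal.toReal_nonneg, ENNReal.ofReal_toReal h1.ne,
    ENNReal.ofReal_toReal h2.ne]
  rw [ENNReal.toReal_le_toReal h2.ne h1.ne] at h3
  exact tsub_add_cancel_of_le h3

theorem conv {s t : ℝ} (ht : 0 < t) (hs : 0 < s) (x z : E3) :
    ∫⁻ ζ : E3, ENNReal.ofReal (hk t (x - ζ)) * ENNReal.ofReal (hk s (ζ - z))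
      = ENNReal.ofReal (hk (t + s) (x - z)) := by
  rw [← lintegral_hk_conv ht hs (x - z)]
  rw [← lintegral_sub_right_eq_self (fun y : E3 => ENNReal.ofReal (hk t (x - z - y)) *
    ENNReal.ofReal (hk s y)) z]
  refine lintegral_congr fun ζ => ?_
  congr 3
  abel_nf

/-- `K t p = ∫_0^∞ s^(a-1) hk (t+s) p ds`. -/
def K (a t : ℝ) (p : E3) : ℝ≥0∞ := ∫⁻ s in Ioi (0 : ℝ), ENNReal.ofReal (s ^ (a - 1) * hk (t + s) p)

theorem measurable_Kint (a : ℝ) :
    Measurable (fun p : (ℝ × E3) × ℝ => ENNReal.ofReal (p.2 ^ (a - 1) * hk (p.1.1 + p.2) p.1.2)) := by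
  refine Measurable.ennreal_ofReal ?_
  refine Measurable.mul (by fun_prop) ?_
  have := measurable_hk.comp
    ((measurable_fst.fst.add measurable_snd).prodMk measurable_fst.snd :
      Measurable (fun p : (ℝ × E3) × ℝ => ((p.1.1 + p.2, p.1.2) : ℝ × E3)))
  exact this

theorem K_eq (a t : ℝ) (p : E3) : K a t p = ∫⁻ s in Ioi (0 : ℝ),
    ENNReal.ofReal (s ^ (a - 1)) * ENNReal.ofReal (hk (t + s) p) := by
  unfold K
  refine setLIntegral_congr_fun measurableSet_Ioi fun s hs => ?_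
  exact ENNReal.ofReal_mul (Real.rpow_nonneg (le_of_lt hs) _)

theorem measurable_K (a : ℝ) : Measurable (fun p : ℝ × E3 => K a p.1 p.2) := by
  unfold K
  exact (measurable_Kint a).lintegral_prod_right'

theorem measurable_hk_right (t : ℝ) : Measurable (fun z : E3 => ENNReal.ofReal (hk t z)) :=
  (measurable_hk.comp (measurable_const.prodMk measurable_id)).ennreal_ofReal

theorem heat_rk {q c : ℝ} (hc : 0 < c)
    (hrep : ∀ z : E3, z ≠ 0 → ENNReal.ofReal (rk q z) = ENNReal.ofReal c *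
        ∫⁻ s in Ioi (0 : ℝ), ENNReal.ofReal (s ^ ((1 + q) / 2 - 1) * hk s z))
    {t : ℝ} (ht : 0 < t) (x z : E3) :
    ∫⁻ ζ : E3, ENNReal.ofReal (hk t (x - ζ)) * ENNReal.ofReal (rk q (ζ - z))
      = ENNReal.ofReal c * K ((1 + q) / 2) t (x - z) := by
  have h1 : ∀ᵐ ζ : E3, ENNReal.ofReal (hk t (x - ζ)) * ENNReal.ofReal (rk q (ζ - z)) =
      ENNReal.ofReal c * ∫⁻ s in Ioi (0 : ℝ), ENNReal.ofReal (hk t (x - ζ)) *
        ENNReal.ofReal (s ^ ((1 + q) / 2 - 1) * hk s (ζ - z)) := by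
    have h2 : ∀ᵐ ζ : E3, ζ ≠ z := by
      rw [ae_iff]
      simp
    filter_upwards [h2] with ζ hζ
    rw [hrep _ (sub_ne_zero.mpr hζ), lintegral_const_mul' _ _ ENNReal.ofReal_ne_top]
    ring
  rw [lintegral_congr_ae h1, lintegral_const_mul' _ _ ENNReal.ofReal_ne_top]
  congr 1
  rw [lintegral_lintegral_swap]
  · unfold K
    refine setLIntegral_congr_fun measurableSet_Ioi fun s hs => ?_
    have hs' : (0 : ℝ) < s := hs
    have e : ∀ ζ : E3, ENNReal.ofReal (hk t (x - ζ)) *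
        ENNReal.ofReal (s ^ ((1 + q) / 2 - 1) * hk s (ζ - z)) =
        ENNReal.ofReal (s ^ ((1 + q) / 2 - 1)) *
          (ENNReal.ofReal (hk t (x - ζ)) * ENNReal.ofReal (hk s (ζ - z))) := by
      intro ζ
      rw [ENNReal.ofReal_mul (Real.rpow_nonneg hs'.le _)]
      ring
    simp only [e]
    rw [lintegral_const_mul' _ _ ENNReal.ofReal_ne_top, conv ht hs',
      ← ENNReal.ofReal_mul (Real.rpow_nonneg hs'.le _)]
  · have m1 : Measurable (fun p : E3 × ℝ => ENNReal.ofReal (hk t (x - p.1))) :=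
      (measurable_hk_right t).comp (measurable_const.sub measurable_fst)
    have m2 : Measurable (fun p : E3 × ℝ =>
        ENNReal.ofReal (p.2 ^ ((1 + q) / 2 - 1) * hk p.2 (p.1 - z))) := by
      refine Measurable.ennreal_ofReal (Measurable.mul (by fun_prop) ?_)
      exact measurable_hk.comp (measurable_snd.prodMk (measurable_fst.sub measurable_const))
    exact (m1.mul m2).aemeasurable

theorem heat_pot {q c : ℝ} (hc : 0 < c)
    (hrep : ∀ z : E3, z ≠ 0 → ENNReal.ofReal (rk q z) = ENNReal.ofReal c *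
        ∫⁻ s in Ioi (0 : ℝ), ENNReal.ofReal (s ^ ((1 + q) / 2 - 1) * hk s z))
    {t : ℝ} (ht : 0 < t) (x : E3) (τ : Measure E3) [SFinite τ] :
    ∫⁻ ζ : E3, ENNReal.ofReal (hk t (x - ζ)) * potE q τ ζ
      = ENNReal.ofReal c * ∫⁻ z, K ((1 + q) / 2) t (x - z) ∂τ := by
  have e1 : ∀ ζ : E3, ENNReal.ofReal (hk t (x - ζ)) * potE q τ ζ =
      ∫⁻ z, ENNReal.ofReal (hk t (x - ζ)) * ENNReal.ofReal (rk q (ζ - z)) ∂τ := by
    intro ζ
    rw [potE, lintegral_const_mul' _ _ ENNReal.ofReal_ne_top]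
  simp only [e1]
  rw [lintegral_lintegral_swap]
  · simp only [heat_rk hc hrep ht]
    rw [lintegral_const_mul' _ _ ENNReal.ofReal_ne_top]
  · exact (((measurable_hk_right t).comp (measurable_const.sub measurable_fst)).mul
      (measurable_rk_sub q)).aemeasurable

theorem double_gen {φ ψ f : ℝ → ℝ≥0∞} (hφ : Measurable φ) (hψ : Measurable ψ)
    (hf : Measurable f) :
    ∫⁻ t in Ioi (0 : ℝ), φ t * ∫⁻ s in Ioi (0 : ℝ), ψ s * f (t + s)
      = ∫⁻ v in Ioi (0 : ℝ), (∫⁻ s in Ioo 0 v, ψ s * φ (v - s)) * f v := by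
  set Φ : ℝ → ℝ≥0∞ := (Ioi (0 : ℝ)).indicator φ with hΦ
  set Ψ : ℝ → ℝ≥0∞ := (Ioi (0 : ℝ)).indicator ψ with hΨ
  have mΦ : Measurable Φ := hφ.indicator measurableSet_Ioi
  have mΨ : Measurable Ψ := hψ.indicator measurableSet_Ioi
  have h1 : ∀ t, ∫⁻ s in Ioi (0 : ℝ), ψ s * f (t + s) = ∫⁻ s, Ψ s * f (t + s) := by
    intro t
    rw [← lintegral_indicator measurableSet_Ioi]
    refine lintegral_congr fun s => ?_
    by_cases hs : s ∈ Ioi (0 : ℝ)
    · simp only [hΨ, indicator_of_mem hs]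
    · simp only [hΨ, indicator_of_notMem hs, zero_mul]
  have h2 : ∫⁻ t in Ioi (0 : ℝ), φ t * ∫⁻ s in Ioi (0 : ℝ), ψ s * f (t + s) =
      ∫⁻ t, ∫⁻ s, Φ t * (Ψ s * f (t + s)) := by
    rw [← lintegral_indicator measurableSet_Ioi]
    refine lintegral_congr fun t => ?_
    by_cases ht : t ∈ Ioi (0 : ℝ)
    · have m6 : Measurable (fun s => Ψ s * f (t + s)) :=
        mΨ.mul (hf.comp (measurable_const.add measurable_id))
      rw [indicator_of_mem ht, h1, ← lintegral_const_mul _ m6]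
      simp only [hΦ, indicator_of_mem ht]
    · simp only [hΦ, indicator_of_notMem ht, zero_mul, lintegral_zero]
  rw [h2, lintegral_lintegral_swap]
  swap
  · exact ((mΦ.comp measurable_fst).mul ((mΨ.comp measurable_snd).mul
      (hf.comp (measurable_fst.add measurable_snd)))).aemeasurable
  have h3 : ∀ s, ∫⁻ t, Φ t * (Ψ s * f (t + s)) = ∫⁻ v, Φ (v - s) * (Ψ s * f v) := by
    intro s
    rw [← lintegral_sub_right_eq_self (fun t => Φ t * (Ψ s * f (t + s))) s]
    simp only [sub_add_cancel]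
  simp only [h3]
  rw [lintegral_lintegral_swap]
  swap
  · exact ((mΦ.comp (measurable_snd.sub measurable_fst)).mul ((mΨ.comp measurable_fst).mul
      (hf.comp measurable_snd))).aemeasurable
  rw [← lintegral_indicator measurableSet_Ioi]
  refine lintegral_congr fun v => ?_
  have h4 : ∀ s, Φ (v - s) * (Ψ s * f v) = (Ioo 0 v).indicator (fun s => ψ s * φ (v - s)) s * f v := by
    intro s
    by_cases h : s ∈ Ioo 0 v
    · have h5 : s ∈ Ioi (0 : ℝ) := h.1
      have h6 : v - s ∈ Ioi (0 : ℝ) := sub_pos.mpr h.2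
      simp only [hΦ, hΨ, indicator_of_mem h, indicator_of_mem h5, indicator_of_mem h6]
      ring
    · rw [indicator_of_notMem h, zero_mul]
      by_cases h5 : s ∈ Ioi (0 : ℝ)
      · have h6 : v - s ∉ Ioi (0 : ℝ) := fun h7 => h ⟨h5, sub_pos.mp h7⟩
        simp only [hΦ, indicator_of_notMem h6, zero_mul]
      · simp only [hΨ, indicator_of_notMem h5, zero_mul, mul_zero]
  simp only [h4]
  have m5 : Measurable ((Ioo 0 v).indicator (fun s => ψ s * φ (v - s))) :=
    (hψ.mul (hφ.comp (measurable_const.sub measurable_id))).indicator measurableSet_Ioo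
  rw [lintegral_mul_const _ m5, lintegral_indicator measurableSet_Ioo]
  by_cases hv : v ∈ Ioi (0 : ℝ)
  · rw [indicator_of_mem hv]
  · rw [indicator_of_notMem hv, Ioo_eq_empty (fun h => hv h), Measure.restrict_empty,
      lintegral_zero_measure, zero_mul]

theorem lint_rpow {a v : ℝ} (ha : 0 < a) (hv : 0 < v) :
    ∫⁻ s in Ioo 0 v, ENNReal.ofReal (s ^ (a - 1)) = ENNReal.ofReal (v ^ a / a) := by
  rw [← ofReal_integral_eq_lintegral_ofReal]
  · congr 1
    rw [← integral_Ioc_eq_integral_Ioo, ← intervalIntegral.integral_of_le hv.le,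
      integral_rpow (Or.inl (by linarith))]
    simp [Real.zero_rpow ha.ne']
  · have := intervalIntegral.intervalIntegrable_rpow' (a := 0) (b := v) (r := a - 1) (by linarith)
    rw [intervalIntegrable_iff_integrableOn_Ioo_of_le hv.le] at this
    exact this
  · filter_upwards [ae_restrict_mem measurableSet_Ioo] with s hs
    exact Real.rpow_nonneg hs.1.le _


/-- the `K`-kernel is bounded -/
theorem K_bound {a t : ℝ} (ha0 : 0 < a) (ha1 : a < 1) (ht : 0 < t) :
    ∃ M : ℝ≥0∞, M ≠ ∞ ∧ ∀ p : E3, K a t p ≤ M := by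
  set F : ℝ → ℝ := fun s => (Ioc (0 : ℝ) 1).indicator (fun s => s ^ (a - 1) * t ^ (-(3 / 2) : ℝ)) s
    + (Ioi (1 : ℝ)).indicator (fun s => s ^ (a - 1 - 3 / 2)) s with hF
  refine ⟨∫⁻ s in Ioi (0 : ℝ), ENNReal.ofReal (F s), ?_, ?_⟩
  · have h1 : Integrable F := by
      refine Integrable.add ?_ ?_
      · rw [integrable_indicator_iff measurableSet_Ioc]
        refine Integrable.mul_const ?_ _
        have := intervalIntegral.intervalIntegrable_rpow' (a := 0) (b := 1) (r := a - 1)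
          (by linarith)
        rwa [intervalIntegrable_iff_integrableOn_Ioc_of_le zero_le_one] at this
      · rw [integrable_indicator_iff measurableSet_Ioi]
        exact integrableOn_Ioi_rpow_of_lt (by linarith) one_pos
    have h2 := h1.integrableOn (s := Ioi (0 : ℝ))
    have h3 := h2.lintegral_lt_top
    exact h3.ne
  · intro p
    refine setLIntegral_mono' measurableSet_Ioi fun s hs => ?_
    have hs' : (0 : ℝ) < s := hs
    refine ENNReal.ofReal_le_ofReal ?_
    have hpi : (1 : ℝ) ≤ 4 * π := by nlinarith [Real.pi_gt_three]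
    have h4 : hk (t + s) p ≤ (t + s) ^ (-(3 / 2) : ℝ) := by
      unfold hk
      have h5 : (4 * π * (t + s)) ^ (-(3 / 2) : ℝ) ≤ (t + s) ^ (-(3 / 2) : ℝ) := by
        refine Real.rpow_le_rpow_of_nonpos (by linarith) ?_ (by norm_num)
        nlinarith
      have h6 : Real.exp (-(‖p‖ ^ 2) / (4 * (t + s))) ≤ 1 := by
        rw [Real.exp_le_one_iff]
        exact div_nonpos_of_nonpos_of_nonneg (by nlinarith [sq_nonneg ‖p‖]) (by linarith)
      calc (4 * π * (t + s)) ^ (-(3 / 2) : ℝ) * Real.exp (-(‖p‖ ^ 2) / (4 * (t + s)))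
          ≤ (t + s) ^ (-(3 / 2) : ℝ) * 1 :=
            mul_le_mul h5 h6 (Real.exp_pos _).le (Real.rpow_nonneg (by linarith) _)
        _ = _ := mul_one _
    have h7 : (0 : ℝ) ≤ s ^ (a - 1) := Real.rpow_nonneg hs'.le _
    refine (mul_le_mul_of_nonneg_left h4 h7).trans ?_
    by_cases h8 : s ≤ 1
    · have h9 : s ∈ Ioc (0 : ℝ) 1 := ⟨hs', h8⟩
      have h10 : s ∉ Ioi (1 : ℝ) := not_lt.mpr h8
      rw [hF]
      simp only [indicator_of_mem h9, indicator_of_notMem h10, add_zero]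
      refine mul_le_mul_of_nonneg_left ?_ h7
      exact Real.rpow_le_rpow_of_nonpos ht (by linarith) (by norm_num)
    · have h9 : s ∉ Ioc (0 : ℝ) 1 := fun h => h8 h.2
      have h10 : s ∈ Ioi (1 : ℝ) := not_le.mp h8
      rw [hF]
      simp only [indicator_of_mem h10, indicator_of_notMem h9, zero_add]
      rw [sub_eq_add_neg (a - 1), Real.rpow_add hs']
      refine mul_le_mul_of_nonneg_left ?_ h7
      exact Real.rpow_le_rpow_of_nonpos hs' (by linarith) (by norm_num)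

theorem hk_mono {s : ℝ} (hs : 0 < s) {p p' : E3} (h : ‖p‖ ≤ ‖p'‖) : hk s p' ≤ hk s p := by
  unfold hk
  refine mul_le_mul_of_nonneg_left ?_ (Real.rpow_nonneg (by positivity) _)
  rw [Real.exp_le_exp]
  have h1 : ‖p‖ ^ 2 ≤ ‖p'‖ ^ 2 := pow_le_pow_left₀ (norm_nonneg _) h 2
  exact div_le_div_of_nonneg_right (by linarith) (by linarith)

theorem K_mono {a t : ℝ} (ht : 0 < t) {p p' : E3} (h : ‖p‖ ≤ ‖p'‖) : K a t p' ≤ K a t p := by
  refine setLIntegral_mono' measurableSet_Ioi fun s hs => ENNReal.ofReal_le_ofReal ?_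
  have hs' : (0 : ℝ) < s := hs
  exact mul_le_mul_of_nonneg_left (hk_mono (by linarith) h) (Real.rpow_nonneg hs'.le _)

theorem measurable_hk_left (p : E3) : Measurable (fun s : ℝ => hk s p) :=
  measurable_hk.comp (measurable_id.prodMk measurable_const)

theorem K_diff {q C : ℝ} (hq0 : 0 < q) (hq1 : q < 1) (hC : 0 < C)
    (hdiff : ∀ p p' : E3, ‖p‖ ≤ ‖p'‖ →
      ∫⁻ v in Ioi (0 : ℝ), ENNReal.ofReal (v ^ ((1 + q) / 2) * (hk v p - hk v p'))
        = ENNReal.ofReal (C * (‖p'‖ ^ q - ‖p‖ ^ q))) (p p' : E3) :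
    ∫⁻ t in Ioi (0 : ℝ), (K ((1 + q) / 2) t p - K ((1 + q) / 2) t p')
      = ENNReal.ofReal (2 / (1 + q) * C * (‖p'‖ ^ q - ‖p‖ ^ q)) := by
  set a := (1 + q) / 2 with ha
  have ha0 : 0 < a := by rw [ha]; linarith
  have ha1 : a < 1 := by rw [ha]; linarith
  rcases le_total ‖p‖ ‖p'‖ with h | h
  · have e1 : ∀ t ∈ Ioi (0 : ℝ), K a t p - K a t p' =
        1 * ∫⁻ s in Ioi (0 : ℝ), ENNReal.ofReal (s ^ (a - 1)) *
          (fun v => ENNReal.ofReal (hk v p - hk v p')) (t + s) := by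
      intro t ht
      have ht' : (0 : ℝ) < t := ht
      obtain ⟨M, hM, hM'⟩ := K_bound ha0 ha1 ht'
      have hne : K a t p' ≠ ∞ := ne_top_of_le_ne_top hM (hM' p')
      have hadd : K a t p = K a t p' + ∫⁻ s in Ioi (0 : ℝ), ENNReal.ofReal (s ^ (a - 1)) *
          (fun v => ENNReal.ofReal (hk v p - hk v p')) (t + s) := by
        unfold K
        rw [← lintegral_add_left]
        · refine setLIntegral_congr_fun measurableSet_Ioi fun s hs => ?_
          have hs' : (0 : ℝ) < s := hs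
          have h7 : (0 : ℝ) ≤ s ^ (a - 1) := Real.rpow_nonneg hs'.le _
          have h8 : hk (t + s) p' ≤ hk (t + s) p := hk_mono (by linarith) h
          simp only
          rw [← ENNReal.ofReal_mul h7, ← ENNReal.ofReal_add
            (mul_nonneg h7 (hk_pos (by linarith) _).le) (mul_nonneg h7 (by linarith))]
          congr 1
          ring
        · refine Measurable.ennreal_ofReal (Measurable.mul (by fun_prop) ?_)
          exact (measurable_hk_left p').comp (measurable_const.add measurable_id)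
      rw [hadd, one_mul, ENNReal.add_sub_cancel_left hne]
    rw [setLIntegral_congr_fun measurableSet_Ioi e1]
    have mφ : Measurable (fun _ : ℝ => (1 : ℝ≥0∞)) := measurable_const
    have mψ : Measurable (fun s : ℝ => ENNReal.ofReal (s ^ (a - 1))) := by fun_prop
    have mf : Measurable (fun v => ENNReal.ofReal (hk v p - hk v p')) :=
      ((measurable_hk_left p).sub (measurable_hk_left p')).ennreal_ofReal
    rw [double_gen mφ mψ mf]
    have e2 : ∀ v ∈ Ioi (0 : ℝ), (∫⁻ s in Ioo 0 v, ENNReal.ofReal (s ^ (a - 1)) * 1) *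
        ENNReal.ofReal (hk v p - hk v p') = ENNReal.ofReal (a⁻¹) *
          ENNReal.ofReal (v ^ a * (hk v p - hk v p')) := by
      intro v hv
      have hv' : (0 : ℝ) < v := hv
      simp only [mul_one]
      rw [lint_rpow ha0 hv', ← ENNReal.ofReal_mul (div_nonneg (Real.rpow_nonneg hv'.le _) ha0.le),
        ← ENNReal.ofReal_mul (inv_nonneg.mpr ha0.le)]
      congr 1
      ring
    rw [setLIntegral_congr_fun measurableSet_Ioi e2, lintegral_const_mul' _ _ ENNReal.ofReal_ne_top,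
      hdiff p p' h, ← ENNReal.ofReal_mul (inv_nonneg.mpr ha0.le)]
    congr 1
    rw [ha]
    have : (1 + q) ≠ 0 := by linarith
    field_simp
  · have e1 : ∀ t ∈ Ioi (0 : ℝ), K a t p - K a t p' = 0 := by
      intro t ht
      exact tsub_eq_zero_of_le (K_mono ht h)
    rw [setLIntegral_congr_fun measurableSet_Ioi e1, lintegral_zero]
    symm
    rw [ENNReal.ofReal_eq_zero]
    have h2 : ‖p'‖ ^ q ≤ ‖p‖ ^ q := Real.rpow_le_rpow (norm_nonneg _) h hq0.le
    have h3 : 0 ≤ 2 / (1 + q) * C := by positivity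
    exact mul_nonpos_of_nonneg_of_nonpos h3 (by linarith)


/-- the Newton kernel -/
def N0 (p : E3) : ℝ≥0∞ := ∫⁻ t in Ioi (0 : ℝ), ENNReal.ofReal (hk t p)

theorem N0_def (p : E3) : N0 p = ∫⁻ t in Ioi (0 : ℝ), ENNReal.ofReal (hk t p) := rfl

theorem measurable_N0 : Measurable N0 := by
  unfold N0
  have : Measurable (fun p : E3 × ℝ => ENNReal.ofReal (hk p.2 p.1)) :=
    (measurable_hk.comp (measurable_snd.prodMk measurable_fst)).ennreal_ofReal
  exact this.lintegral_prod_right'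

theorem N0_neg (p : E3) : N0 (-p) = N0 p := by
  unfold N0; simp only [hk_neg]

attribute [local irreducible] hk rk pot potE K N0

/-- heat semigroup applied to `w = pot μ - pot ρ`, for one time -/
theorem heat_w {q c : ℝ} (hq0 : 0 < q) (hq1 : q < 1) (hc : 0 < c)
    (hrep : ∀ z : E3, z ≠ 0 → ENNReal.ofReal (rk q z) = ENNReal.ofReal c *
        ∫⁻ s in Ioi (0 : ℝ), ENNReal.ofReal (s ^ ((1 + q) / 2 - 1) * hk s z))
    (μ ρ : Measure E3) [IsProbabilityMeasure μ] [IsProbabilityMeasure ρ]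
    (hw : ∀ᵐ x : E3, pot q ρ x ≤ pot q μ x) {t : ℝ} (ht : 0 < t) (x : E3) :
    (∫⁻ ζ : E3, ENNReal.ofReal (hk t (x - ζ)) * ENNReal.ofReal (pot q μ ζ - pot q ρ ζ)) +
      ENNReal.ofReal c * ∫⁻ z, ∫⁻ z', (K ((1 + q) / 2) t (x - z') - K ((1 + q) / 2) t (x - z)) ∂ρ ∂μ
      = ENNReal.ofReal c *
        ∫⁻ z, ∫⁻ z', (K ((1 + q) / 2) t (x - z) - K ((1 + q) / 2) t (x - z')) ∂ρ ∂μ := by
  set a := (1 + q) / 2 with ha
  have ha0 : 0 < a := by rw [ha]; linarith
  have ha1 : a < 1 := by rw [ha]; linarith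
  obtain ⟨M, hM, hM'⟩ := K_bound ha0 ha1 ht
  have mK : Measurable (fun z : E3 => K a t (x - z)) :=
    (measurable_K a).comp (measurable_const.prodMk (measurable_const.sub measurable_id))
  have mK1 : Measurable (fun p : E3 × E3 => K a t (x - p.1)) := mK.comp measurable_fst
  have mK2 : Measurable (fun p : E3 × E3 => K a t (x - p.2)) := mK.comp measurable_snd
  -- the two heat integrals
  have h1 := heat_pot hc hrep ht x μ
  have h2 := heat_pot hc hrep ht x ρ
  rw [← ha] at h1 h2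
  have h3 : (∫⁻ ζ : E3, ENNReal.ofReal (hk t (x - ζ)) * ENNReal.ofReal (pot q μ ζ - pot q ρ ζ)) +
      ∫⁻ ζ : E3, ENNReal.ofReal (hk t (x - ζ)) * potE q ρ ζ =
      ∫⁻ ζ : E3, ENNReal.ofReal (hk t (x - ζ)) * potE q μ ζ := by
    have m1 : Measurable (fun ζ : E3 => ENNReal.ofReal (hk t (x - ζ)) * potE q ρ ζ) :=
      ((measurable_hk_right t).comp (measurable_const.sub measurable_id)).mul
        (measurable_potE q ρ)
    rw [← lintegral_add_right _ m1]
    refine lintegral_congr_ae ?_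
    filter_upwards [ofReal_w hq0 hq1 μ ρ hw] with ζ hζ
    rw [← mul_add, hζ]
  rw [h1, h2] at h3
  -- constants in the other variable
  have hfin : ENNReal.ofReal c * ∫⁻ z, K a t (x - z) ∂ρ ≠ ∞ := by
    refine ENNReal.mul_ne_top ENNReal.ofReal_ne_top (ne_top_of_le_ne_top hM ?_)
    calc ∫⁻ z, K a t (x - z) ∂ρ ≤ ∫⁻ _, M ∂ρ := lintegral_mono fun z => hM' _
      _ = M := by simp
  have e1 : ∫⁻ z, K a t (x - z) ∂μ = ∫⁻ z, ∫⁻ _, K a t (x - z) ∂ρ ∂μ := by simp
  have e2 : ∫⁻ z, K a t (x - z) ∂ρ = ∫⁻ _, ∫⁻ z', K a t (x - z') ∂ρ ∂μ := by simp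
  have k1 : (∫⁻ z, K a t (x - z) ∂μ) + ∫⁻ z, ∫⁻ z', (K a t (x - z') - K a t (x - z)) ∂ρ ∂μ =
      (∫⁻ z, K a t (x - z) ∂ρ) + ∫⁻ z, ∫⁻ z', (K a t (x - z) - K a t (x - z')) ∂ρ ∂μ := by
    rw [e1, e2, ← lintegral_add_left, ← lintegral_add_left]
    · refine lintegral_congr fun z => ?_
      rw [← lintegral_add_left measurable_const, ← lintegral_add_left mK]
      refine lintegral_congr fun z' => ?_
      rw [add_tsub_eq_max, add_tsub_eq_max, max_comm]
    · exact measurable_const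
    · simp only [lintegral_const, measure_univ, mul_one]
      exact mK
  have k2 : ENNReal.ofReal c * (∫⁻ z, K a t (x - z) ∂ρ) +
      ((∫⁻ ζ : E3, ENNReal.ofReal (hk t (x - ζ)) * ENNReal.ofReal (pot q μ ζ - pot q ρ ζ)) +
      ENNReal.ofReal c * ∫⁻ z, ∫⁻ z', (K a t (x - z') - K a t (x - z)) ∂ρ ∂μ)
      = ENNReal.ofReal c * (∫⁻ z, K a t (x - z) ∂ρ) + ENNReal.ofReal c *
        ∫⁻ z, ∫⁻ z', (K a t (x - z) - K a t (x - z')) ∂ρ ∂μ := by
    rw [← mul_add, ← k1, mul_add, ← h3]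
    ring
  exact (ENNReal.add_right_inj hfin).mp k2

end SubH

end Pool.Agent.LagRig
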